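import Pool.Agent.Lib.MP_9df71a_co.Smooth

/-!
Primes dividing all the numbers `a ^ n - 1` with `2 ≤ a ≤ n ^ ε`.
-/

open Filter Topology

namespace Pool.Agent.MP9df71a

lemma exists_root (k X : ℕ) (hk : 0 < k) : ∃ B : ℕ, B ^ k ≤ X ∧ X < (B + 1) ^ k := by
  classical
  have hex : ∃ b : ℕ, X < (b + 1) ^ k := by
    refine ⟨X, ?_⟩
    calc X < X + 1 := Nat.lt_succ_self X
      _ = (X + 1) ^ 1 := (pow_one _).symm
      _ ≤ (X + 1) ^ k := Nat.pow_le_pow_right (by omega) hk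
  refine ⟨Nat.find hex, ?_, Nat.find_spec hex⟩
  rcases Nat.eq_zero_or_pos (Nat.find hex) with h0 | h0
  · rw [h0, zero_pow hk.ne']
    exact Nat.zero_le _
  · have h1 := Nat.find_min hex (Nat.sub_lt h0 one_pos)
    have h2 : Nat.find hex - 1 + 1 = Nat.find hex := Nat.sub_add_cancel h0
    change ¬ X < (Nat.find hex - 1 + 1) ^ k at h1
    rw [h2] at h1
    exact not_lt.mp h1

/-- If all primes up to `B` are `n`-th roots of unity modulo `q`, so are all `B`-smooth numbers. -/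
lemma smooth_pow_eq_one {q n B : ℕ} (h : ∀ p : ℕ, p.Prime → p ≤ B → (p : ZMod q) ^ n = 1) :
    ∀ m : ℕ, 1 ≤ m → (∀ p : ℕ, p.Prime → p ∣ m → p ≤ B) → (m : ZMod q) ^ n = 1 := by
  intro m
  induction m using Nat.recOnMul with
  | zero => intro h0; omega
  | one => intro _ _; simp
  | prime p hp =>
    intro _ h2
    exact h p hp (h2 p hp dvd_rfl)
  | mul a b iha ihb =>
    intro h1 h2
    have ha : 1 ≤ a := Nat.pos_of_ne_zero (by rintro rfl; simp at h1)
    have hb : 1 ≤ b := Nat.pos_of_ne_zero (by rintro rfl; simp at h1)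
    push_cast
    rw [mul_pow, iha ha fun p hp hpd => h2 p hp (hpd.mul_right b),
      ihb hb fun p hp hpd => h2 p hp (hpd.mul_left a), one_mul]

/-- Distinct residues which are `n`-th roots of unity: there are at most `gcd n (q - 1)`. -/
lemma card_le_gcd {q n : ℕ} (hq : q.Prime) (hn : 0 < n) (S : Finset ℕ)
    (hS : ∀ m ∈ S, 1 ≤ m ∧ m ≤ q - 1 ∧ (m : ZMod q) ^ n = 1) :
    S.card ≤ Nat.gcd n (q - 1) := by
  classical
  have : Fact q.Prime := ⟨hq⟩
  set d := Nat.gcd n (q - 1) with hd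
  have hdpos : 0 < d := Nat.gcd_pos_of_pos_left _ hn
  have h1 : S.card ≤ ((Polynomial.nthRoots d (1 : ZMod q)).toFinset).card := by
    apply Finset.card_le_card_of_injOn (fun m : ℕ => (m : ZMod q))
    · intro m hm
      have hm' := hS m (by simpa using hm)
      simp only [Finset.mem_coe, Multiset.mem_toFinset]
      rw [Polynomial.mem_nthRoots hdpos]
      have hne : (m : ZMod q) ≠ 0 := by
        intro h0
        rw [h0, zero_pow hn.ne'] at hm'
        exact zero_ne_one hm'.2.2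
      have h2 : (m : ZMod q) ^ (q - 1) = 1 := ZMod.pow_card_sub_one_eq_one hne
      exact pow_gcd_eq_one.mpr ⟨hm'.2.2, h2⟩
    · intro m hm m' hm' hmm
      have h3 := hS m (by simpa using hm)
      have h4 := hS m' (by simpa using hm')
      have hq1 := hq.one_lt
      have h5 := (ZMod.natCast_eq_natCast_iff' m m' q).mp hmm
      rwa [Nat.mod_eq_of_lt (by omega), Nat.mod_eq_of_lt (by omega)] at h5
  refine h1.trans ((Multiset.toFinset_card_le _).trans ?_)
  exact Polynomial.card_nthRoots d 1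

lemma pow_eq_one_of_dvd {q n a : ℕ} (ha : 1 ≤ a) (h : q ∣ a ^ n - 1) : (a : ZMod q) ^ n = 1 := by
  have h1 : 1 ≤ a ^ n := Nat.one_le_pow _ _ ha
  have h2 : ((a ^ n - 1 : ℕ) : ZMod q) = 0 := (ZMod.natCast_eq_zero_iff _ _).mpr h
  rw [Nat.cast_sub h1] at h2
  push_cast at h2
  exact sub_eq_zero.mp h2

/-- A prime dividing all `a ^ n - 1` with `2 ≤ a ≤ A` exceeds `A`. -/
lemma lt_of_forall_dvd {q n A : ℕ} (hq : q.Prime) (hn : 0 < n)
    (h : ∀ a, 2 ≤ a → a ≤ A → q ∣ a ^ n - 1) : A < q := by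
  by_contra hcon
  push Not at hcon
  have h1 := h q hq.two_le hcon
  have h2 : q ∣ q ^ n := dvd_pow_self q hn.ne'
  have h3 : 1 ≤ q ^ n := Nat.one_le_pow _ _ hq.pos
  have h4 : q ∣ 1 := by
    have := Nat.dvd_sub h2 h1
    rwa [Nat.sub_sub_self h3] at this
  exact hq.one_lt.ne' (Nat.dvd_one.mp h4)

/-- Large prime divisors common to all `a ^ n - 1`, `2 ≤ a ≤ n ^ ε`, are of the shape `j * d + 1`
with `d ∣ n` and `j` bounded. -/
theorem exceptional {ε : ℝ} (hε : 0 < ε) : ∃ J : ℕ, ∃ n₀ : ℕ, ∀ n : ℕ, n₀ ≤ n → ∀ q : ℕ,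
    q.Prime → (∀ a, 2 ≤ a → a ≤ ⌊(n : ℝ) ^ ε⌋₊ → q ∣ a ^ n - 1) →
      ∃ d j : ℕ, d ∣ n ∧ 1 ≤ j ∧ j ≤ J ∧ q = j * d + 1 := by
  obtain ⟨k₀, hk₀⟩ := exists_nat_gt (2 / ε)
  set k := k₀ + 2 with hk
  have hkε : 2 < k * ε := by
    have h1 : 2 / ε < k := by
      rw [hk]; push_cast; linarith
    rwa [div_lt_iff₀ hε] at h1
  obtain ⟨c, hc, B₀, hB₀⟩ := smooth_lower k (by omega)
  obtain ⟨J, hJ⟩ := exists_nat_gt (1 / c)
  have hJpos : 0 < J := by
    have h1 : (0 : ℝ) < J := lt_trans (by positivity) hJ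
    exact_mod_cast h1
  have hJc : 1 < c * J := by
    rw [div_lt_iff₀ hc] at hJ
    linarith
  -- conditions on `n`
  obtain ⟨n₁, hn₁⟩ : ∃ n₁ : ℕ, ∀ n : ℕ, n₁ ≤ n → ((B₀ : ℝ) + 2) ^ k ≤ (n : ℝ) ^ ε := by
    have h1 : Tendsto (fun n : ℕ => (n : ℝ) ^ ε) atTop atTop :=
      (tendsto_rpow_atTop hε).comp tendsto_natCast_atTop_atTop
    exact eventually_atTop.mp (h1.eventually_ge_atTop _)
  refine ⟨J, n₁ + J + (B₀ + 2) ^ k + 1, fun n hn q hq hdvd => ?_⟩
  have hn0 : 0 < n := by omega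
  have hnJ : J ≤ n := by omega
  have hnB : (B₀ + 2) ^ k ≤ n := by omega
  have hn1 : (1 : ℝ) ≤ n := by exact_mod_cast hn0
  set A := ⌊(n : ℝ) ^ ε⌋₊ with hA
  have hqA : A < q := lt_of_forall_dvd hq hn0 hdvd
  have hAbig : (B₀ + 2) ^ k ≤ A := by
    rw [hA]
    apply Nat.le_floor
    push_cast
    exact hn₁ n (by omega)
  set X := min (q - 1) (J * n) with hX
  have hJn : n ≤ J * n := Nat.le_mul_of_pos_left n hJpos
  have hXbig : (B₀ + 2) ^ k ≤ X := le_min (by omega) (by omega)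
  obtain ⟨B, hB1, hB2⟩ := exists_root k X (by omega)
  have hBB₀ : B₀ ≤ B := by
    by_contra hcon
    push Not at hcon
    have h1 : (B + 1) ^ k ≤ (B₀ + 2) ^ k := Nat.pow_le_pow_left (by omega) k
    omega
  have hBA : B ≤ A := by
    rw [hA]
    apply Nat.le_floor
    have h1 : (B : ℝ) ^ k ≤ ((n : ℝ) ^ ε) ^ k := by
      have h2 : (B : ℝ) ^ k ≤ (J : ℝ) * n := by
        have : B ^ k ≤ J * n := hB1.trans (min_le_right _ _)
        exact_mod_cast this
      have h3 : (J : ℝ) * n ≤ (n : ℝ) ^ (2 : ℝ) := by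
        have h4 : (J : ℝ) ≤ n := by exact_mod_cast hnJ
        rw [Real.rpow_two]
        nlinarith
      have h5 : (n : ℝ) ^ (2 : ℝ) ≤ (n : ℝ) ^ (ε * k) :=
        Real.rpow_le_rpow_of_exponent_le hn1 (by linarith)
      rw [← Real.rpow_natCast, ← Real.rpow_natCast, ← Real.rpow_mul (by positivity)]
      rw [Real.rpow_natCast]
      linarith
    exact le_of_pow_le_pow_left₀ (by omega : k ≠ 0) (by positivity) h1
  obtain ⟨S, hS, hScard⟩ := hB₀ B hBB₀ X hB1 hB2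
  have hprim : ∀ p : ℕ, p.Prime → p ≤ B → (p : ZMod q) ^ n = 1 := fun p hp hpB =>
    pow_eq_one_of_dvd hp.one_lt.le (hdvd p hp.two_le (hpB.trans hBA))
  have hcard : S.card ≤ Nat.gcd n (q - 1) := by
    refine card_le_gcd hq hn0 S fun m hm => ?_
    obtain ⟨h1, h2, h3⟩ := hS m hm
    exact ⟨h1, h2.trans (min_le_left _ _), smooth_pow_eq_one hprim m h1 h3⟩
  set d := Nat.gcd n (q - 1) with hd
  have hcard' : (S.card : ℝ) ≤ d := by exact_mod_cast hcard
  have hdn : d ≤ n := Nat.le_of_dvd hn0 (Nat.gcd_dvd_left _ _)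
  have hdn' : (d : ℝ) ≤ n := by exact_mod_cast hdn
  have hdpos : 0 < d := Nat.gcd_pos_of_pos_left _ hn0
  -- `q ≤ J n`
  have hlt : q - 1 < J * n := by
    by_contra hcon
    push Not at hcon
    have h1 : X = J * n := min_eq_right hcon
    rw [h1] at hScard
    push_cast at hScard
    have h2 : c * (J * n) ≤ n := by linarith
    have h3 : c * J * n ≤ n := by linarith
    nlinarith
  have hXq : X = q - 1 := min_eq_left hlt.le
  obtain ⟨j, hj⟩ := Nat.gcd_dvd_right n (q - 1)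
  rw [← hd] at hj
  have hq1 : q = j * d + 1 := by
    have := hq.one_lt
    rw [mul_comm]
    omega
  refine ⟨d, j, Nat.gcd_dvd_left _ _, ?_, ?_, hq1⟩
  · rcases Nat.eq_zero_or_pos j with h0 | h0
    · rw [h0] at hq1
      have := hq.one_lt
      omega
    · exact h0
  · rw [hXq, hj] at hScard
    push_cast at hScard
    have hd0 : (0 : ℝ) < d := by exact_mod_cast hdpos
    have h1 : c * (d * j) ≤ d := by linarith
    have h2 : c * j ≤ 1 := by
      by_contra hcon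
      push Not at hcon
      nlinarith
    have h3 : (j : ℝ) ≤ 1 / c := by
      rw [le_div_iff₀ hc]
      linarith
    have h4 : (j : ℝ) < J := lt_of_le_of_lt h3 hJ
    exact_mod_cast h4.le

/-- There are infinitely many primes `n` such that none of `n + 1, 2 n + 1, …, J n + 1` is
prime. -/
theorem exists_prime_gt_composite (J N : ℕ) : ∃ n : ℕ, N < n ∧ n.Prime ∧
    ∀ j : ℕ, 1 ≤ j → j ≤ J → ¬ (j * n + 1).Prime := by
  set ℓ : ℕ → ℕ := fun j => Nat.nth Nat.Prime (J + j) with hℓ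
  have hℓp : ∀ j, (ℓ j).Prime := fun j => Nat.prime_nth_prime _
  have hℓgt : ∀ j, J < ℓ j := fun j => by
    have := Nat.add_two_le_nth_prime (J + j)
    show J < Nat.nth Nat.Prime (J + j)
    omega
  have hℓinj : ∀ i j, ℓ i = ℓ j → i = j := fun i j h => by
    have := Nat.nth_injective Nat.infinite_setOfPred_prime h
    omega
  set t := Finset.Icc 1 J with ht
  have hcop : Set.Pairwise (t : Set ℕ) (Function.onFun Nat.Coprime ℓ) := by
    intro i _ j _ hij
    exact (Nat.coprime_primes (hℓp i) (hℓp j)).mpr fun h => hij (hℓinj i j h)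
  set a : ℕ → ℕ := fun j => (-((j : ZMod (ℓ j)))⁻¹ : ZMod (ℓ j)).val with ha
  have hakey : ∀ j ∈ t, ((j * a j + 1 : ℕ) : ZMod (ℓ j)) = 0 := by
    intro j hj
    rw [ht, Finset.mem_Icc] at hj
    have : Fact (ℓ j).Prime := ⟨hℓp j⟩
    push_cast
    rw [ha]
    simp only
    rw [ZMod.natCast_zmod_val]
    have hne : (j : ZMod (ℓ j)) ≠ 0 := by
      intro h0
      rw [ZMod.natCast_eq_zero_iff] at h0
      have := Nat.le_of_dvd (by omega) h0
      have := hℓgt j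
      omega
    rw [mul_neg, mul_inv_cancel₀ hne]
    ring
  obtain ⟨r, hr⟩ := Nat.chineseRemainderOfFinset a ℓ t (fun i _ => (hℓp i).ne_zero) hcop
  have hrkey : ∀ m : ℕ, m ≡ r [MOD ∏ j ∈ t, ℓ j] → ∀ j ∈ t, ℓ j ∣ j * m + 1 := by
    intro m hm j hj
    have h1 : m ≡ r [MOD ℓ j] := hm.of_dvd (Finset.dvd_prod_of_mem ℓ hj)
    have h2 : m ≡ a j [MOD ℓ j] := h1.trans (hr j hj)
    have h3 : (m : ZMod (ℓ j)) = (a j : ZMod (ℓ j)) := (ZMod.natCast_eq_natCast_iff _ _ _).mpr h2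
    rw [← ZMod.natCast_eq_zero_iff]
    have h4 := hakey j hj
    push_cast at h4 ⊢
    rw [h3]
    exact h4
  have hrcop : r.Coprime (∏ j ∈ t, ℓ j) := by
    apply Nat.Coprime.prod_right
    intro j hj
    rw [Nat.coprime_comm, (Nat.Prime.coprime_iff_not_dvd (hℓp j))]
    intro hd
    have h1 := hrkey r (Nat.ModEq.refl r) j hj
    have h2 : ℓ j ∣ 1 := (Nat.dvd_add_right (hd.mul_left j)).mp h1
    exact (hℓp j).one_lt.ne' (Nat.dvd_one.mp h2)
  have hMne : ∏ j ∈ t, ℓ j ≠ 0 := Finset.prod_ne_zero_iff.mpr fun j _ => (hℓp j).ne_zero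
  obtain ⟨n, hn, hnp, hnmod⟩ :=
    Nat.forall_exists_prime_gt_and_modEq (N + ∏ j ∈ t, ℓ j) hMne hrcop
  refine ⟨n, by omega, hnp, fun j hj1 hjJ hprime => ?_⟩
  have hjt : j ∈ t := by rw [ht, Finset.mem_Icc]; exact ⟨hj1, hjJ⟩
  have h1 := hrkey n hnmod j hjt
  have h2 : ℓ j ≤ ∏ j ∈ t, ℓ j :=
    Nat.le_of_dvd (Nat.pos_of_ne_zero hMne) (Finset.dvd_prod_of_mem ℓ hjt)
  have h3 := (Nat.prime_dvd_prime_iff_eq (hℓp j) hprime).mp h1
  have h4 : n ≤ j * n := Nat.le_mul_of_pos_left n (by omega)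
  omega

end Pool.Agent.MP9df71a
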