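import Pool.Agent.Lib.MP_9df71a_co.DenomReduce

/-!
Asymptotic forms of the denominator bound.
-/

open Finset N0a8789b9 Filter Topology

namespace Pool.Agent.MP9df71a.Denom

theorem eventually_big {θ ε : ℝ} (hθ3 : θ < 1 / 3) (hε : 0 < ε) :
    ∀ᶠ x : ℝ in atTop, 32 * (x ^ θ) ^ 3 / ε ^ 2 * Real.log (12 * (x ^ θ) ^ 2 / ε) < x := by
  have hr : 0 < 1 - 3 * θ := by linarith
  have h1 : Tendsto (fun x : ℝ => Real.log x / x ^ (1 - 3 * θ)) atTop (𝓝 0) :=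
    (isLittleO_log_rpow_atTop hr).tendsto_div_nhds_zero
  have h2 : Tendsto (fun x : ℝ => (x ^ (1 - 3 * θ))⁻¹) atTop (𝓝 0) :=
    (tendsto_rpow_atTop hr).inv_tendsto_atTop
  have h3 : Tendsto (fun x : ℝ => 32 / ε ^ 2 * (Real.log (12 / ε) * (x ^ (1 - 3 * θ))⁻¹ +
      2 * θ * (Real.log x / x ^ (1 - 3 * θ)))) atTop
      (𝓝 (32 / ε ^ 2 * (Real.log (12 / ε) * 0 + 2 * θ * 0))) :=
    ((h2.const_mul _).add (h1.const_mul _)).const_mul _
  rw [show 32 / ε ^ 2 * (Real.log (12 / ε) * 0 + 2 * θ * 0) = 0 by ring] at h3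
  filter_upwards [h3.eventually (gt_mem_nhds one_pos), eventually_gt_atTop (0 : ℝ)] with x hx hx0
  have hxr : 0 < x ^ (1 - 3 * θ) := Real.rpow_pos_of_pos hx0 _
  have hxt : 0 < x ^ θ := Real.rpow_pos_of_pos hx0 _
  have h4 : Real.log (12 * (x ^ θ) ^ 2 / ε) = Real.log (12 / ε) + 2 * θ * Real.log x := by
    rw [show 12 * (x ^ θ) ^ 2 / ε = 12 / ε * (x ^ θ) ^ 2 by ring,
      Real.log_mul (by positivity) (by positivity), Real.log_pow, Real.log_rpow hx0]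
    push_cast
    ring
  have h5 : x ^ (1 - 3 * θ) * (x ^ θ) ^ 3 = x := by
    rw [← Real.rpow_natCast (x ^ θ) 3, ← Real.rpow_mul hx0.le, ← Real.rpow_add hx0]
    push_cast
    rw [show 1 - 3 * θ + θ * 3 = 1 by ring, Real.rpow_one]
  rw [h4]
  have h6 : 32 / ε ^ 2 * (Real.log (12 / ε) * (x ^ (1 - 3 * θ))⁻¹ +
      2 * θ * (Real.log x / x ^ (1 - 3 * θ))) =
      (32 / ε ^ 2 * (Real.log (12 / ε) + 2 * θ * Real.log x)) / x ^ (1 - 3 * θ) := by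
    field_simp
  rw [h6, div_lt_one hxr] at hx
  calc 32 * (x ^ θ) ^ 3 / ε ^ 2 * (Real.log (12 / ε) + 2 * θ * Real.log x)
      = (32 / ε ^ 2 * (Real.log (12 / ε) + 2 * θ * Real.log x)) * (x ^ θ) ^ 3 := by ring
    _ < x ^ (1 - 3 * θ) * (x ^ θ) ^ 3 := by
        exact mul_lt_mul_of_pos_right hx (by positivity)
    _ = x := h5

/-- **Denominator bound, asymptotic form.** -/
theorem denom_asym {θ δ : ℝ} (hθ : 0 < θ) (hθ3 : θ < 1 / 3) (hδ : 0 < δ) (hδ1 : δ < 1) :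
    ∃ n₀ : ℕ, ∀ n : ℕ, n₀ ≤ n → ∀ (k : ℕ) (tiles : Fin k → Cube n), IsTiling tiles →
      ∀ (i : Fin k) (r : ℚ) (q : ℕ), (tiles i).side = r → q.Prime → q ∣ r.den →
        ((1 - δ) * min (q : ℝ) ((n : ℝ) ^ θ)) ^ n < k := by
  have hε : 0 < δ / 2 := by linarith
  have h1 := (tendsto_natCast_atTop_atTop (R := ℝ)).eventually (eventually_big hθ3 hε)
  obtain ⟨n₀, hn₀⟩ := eventually_atTop.1 h1
  refine ⟨n₀ + 1, fun n hn k tiles ht i r q hr hq hqr => ?_⟩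
  have h2 := hn₀ n (by omega)
  have hn1 : (1 : ℝ) ≤ n := by exact_mod_cast (by omega : 1 ≤ n)
  have hnt : 1 ≤ (n : ℝ) ^ θ := Real.one_le_rpow hn1 hθ.le
  have hq1 : (1 : ℝ) ≤ q := by exact_mod_cast hq.one_lt.le
  have hM1 : 1 ≤ min (q : ℝ) ((n : ℝ) ^ θ) := le_min hq1 hnt
  have hMn : min (q : ℝ) ((n : ℝ) ^ θ) ≤ (n : ℝ) ^ θ := min_le_right _ _
  have h3 := denom_bound (M := min (q : ℝ) ((n : ℝ) ^ θ)) (ε := δ / 2) ht hq hr hqr hM1
    (min_le_left _ _) hε (by linarith) (by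
      refine lt_of_le_of_lt ?_ h2
      have h4 : (1 : ℝ) ≤ 12 * (min (q : ℝ) ((n : ℝ) ^ θ)) ^ 2 / (δ / 2) := by
        rw [le_div_iff₀ hε]
        nlinarith
      apply mul_le_mul
      · gcongr
      · apply Real.log_le_log (by linarith)
        gcongr
      · exact Real.log_nonneg h4
      · positivity)
  have h4 : (1 - 2 * (δ / 2)) = 1 - δ := by ring
  rwa [h4] at h3

/-- Tilings with few cubes: the primes in the denominators are small. -/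
theorem denom_smooth {θ δ : ℝ} (hθ : 0 < θ) (hθ3 : θ < 1 / 3) (hδ : 0 < δ) :
    ∃ n₀ : ℕ, ∀ n : ℕ, n₀ ≤ n → ∀ (k : ℕ) (tiles : Fin k → Cube n), IsTiling tiles →
      (k : ℝ) ≤ (n : ℝ) ^ (θ * n) →
      ∀ (i : Fin k) (r : ℚ) (q : ℕ), (tiles i).side = r → q.Prime → q ∣ r.den →
        (q : ℝ) ≤ (1 + δ) * (n : ℝ) ^ θ := by
  obtain ⟨θ', h1, h2⟩ := exists_between hθ3
  set δ' : ℝ := δ / (1 + δ) with hδ'
  have hδ'0 : 0 < δ' := by positivity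
  have hδ'1 : δ' < 1 := by rw [hδ', div_lt_one (by positivity)]; linarith
  have hδ'2 : (1 - δ') * (1 + δ) = 1 := by rw [hδ']; field_simp; ring
  obtain ⟨n₀, hn₀⟩ := denom_asym (hθ.trans h1) h2 hδ'0 hδ'1
  have h3 : Tendsto (fun x : ℝ => x ^ (θ' - θ)) atTop atTop := tendsto_rpow_atTop (by linarith)
  obtain ⟨n₁, hn₁⟩ := eventually_atTop.1
    ((tendsto_natCast_atTop_atTop (R := ℝ)).eventually (h3.eventually_ge_atTop (1 + δ)))
  refine ⟨n₀ + n₁ + 1, fun n hn k tiles ht hk i r q hr hq hqr => ?_⟩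
  by_contra hcon
  push Not at hcon
  have hn0 : (0 : ℝ) < n := by exact_mod_cast (by omega : 0 < n)
  have h4 := hn₀ n (by omega) k tiles ht i r q hr hq hqr
  have h5 : (n : ℝ) ^ θ ≤ (1 - δ') * min (q : ℝ) ((n : ℝ) ^ θ') := by
    have h6 : (1 + δ) * (n : ℝ) ^ θ ≤ min (q : ℝ) ((n : ℝ) ^ θ') := by
      apply le_min hcon.le
      have h7 := hn₁ n (by omega)
      calc (1 + δ) * (n : ℝ) ^ θ ≤ (n : ℝ) ^ (θ' - θ) * (n : ℝ) ^ θ := by gcongr
        _ = (n : ℝ) ^ θ' := by rw [← Real.rpow_add hn0]; congr 1; ring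
    calc (n : ℝ) ^ θ = (1 - δ') * ((1 + δ) * (n : ℝ) ^ θ) := by rw [← mul_assoc, hδ'2, one_mul]
      _ ≤ _ := by
        apply mul_le_mul_of_nonneg_left h6
        linarith
  have h6 : (n : ℝ) ^ (θ * n) < k := by
    calc (n : ℝ) ^ (θ * n) = ((n : ℝ) ^ θ) ^ n := by
          rw [Real.rpow_mul hn0.le, Real.rpow_natCast]
      _ ≤ _ := by
          apply pow_le_pow_left₀ (by positivity) h5
      _ < k := h4
  linarith

/-- The case of a prime `p = n + 1`. -/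
theorem prime_case {θ : ℝ} (hθ : 0 < θ) (hθ3 : θ < 1 / 3) :
    ∃ n₀ : ℕ, ∀ n : ℕ, n₀ ≤ n → (n + 1).Prime →
      ∀ (k : ℕ) (tiles : Fin k → Cube n), IsTiling tiles → (k : ℝ) ≤ (n : ℝ) ^ (θ * n) →
        (∀ i, ∃ r : ℚ, (tiles i).side = r ∧ ¬ (n + 1) ∣ r.den) ∧
        (¬ k ≡ 1 [MOD n + 1] → ∃ i, ∃ r : ℚ, (tiles i).side = r ∧ ((n + 1 : ℕ) : ℤ) ∣ r.num) := by
  obtain ⟨n₀, hn₀⟩ := denom_smooth hθ hθ3 one_pos
  have h3 : Tendsto (fun x : ℝ => x ^ (1 - θ)) atTop atTop := tendsto_rpow_atTop (by linarith)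
  obtain ⟨n₁, hn₁⟩ := eventually_atTop.1
    ((tendsto_natCast_atTop_atTop (R := ℝ)).eventually (h3.eventually_ge_atTop 2))
  refine ⟨n₀ + n₁ + 2, fun n hn hp k tiles ht hk => ?_⟩
  have hn0 : (0 : ℝ) < n := by exact_mod_cast (by omega : 0 < n)
  have hden : ∀ i (r : ℚ), (tiles i).side = r → ¬ (n + 1) ∣ r.den := by
    intro i r hr hdiv
    have h4 := hn₀ n (by omega) k tiles ht hk i r (n + 1) hr hp hdiv
    have h5 : (1 + 1) * (n : ℝ) ^ θ ≤ n := by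
      calc (1 + 1) * (n : ℝ) ^ θ ≤ (n : ℝ) ^ (1 - θ) * (n : ℝ) ^ θ := by
            have := hn₁ n (by omega)
            have h6 : (1 + 1 : ℝ) ≤ (n : ℝ) ^ (1 - θ) := by linarith
            gcongr
        _ = n := by rw [← Real.rpow_add hn0]; norm_num
    push_cast at h4
    linarith
  refine ⟨fun i => ?_, fun hk1 => ?_⟩
  · obtain ⟨r, hr⟩ := side_rational (by omega) ht i
    exact ⟨r, hr, hden i r hr⟩
  · by_contra hcon
    push Not at hcon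
    exact hk1 (fermat_count (by omega) ht hp hden fun i r hr => hcon i r hr)

end Pool.Agent.MP9df71a.Denom
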