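import Pool.Agent.Lib.MP_9df71a_co.DenomTest

/-!
Averaging the sawtooth test over all dilations.
-/

open Finset

namespace Pool.Agent.MP9df71a.Denom

namespace IT

variable {n N : ℕ} {ι : Type} (t : IT n N ι) [Fintype ι] [DecidableEq ι]

/-- Number of directions in which the left end of the tile is divisible by `q`. -/
def zeros (q : ℕ) (i : ι) : ℕ := (univ.filter fun j => q ∣ t.a i j).card

variable {q : ℕ} [Fact q.Prime]

/-- The number of dilations for which the label of the side is small. -/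
theorem card_dil {M : ℝ} (hM : 1 ≤ M) (hMq : M ≤ q) {f : ZMod q} (hf : f ≠ 0) :
    (q : ℝ) ≤ 2 * M * ((((univ : Finset (ZMod q)).erase 0).filter
      (fun l => (((l * f).val : ℝ) / q ≤ 1 / M))).card : ℝ) := by
  have hq2 : (2 : ℝ) ≤ q := by exact_mod_cast (Fact.out : q.Prime).two_le
  have hM0 : 0 < M := by linarith
  have hq0 : (0 : ℝ) < q := by linarith
  set m : ℕ := ⌈(q : ℝ) / (2 * M)⌉₊ with hm
  have h1 : (q : ℝ) / (2 * M) ≤ m := Nat.le_ceil _
  have h2 : (m : ℝ) < (q : ℝ) / (2 * M) + 1 := Nat.ceil_lt_add_one (by positivity)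
  have h3 : (m : ℝ) < q := by
    have : (q : ℝ) / (2 * M) ≤ q / 2 := by
      apply div_le_div_of_nonneg_left hq0.le (by norm_num)
      linarith
    linarith
  have h4 : (m : ℝ) ≤ q / M := by
    have h5 : (1 : ℝ) ≤ q / M := by rwa [le_div_iff₀ hM0, one_mul]
    have h6 : (q : ℝ) / (2 * M) = q / M / 2 := by field_simp
    rcases le_or_gt 2 ((q : ℝ) / M) with h | h
    · linarith
    · have : m ≤ 1 := by
        rw [hm, Nat.ceil_le]
        push_cast
        linarith
      have : (m : ℝ) ≤ 1 := by exact_mod_cast this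
      linarith
  have hmq : m < q := by exact_mod_cast h3
  have hinj : Set.InjOn (fun w : ℕ => (w : ZMod q) * f⁻¹) (Icc 1 m : Finset ℕ) := by
    intro w hw w' hw' h
    simp only at h
    have h7 := mul_right_cancel₀ (inv_ne_zero hf) h
    rw [Finset.coe_Icc, Set.mem_Icc] at hw hw'
    have h8 := congrArg ZMod.val h7
    rwa [ZMod.val_natCast_of_lt (by omega), ZMod.val_natCast_of_lt (by omega)] at h8
  have hcard : m ≤ (((univ : Finset (ZMod q)).erase 0).filter
      (fun l => (((l * f).val : ℝ) / q ≤ 1 / M))).card := by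
    calc m = (Icc 1 m).card := by simp
      _ = ((Icc 1 m).image (fun w : ℕ => (w : ZMod q) * f⁻¹)).card :=
          (Finset.card_image_of_injOn hinj).symm
      _ ≤ _ := by
          apply Finset.card_le_card
          intro l hl
          rw [mem_image] at hl
          obtain ⟨w, hw, rfl⟩ := hl
          rw [mem_Icc] at hw
          have hval : ((w : ZMod q)).val = w := ZMod.val_natCast_of_lt (by omega)
          have hw0 : (w : ZMod q) ≠ 0 := by
            intro h0
            rw [h0, ZMod.val_zero] at hval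
            omega
          rw [mem_filter, mem_erase]
          refine ⟨⟨mul_ne_zero hw0 (inv_ne_zero hf), mem_univ _⟩, ?_⟩
          rw [mul_assoc, inv_mul_cancel₀ hf, mul_one, hval, div_le_div_iff₀ hq0 hM0]
          have : (w : ℝ) ≤ m := by exact_mod_cast hw.2
          rw [le_div_iff₀ hM0] at h4
          nlinarith
  have h9 : (m : ℝ) ≤ ((((univ : Finset (ZMod q)).erase 0).filter
      (fun l => (((l * f).val : ℝ) / q ≤ 1 / M))).card : ℝ) := by exact_mod_cast hcard
  rw [div_le_iff₀ (by positivity)] at h1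
  nlinarith

omit [DecidableEq ι] in
theorem sum_dl_ge {l : ZMod q} (hl : l ≠ 0) {i : ι} (hi : i ∈ t.act q) :
    (t.zeros q i : ℝ) - n * (((l * (t.s i : ZMod q)).val : ℝ) / q) ≤
      ∑ j, t.dl (saw l) i j := by
  have hf : ((t.s i : ℕ) : ZMod q) ≠ 0 := by
    rw [Ne, ZMod.natCast_eq_zero_iff]
    exact t.mem_act.1 hi
  have h1 : ∀ j, ((if q ∣ t.a i j then (1 : ℝ) else 0) -
      ((l * (t.s i : ZMod q)).val : ℝ) / q) ≤ t.dl (saw l) i j := by
    intro j
    have h2 := saw_ge (u := ((t.a i j : ℕ) : ZMod q)) hl hf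
    unfold dl
    push_cast
    by_cases hd : q ∣ t.a i j
    · have h0 : ((t.a i j : ℕ) : ZMod q) = 0 := (ZMod.natCast_eq_zero_iff _ _).2 hd
      rw [if_pos h0] at h2
      rw [if_pos hd]
      exact h2
    · have h0 : ((t.a i j : ℕ) : ZMod q) ≠ 0 := fun h => hd ((ZMod.natCast_eq_zero_iff _ _).1 h)
      rw [if_neg h0] at h2
      rw [if_neg hd]
      exact h2
  have h3 := Finset.sum_le_sum fun j (_ : j ∈ univ) => h1 j
  rw [Finset.sum_sub_distrib] at h3
  simp only [Finset.sum_const, card_univ, Fintype.card_fin, nsmul_eq_mul] at h3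
  rw [Finset.sum_boole] at h3
  exact h3

theorem bad_vol {C ε η v M : ℝ} (hC : 1 ≤ C) (hk : (Fintype.card ι : ℝ) ≤ C ^ n)
    (hε : 0 < ε) (hε2 : ε ≤ 1 / 2) (hη : 0 < η) (hη2 : η ≤ 2 * ε) (hv : 0 < v)
    (hV : v ^ n = t.vol q) (hs : ∀ i ∈ t.act q, (t.s i : ℝ) ≤ v)
    (hqN : q ∣ N) (hM : 1 ≤ M) (hMq : M ≤ q) :
    (∑ i ∈ (t.act q).filter
        (fun i => (1 - ε) * v / C ≤ t.s i ∧ (1 / M + η) * n ≤ t.zeros q i),
      (t.s i : ℝ) ^ n) * Real.exp (η ^ 2 * n / (8 * C)) ≤ 4 * M * t.vol q := by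
  set e : ℝ := Real.exp (η ^ 2 * n / (8 * C)) with he
  have he0 : 0 < e := Real.exp_pos _
  set B := (t.act q).filter
        (fun i => (1 - ε) * v / C ≤ t.s i ∧ (1 / M + η) * n ≤ t.zeros q i) with hB
  set D : ZMod q → Finset ι := fun l => (t.act q).filter
    (fun i => (1 - ε) * v / C ≤ t.s i ∧ η * n ≤ ∑ j, t.dl (saw l) i j) with hD
  set U : Finset (ZMod q) := univ.erase 0 with hU
  have h1 : ∀ l ∈ U, (∑ i ∈ D l, (t.s i : ℝ) ^ n) * e ≤ 2 * t.vol q := by
    intro l _
    exact t.test_bound hC hk hε hε2 hη hη2 hv hV hs hqN (saw l) (fun u w => abs_saw_sub l u w)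
  have hV0 : 0 ≤ t.vol q := by rw [← hV]; positivity
  have hUc : (U.card : ℝ) ≤ q := by
    have : U.card ≤ q := by
      have := Finset.card_le_univ U
      rwa [ZMod.card] at this
    exact_mod_cast this
  have h2 : ∑ l ∈ U, (∑ i ∈ D l, (t.s i : ℝ) ^ n) * e ≤ q * (2 * t.vol q) := by
    calc ∑ l ∈ U, (∑ i ∈ D l, (t.s i : ℝ) ^ n) * e ≤ ∑ _l ∈ U, 2 * t.vol q :=
          Finset.sum_le_sum h1
      _ = U.card * (2 * t.vol q) := by rw [Finset.sum_const, nsmul_eq_mul]
      _ ≤ q * (2 * t.vol q) := mul_le_mul_of_nonneg_right hUc (by positivity)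
  have h3 : ∀ i ∈ B, (q : ℝ) * (t.s i : ℝ) ^ n ≤
      2 * M * ∑ l ∈ U, if i ∈ D l then (t.s i : ℝ) ^ n else 0 := by
    intro i hi
    rw [hB, mem_filter] at hi
    obtain ⟨hia, hiσ, hiz⟩ := hi
    have hf : ((t.s i : ℕ) : ZMod q) ≠ 0 := by
      rw [Ne, ZMod.natCast_eq_zero_iff]
      exact t.mem_act.1 hia
    have h4 := card_dil hM hMq hf
    have h5 : ((U.filter (fun l => (((l * (t.s i : ZMod q)).val : ℝ) / q ≤ 1 / M))).card : ℝ) *
        (t.s i : ℝ) ^ n ≤ ∑ l ∈ U, if i ∈ D l then (t.s i : ℝ) ^ n else 0 := by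
      rw [← nsmul_eq_mul, ← Finset.sum_const, Finset.sum_filter]
      refine Finset.sum_le_sum fun l hl => ?_
      by_cases hc : (((l * (t.s i : ZMod q)).val : ℝ) / q ≤ 1 / M)
      · have hl0 : l ≠ 0 := by
          rw [hU, mem_erase] at hl
          exact hl.1
        have h6 : i ∈ D l := by
          rw [hD, mem_filter]
          refine ⟨hia, hiσ, ?_⟩
          have h7 := t.sum_dl_ge hl0 hia
          have h8 : (n : ℝ) * (((l * (t.s i : ZMod q)).val : ℝ) / q) ≤ n * (1 / M) :=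
            mul_le_mul_of_nonneg_left hc (by positivity)
          linarith
        rw [if_pos hc, if_pos h6]
      · simp only [hc, if_false]
        split_ifs <;> positivity
    have h9 : (0 : ℝ) ≤ (t.s i : ℝ) ^ n := by positivity
    calc (q : ℝ) * (t.s i : ℝ) ^ n ≤ (2 * M *
          ((U.filter (fun l => (((l * (t.s i : ZMod q)).val : ℝ) / q ≤ 1 / M))).card : ℝ)) *
            (t.s i : ℝ) ^ n := mul_le_mul_of_nonneg_right h4 h9
      _ = 2 * M * (((U.filter (fun l => (((l * (t.s i : ZMod q)).val : ℝ) / q ≤ 1 / M))).card : ℝ) *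
            (t.s i : ℝ) ^ n) := by ring
      _ ≤ _ := mul_le_mul_of_nonneg_left h5 (by linarith)
  have hq0 : (0 : ℝ) < q := by exact_mod_cast (Fact.out : q.Prime).pos
  have h10 : (q : ℝ) * ∑ i ∈ B, (t.s i : ℝ) ^ n ≤ 2 * M * ∑ l ∈ U, ∑ i ∈ D l, (t.s i : ℝ) ^ n := by
    calc (q : ℝ) * ∑ i ∈ B, (t.s i : ℝ) ^ n = ∑ i ∈ B, (q : ℝ) * (t.s i : ℝ) ^ n :=
          Finset.mul_sum _ _ _
      _ ≤ ∑ i ∈ B, 2 * M * ∑ l ∈ U, if i ∈ D l then (t.s i : ℝ) ^ n else 0 :=
          Finset.sum_le_sum h3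
      _ ≤ ∑ i, 2 * M * ∑ l ∈ U, if i ∈ D l then (t.s i : ℝ) ^ n else 0 := by
          refine Finset.sum_le_sum_of_subset_of_nonneg (Finset.subset_univ _) fun i _ _ => ?_
          refine mul_nonneg (by linarith) (Finset.sum_nonneg fun l _ => ?_)
          split_ifs <;> positivity
      _ = 2 * M * ∑ l ∈ U, ∑ i ∈ D l, (t.s i : ℝ) ^ n := by
          rw [← Finset.mul_sum, Finset.sum_comm]
          congr 1
          refine Finset.sum_congr rfl fun l _ => ?_
          rw [← Finset.sum_filter]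
          congr 1
          ext i
          simp
  have h11 : (q : ℝ) * ((∑ i ∈ B, (t.s i : ℝ) ^ n) * e) ≤ q * (4 * M * t.vol q) := by
    calc (q : ℝ) * ((∑ i ∈ B, (t.s i : ℝ) ^ n) * e) = (q * ∑ i ∈ B, (t.s i : ℝ) ^ n) * e := by ring
      _ ≤ (2 * M * ∑ l ∈ U, ∑ i ∈ D l, (t.s i : ℝ) ^ n) * e :=
          mul_le_mul_of_nonneg_right h10 he0.le
      _ = 2 * M * ∑ l ∈ U, (∑ i ∈ D l, (t.s i : ℝ) ^ n) * e := by
          rw [← Finset.sum_mul]
          ring
      _ ≤ 2 * M * (q * (2 * t.vol q)) := mul_le_mul_of_nonneg_left h2 (by linarith)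
      _ = q * (4 * M * t.vol q) := by ring
  exact le_of_mul_le_mul_left h11 hq0

end IT

end Pool.Agent.MP9df71a.Denom
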