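import Mathlib

/-!
Integer model of a cube tiling (all coordinates are natural numbers), the multilinear wall identity
and the fact that left ends are sums of sides.
-/

open Finset

namespace Pool.Agent.MP9df71a.Denom

/-- A partition of the grid cube `{0, …, N - 1}^n` into cubes with corner `a i` and side `s i`. -/
structure IT (n N : ℕ) (ι : Type) where
  a : ι → Fin n → ℕ
  s : ι → ℕ
  pos : ∀ i, 0 < s i
  le : ∀ i j, a i j + s i ≤ N
  part : ∀ x : Fin n → ℕ, (∀ j, x j < N) → ∃! i, ∀ j, a i j ≤ x j ∧ x j < a i j + s i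

namespace IT

variable {n N : ℕ} {ι : Type} (t : IT n N ι)

/-- The grid cells of a tile. -/
def cells (i : ι) : Finset (Fin n → ℕ) :=
  Fintype.piFinset fun j => Ico (t.a i j) (t.a i j + t.s i)

theorem mem_cells {i : ι} {x : Fin n → ℕ} :
    x ∈ t.cells i ↔ ∀ j, t.a i j ≤ x j ∧ x j < t.a i j + t.s i := by
  simp [cells, Fintype.mem_piFinset]

theorem card_cells (i : ι) : (t.cells i).card = t.s i ^ n := by
  simp [cells, Fintype.card_piFinset]

theorem lt_of_mem {i : ι} {x : Fin n → ℕ} (hx : x ∈ t.cells i) (j : Fin n) : x j < N :=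
  lt_of_lt_of_le ((t.mem_cells.1 hx j).2) (t.le i j)

theorem eq_of_mem {i i' : ι} {x : Fin n → ℕ} (hx : x ∈ t.cells i) (hx' : x ∈ t.cells i') :
    i = i' :=
  (t.part x (t.lt_of_mem hx)).unique (t.mem_cells.1 hx) (t.mem_cells.1 hx')

theorem exists_mem {x : Fin n → ℕ} (hx : ∀ j, x j < N) : ∃ i, x ∈ t.cells i := by
  obtain ⟨i, hi, -⟩ := t.part x hx
  exact ⟨i, t.mem_cells.2 hi⟩

theorem disj : ((Set.univ : Set ι).PairwiseDisjoint t.cells) := by
  intro i _ i' _ hne
  rw [Function.onFun, Finset.disjoint_left]
  intro x hx hx'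
  exact hne (t.eq_of_mem hx hx')

variable [Fintype ι] [DecidableEq ι]

theorem sum_cells (f : (Fin n → ℕ) → ℝ) :
    ∑ x ∈ Fintype.piFinset (fun _ : Fin n => range N), f x = ∑ i, ∑ x ∈ t.cells i, f x := by
  rw [← Finset.sum_biUnion (fun i _ i' _ h => t.disj (Set.mem_univ i) (Set.mem_univ i') h)]
  congr 1
  ext x
  simp only [Fintype.mem_piFinset, mem_range, mem_biUnion, mem_univ, true_and]
  exact ⟨fun h => t.exists_mem h, fun ⟨i, hi⟩ j => t.lt_of_mem hi j⟩

/-- Wall identity: moving the walls of a tiling by an arbitrary function. -/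
theorem identity (h : ℕ → ℝ) :
    ∑ i, ∏ j, (h (t.a i j + t.s i) - h (t.a i j)) = (h N - h 0) ^ n := by
  have h1 : ∀ b c : ℕ, ∑ y ∈ Ico b (b + c), (h (y + 1) - h y) = h (b + c) - h b := by
    intro b c
    rw [Finset.sum_Ico_eq_sum_range, show b + c - b = c by omega]
    have := Finset.sum_range_sub (fun y => h (b + y)) c
    simpa [add_assoc] using this
  calc ∑ i, ∏ j, (h (t.a i j + t.s i) - h (t.a i j))
      = ∑ i, ∏ j, ∑ y ∈ Ico (t.a i j) (t.a i j + t.s i), (h (y + 1) - h y) := by
        simp only [h1]
    _ = ∑ i, ∑ x ∈ t.cells i, ∏ j, (h (x j + 1) - h (x j)) := by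
        refine Finset.sum_congr rfl fun i _ => ?_
        rw [Finset.prod_univ_sum]
        rfl
    _ = ∑ x ∈ Fintype.piFinset (fun _ : Fin n => range N), ∏ j, (h (x j + 1) - h (x j)) :=
        (t.sum_cells _).symm
    _ = ∏ _j : Fin n, ∑ y ∈ range N, (h (y + 1) - h y) := by
        rw [Finset.prod_univ_sum]
    _ = (h N - h 0) ^ n := by
        rw [Finset.sum_range_sub]
        simp

omit [Fintype ι] [DecidableEq ι] in
/-- The tile to the left of a tile: its right end is the left end of the given tile. -/
theorem left_tile {i : ι} {x : Fin n → ℕ} (hx : x ∈ t.cells i) (j : Fin n)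
    (hj : x j = t.a i j) (h0 : 0 < x j) {i' : ι}
    (hx' : Function.update x j (x j - 1) ∈ t.cells i') :
    t.a i' j + t.s i' = x j := by
  have h1 := t.mem_cells.1 hx' j
  rw [Function.update_self] at h1
  by_contra hne
  have h2 : x ∈ t.cells i' := by
    rw [t.mem_cells]
    intro j'
    by_cases hjj : j' = j
    · subst hjj
      omega
    · have := t.mem_cells.1 hx' j'
      rwa [Function.update_of_ne hjj] at this
  have h3 := t.eq_of_mem hx h2
  subst h3
  omega

omit [Fintype ι] [DecidableEq ι] in
/-- If a number divides all sides, it divides all coordinates. -/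
theorem dvd_a {d : ℕ} (hd : ∀ i, d ∣ t.s i) (j : Fin n) :
    ∀ (m : ℕ) (i : ι) (x : Fin n → ℕ), x ∈ t.cells i → t.a i j = m → d ∣ t.a i j := by
  intro m
  induction m using Nat.strong_induction_on with
  | _ m ih =>
    intro i x hx hm
    rcases Nat.eq_zero_or_pos (t.a i j) with h0 | h0
    · rw [h0]; exact dvd_zero _
    · set y := Function.update x j (t.a i j) with hy
      have hyj : y j = t.a i j := by rw [hy, Function.update_self]
      have hyi : y ∈ t.cells i := by
        rw [t.mem_cells]
        intro j'
        by_cases hjj : j' = j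
        · subst hjj
          rw [hyj]
          have := t.pos i
          omega
        · rw [hy, Function.update_of_ne hjj]
          exact t.mem_cells.1 hx j'
      have hz : ∀ j', Function.update y j (y j - 1) j' < N := by
        intro j'
        by_cases hjj : j' = j
        · subst hjj
          rw [Function.update_self]
          have := t.lt_of_mem hyi j'
          omega
        · rw [Function.update_of_ne hjj]
          exact t.lt_of_mem hyi j'
      obtain ⟨i', hi'⟩ := t.exists_mem hz
      have h1 := t.left_tile hyi j hyj (by omega) hi'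
      have h2 : t.a i' j < m := by
        have := t.pos i'
        omega
      have h3 := ih _ h2 i' _ hi' rfl
      rw [← hyj, ← h1]
      exact dvd_add h3 (hd i')

end IT

end Pool.Agent.MP9df71a.Denom
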