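import Pool.Agent.Lib.MP_9df71a_co.DenomFirst

/-!
The denominator theorem in the integer model.
-/

open Finset

namespace Pool.Agent.MP9df71a.Denom

/-- The final numerical contradiction. -/
theorem final_num {M ε C x : ℝ} (hM : 1 ≤ M) (hε : 0 < ε) (hε2 : ε < 1 / 2) (hC0 : 0 < C)
    (hCdef : C = (1 - 2 * ε) * M)
    (h3 : (1 - ε) / C ≤ 1 / M + ε / (2 * M) +
      4 * M * Real.exp (-(ε ^ 2 * x / (32 * M ^ 3))) +
      2 * Real.exp (-(ε ^ 2 * x / (32 * M ^ 3))))
    (hbig : 32 * M ^ 3 / ε ^ 2 * Real.log (12 * M ^ 2 / ε) < x) : False := by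
  have hM0 : 0 < M := by linarith
  set X : ℝ := Real.exp (-(ε ^ 2 * x / (32 * M ^ 3))) with hX
  have hX0 : 0 < X := Real.exp_pos _
  have h4 : (1 + ε) / M ≤ (1 - ε) / C := by
    rw [div_le_div_iff₀ hM0 hC0, hCdef]
    nlinarith [mul_pos hM0 (mul_pos hε hε)]
  have h5 : ε / (2 * M) ≤ 6 * M * X := by
    have h6 : (1 + ε) / M = 1 / M + 2 * (ε / (2 * M)) := by
      field_simp
    have h7 : 2 * X ≤ 2 * M * X := by nlinarith
    linarith
  have h6 : ε / (12 * M ^ 2) ≤ X := by
    rw [div_le_iff₀ (by positivity)] at h5 ⊢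
    nlinarith
  have h7 : Real.log (12 * M ^ 2 / ε) < ε ^ 2 * x / (32 * M ^ 3) := by
    rw [lt_div_iff₀ (by positivity)]
    rw [div_mul_eq_mul_div, div_lt_iff₀ (by positivity)] at hbig
    linarith
  have h8 : X < ε / (12 * M ^ 2) := by
    have h9 : Real.log (ε / (12 * M ^ 2)) = -Real.log (12 * M ^ 2 / ε) := by
      rw [← Real.log_inv, inv_div]
    rw [hX, ← Real.lt_log_iff_exp_lt (by positivity), h9]
    linarith
  linarith

namespace IT

variable {n N : ℕ} {ι : Type} (t : IT n N ι) [Fintype ι] [DecidableEq ι]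

theorem int_main {q : ℕ} [Fact q.Prime] (hn : 0 < n) (hqN : q ∣ N) (hact : (t.act q).Nonempty)
    {M ε : ℝ} (hM : 1 ≤ M) (hMq : M ≤ q) (hε : 0 < ε) (hε2 : ε < 1 / 2)
    (hbig : 32 * M ^ 3 / ε ^ 2 * Real.log (12 * M ^ 2 / ε) < n) :
    ((1 - 2 * ε) * M) ^ n < Fintype.card ι := by
  by_contra hcon
  push Not at hcon
  have hM0 : 0 < M := by linarith
  have hn0 : (0 : ℝ) < n := by exact_mod_cast hn
  set C : ℝ := (1 - 2 * ε) * M with hCdef
  obtain ⟨i0, hi0⟩ := hact
  have hcard1 : (1 : ℝ) ≤ Fintype.card ι := by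
    have : 0 < Fintype.card ι := Fintype.card_pos_iff.2 ⟨i0⟩
    exact_mod_cast this
  have hC00 : 0 ≤ C := mul_nonneg (by linarith) hM0.le
  have hC : 1 ≤ C := by
    by_contra h
    push Not at h
    have := pow_lt_one₀ hC00 h hn.ne'
    linarith
  have hC0 : 0 < C := by linarith
  have hCM : C ≤ M := by
    rw [hCdef]
    exact mul_le_of_le_one_left hM0.le (by linarith)
  -- volume
  have hsle : ∀ i ∈ t.act q, (t.s i : ℝ) ^ n ≤ t.vol q := by
    intro i hi
    exact Finset.single_le_sum (f := fun i => (t.s i : ℝ) ^ n) (fun _ _ => by positivity) hi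
  have hV1 : 1 ≤ t.vol q := by
    refine le_trans ?_ (hsle i0 hi0)
    have : (1 : ℝ) ≤ t.s i0 := by exact_mod_cast t.pos i0
    exact one_le_pow₀ this
  have hV0 : 0 < t.vol q := by linarith
  set v : ℝ := (t.vol q) ^ (1 / (n : ℝ)) with hvdef
  have hv : 0 < v := Real.rpow_pos_of_pos hV0 _
  have hV : v ^ n = t.vol q := by
    rw [hvdef, ← Real.rpow_natCast, ← Real.rpow_mul hV0.le, one_div,
      inv_mul_cancel₀ hn0.ne', Real.rpow_one]
  have hs : ∀ i ∈ t.act q, (t.s i : ℝ) ≤ v := by
    intro i hi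
    have h := hsle i hi
    rw [← hV] at h
    exact le_of_pow_le_pow_left₀ hn.ne' hv.le h
  set σ : ℝ := (1 - ε) * v / C with hσ
  have hσ0 : 0 < σ := div_pos (mul_pos (by linarith) hv) hC0
  set η : ℝ := ε / (2 * M) with hη
  have hη0 : 0 < η := by positivity
  have hηε : η ≤ 2 * ε := by
    rw [hη, div_le_iff₀ (by positivity)]
    nlinarith
  set X : ℝ := Real.exp (-(ε ^ 2 * n / (32 * M ^ 3))) with hX
  have hX0 : 0 < X := Real.exp_pos _
  -- the small tiles
  have hkσ : (Fintype.card ι : ℝ) * σ ^ n ≤ X * t.vol q := by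
    calc (Fintype.card ι : ℝ) * σ ^ n ≤ C ^ n * σ ^ n :=
          mul_le_mul_of_nonneg_right hcon (by positivity)
      _ = ((1 - ε) * v) ^ n := by
          rw [← mul_pow, hσ]
          congr 1
          field_simp
      _ = (1 - ε) ^ n * t.vol q := by rw [mul_pow, hV]
      _ ≤ X * t.vol q := by
          refine mul_le_mul_of_nonneg_right ?_ hV0.le
          have h1 : 1 - ε ≤ Real.exp (-ε) := by
            have := Real.add_one_le_exp (-ε)
            linarith
          calc (1 - ε) ^ n ≤ (Real.exp (-ε)) ^ n := pow_le_pow_left₀ (by linarith) h1 n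
            _ = Real.exp (-(ε * n)) := by
                rw [← Real.exp_nat_mul]
                congr 1
                ring
            _ ≤ X := by
                rw [hX]
                apply Real.exp_le_exp.2
                apply neg_le_neg
                rw [div_le_iff₀ (by positivity)]
                have h3 : ε ≤ 32 * M ^ 3 := by
                  have : 1 ≤ M ^ 3 := one_le_pow₀ hM
                  linarith
                have h4 : 0 ≤ ε * n := by positivity
                nlinarith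
  -- the bad tiles
  set B := (t.act q).filter
        (fun i => (1 - ε) * v / C ≤ t.s i ∧ (1 / M + η) * n ≤ t.zeros q i) with hB
  have hBV : ∑ i ∈ B, (t.s i : ℝ) ^ n ≤ 4 * M * X * t.vol q := by
    have h1 := t.bad_vol hC hcon hε hε2.le hη0 hηε hv hV hs hqN hM hMq
    rw [← hB] at h1
    have h2 : Real.exp (ε ^ 2 * n / (32 * M ^ 3)) ≤ Real.exp (η ^ 2 * n / (8 * C)) := by
      apply Real.exp_le_exp.2
      rw [hη, div_pow, div_mul_eq_mul_div, div_div]
      apply div_le_div_of_nonneg_left (by positivity) (by positivity)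
      have : 0 < M ^ 2 := by positivity
      nlinarith
    have h3 : (∑ i ∈ B, (t.s i : ℝ) ^ n) * Real.exp (ε ^ 2 * n / (32 * M ^ 3)) ≤
        4 * M * t.vol q :=
      le_trans (mul_le_mul_of_nonneg_left h2 (Finset.sum_nonneg fun _ _ => by positivity)) h1
    have h4 : X * Real.exp (ε ^ 2 * n / (32 * M ^ 3)) = 1 := by
      rw [hX, ← Real.exp_add]
      simp
    have h5 : (∑ i ∈ B, (t.s i : ℝ) ^ n) =
        X * ((∑ i ∈ B, (t.s i : ℝ) ^ n) * Real.exp (ε ^ 2 * n / (32 * M ^ 3))) := by
      calc (∑ i ∈ B, (t.s i : ℝ) ^ n) = (X * Real.exp (ε ^ 2 * n / (32 * M ^ 3))) *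
            (∑ i ∈ B, (t.s i : ℝ) ^ n) := by rw [h4, one_mul]
        _ = _ := by ring
    rw [h5]
    calc X * ((∑ i ∈ B, (t.s i : ℝ) ^ n) * Real.exp (ε ^ 2 * n / (32 * M ^ 3))) ≤
          X * (4 * M * t.vol q) := mul_le_mul_of_nonneg_left h3 hX0.le
      _ = _ := by ring
  -- upper bound for the weighted number of zeros
  have hup : ∑ i ∈ t.act q, (t.s i : ℝ) ^ n * t.zeros q i ≤
      (1 / M + η) * n * t.vol q + n * (∑ i ∈ B, (t.s i : ℝ) ^ n) +
        n * ((Fintype.card ι : ℝ) * σ ^ n) := by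
    have h1 : ∀ i ∈ t.act q, (t.s i : ℝ) ^ n * t.zeros q i ≤
        (1 / M + η) * n * (t.s i : ℝ) ^ n + n * (if i ∈ B then (t.s i : ℝ) ^ n else 0) +
          n * σ ^ n := by
      intro i hi
      have hz : (t.zeros q i : ℝ) ≤ n := by
        have : t.zeros q i ≤ n := by
          unfold zeros
          refine (Finset.card_le_univ _).trans ?_
          simp
        exact_mod_cast this
      have hsn : 0 ≤ (t.s i : ℝ) ^ n := by positivity
      have hA : 0 ≤ (1 / M + η) * n * (t.s i : ℝ) ^ n := by positivity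
      have hσn : 0 ≤ n * σ ^ n := by positivity
      by_cases hb : i ∈ B
      · rw [if_pos hb]
        have : (t.s i : ℝ) ^ n * t.zeros q i ≤ n * (t.s i : ℝ) ^ n := by
          rw [mul_comm]
          exact mul_le_mul_of_nonneg_right hz hsn
        linarith
      · rw [if_neg hb, mul_zero, add_zero]
        by_cases hl : σ ≤ t.s i
        · have h2 : (t.zeros q i : ℝ) < (1 / M + η) * n := by
            by_contra h
            push Not at h
            exact hb (mem_filter.2 ⟨hi, hl, h⟩)
          have : (t.s i : ℝ) ^ n * t.zeros q i ≤ (1 / M + η) * n * (t.s i : ℝ) ^ n := by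
            rw [mul_comm]
            exact mul_le_mul_of_nonneg_right h2.le hsn
          linarith
        · push Not at hl
          have h3 : (t.s i : ℝ) ^ n ≤ σ ^ n := pow_le_pow_left₀ (by positivity) hl.le n
          have : (t.s i : ℝ) ^ n * t.zeros q i ≤ n * σ ^ n := by
            rw [mul_comm]
            exact mul_le_mul hz h3 hsn hn0.le
          linarith
    refine (Finset.sum_le_sum h1).trans ?_
    rw [Finset.sum_add_distrib, Finset.sum_add_distrib, ← Finset.mul_sum, ← Finset.mul_sum,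
      Finset.sum_const, nsmul_eq_mul]
    refine add_le_add (add_le_add (le_of_eq rfl) ?_) ?_
    · refine mul_le_mul_of_nonneg_left ?_ hn0.le
      rw [← Finset.sum_filter]
      refine Finset.sum_le_sum_of_subset_of_nonneg ?_ fun _ _ _ => by positivity
      intro i hi
      exact (mem_filter.1 hi).2
    · have h5 : ((t.act q).card : ℝ) ≤ Fintype.card ι := by
        exact_mod_cast Finset.card_le_univ _
      have h6 : 0 ≤ (n : ℝ) * σ ^ n := by positivity
      calc ((t.act q).card : ℝ) * (n * σ ^ n) ≤ Fintype.card ι * (n * σ ^ n) :=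
            mul_le_mul_of_nonneg_right h5 h6
        _ = _ := by ring
  have hlow := t.first_bound hn hv hV hσ0
  have h1 : σ * (n * t.vol q / v) = (1 - ε) / C * (n * t.vol q) := by
    rw [hσ]
    field_simp
  rw [h1] at hlow
  have h2 : (1 - ε) / C * (n * t.vol q) ≤
      (1 / M + η + 4 * M * X + 2 * X) * (n * t.vol q) := by
    have h3 : (n : ℝ) * (∑ i ∈ B, (t.s i : ℝ) ^ n) ≤ n * (4 * M * X * t.vol q) :=
      mul_le_mul_of_nonneg_left hBV hn0.le
    have h4 : (n : ℝ) * ((Fintype.card ι : ℝ) * σ ^ n) ≤ n * (X * t.vol q) :=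
      mul_le_mul_of_nonneg_left hkσ hn0.le
    calc _ ≤ _ := hlow
      _ ≤ (1 / M + η) * n * t.vol q + n * (4 * M * X * t.vol q) + n * (X * t.vol q) +
            n * (X * t.vol q) := by linarith
      _ = _ := by ring
  have h3 : (1 - ε) / C ≤ 1 / M + η + 4 * M * X + 2 * X :=
    le_of_mul_le_mul_right h2 (by positivity)
  exact final_num hM hε hε2 hC0 rfl (x := n) h3 hbig

end IT

end Pool.Agent.MP9df71a.Denom
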