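import Mathlib

/-!
Lines of a finite set of grid points: the grid-lines inequality for indicator functions and
averaging along lines.
-/

open Finset MeasureTheory
open scoped ENNReal NNReal

namespace Pool.Agent.MP9df71a.Denom

variable {n : ℕ}

/-- The `j`-coordinates of the points of `R` on the line through `x` in direction `j`. -/
def line (R : Finset (Fin n → ℕ)) (j : Fin n) (x : Fin n → ℕ) : Finset ℕ :=
  (R.image fun y => y j).filter fun y => Function.update x j y ∈ R

theorem mem_line {R : Finset (Fin n → ℕ)} {j : Fin n} {x : Fin n → ℕ} {y : ℕ} :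
    y ∈ line R j x ↔ Function.update x j y ∈ R := by
  unfold line
  rw [mem_filter, mem_image]
  constructor
  · exact fun h => h.2
  · intro h
    exact ⟨⟨_, h, by simp⟩, h⟩

theorem line_update {R : Finset (Fin n → ℕ)} {j : Fin n} {x : Fin n → ℕ} {y : ℕ} :
    line R j (Function.update x j y) = line R j x := by
  ext z
  rw [mem_line, mem_line, Function.update_idem]

theorem self_mem_line {R : Finset (Fin n → ℕ)} {j : Fin n} {x : Fin n → ℕ} (hx : x ∈ R) :
    x j ∈ line R j x := by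
  rw [mem_line, Function.update_eq_self]
  exact hx

theorem card_line_pos {R : Finset (Fin n → ℕ)} {j : Fin n} {x : Fin n → ℕ} (hx : x ∈ R) :
    0 < (line R j x).card := Finset.card_pos.2 ⟨_, self_mem_line hx⟩

theorem line_avg (R : Finset (Fin n → ℕ)) (j : Fin n) (B : (Fin n → ℕ) → ℝ) :
    ∑ x ∈ R, ∑ y ∈ line R j x, (1 / ((line R j x).card : ℝ)) * B (Function.update x j y) =
      ∑ x ∈ R, B x := by
  have h1 : ∑ x ∈ R, ∑ y ∈ line R j x,
      (1 / ((line R j x).card : ℝ)) * B (Function.update x j y) =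
      ∑ x ∈ R, ∑ _y ∈ line R j x, (1 / ((line R j x).card : ℝ)) * B x := by
    rw [Finset.sum_sigma', Finset.sum_sigma']
    refine Finset.sum_bij' (fun p _ => ⟨Function.update p.1 j p.2, p.1 j⟩)
      (fun p _ => ⟨Function.update p.1 j p.2, p.1 j⟩) ?_ ?_ ?_ ?_ ?_
    · rintro ⟨x, y⟩ hp
      rw [mem_sigma] at hp ⊢
      refine ⟨mem_line.1 hp.2, ?_⟩
      simp only
      rw [line_update]
      exact self_mem_line hp.1
    · rintro ⟨x, y⟩ hp
      rw [mem_sigma] at hp ⊢
      refine ⟨mem_line.1 hp.2, ?_⟩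
      simp only
      rw [line_update]
      exact self_mem_line hp.1
    · rintro ⟨x, y⟩ _
      simp
    · rintro ⟨x, y⟩ _
      simp
    · rintro ⟨x, y⟩ _
      simp [line_update]
  rw [h1]
  refine Finset.sum_congr rfl fun x hx => ?_
  rw [Finset.sum_const, nsmul_eq_mul]
  have : (0 : ℝ) < (line R j x).card := by exact_mod_cast card_line_pos hx
  field_simp

theorem gns (hn : 0 < n) (R : Finset (Fin n → ℕ)) :
    ∑ x ∈ R, ∏ j, ((line R j x).card : ℝ) ^ (1 / (n : ℝ)) ≤ (R.card : ℝ) ^ (1 + 1 / (n : ℝ)) := by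
  classical
  have hn0 : (0 : ℝ) < n := by exact_mod_cast hn
  set p : ℝ := 1 / (n : ℝ) with hp
  have hp0 : 0 < p := by positivity
  let μ : Fin n → Measure ℕ := fun _ => Measure.count
  let f : (Fin n → ℕ) → ℝ≥0∞ := fun x => if x ∈ R then 1 else 0
  have hf : Measurable f := measurable_of_countable f
  have hpn : ((Fintype.card (Fin n) : ℝ) - 1) * p ≤ 1 := by
    rw [Fintype.card_fin, hp]
    field_simp
    linarith
  have key := lintegral_mul_prod_lintegral_pow_le (ι := Fin n) (A := fun _ => ℕ) μ hp0.le hpn hf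
  have hsing : ∀ x : Fin n → ℕ, Measure.pi μ {x} = 1 := by
    intro x
    rw [Measure.pi_singleton]
    simp [μ]
  have hpi : ∀ g : (Fin n → ℕ) → ℝ≥0∞, ∫⁻ x, g x ∂Measure.pi μ = ∑' x, g x := by
    intro g
    rw [lintegral_countable']
    simp [hsing]
  rw [hpi, hpi] at key
  have h1 : ∑' x, f x = (R.card : ℝ≥0∞) := by
    rw [tsum_eq_sum (s := R)]
    · rw [Finset.sum_congr rfl (fun x hx => (if_pos hx : f x = 1))]
      simp
    · intro x hx
      exact if_neg hx
  rw [h1] at key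
  have h2 : ∀ (x : Fin n → ℕ) (j : Fin n), ((line R j x).card : ℝ≥0∞) ≤
      ∫⁻ y, f (Function.update x j y) ∂μ j := by
    intro x j
    rw [show μ j = Measure.count from rfl, lintegral_count]
    calc ((line R j x).card : ℝ≥0∞) = ∑ y ∈ line R j x, f (Function.update x j y) := by
          rw [Finset.sum_congr rfl (fun y hy => (if_pos (mem_line.1 hy) : f _ = 1))]
          simp
      _ ≤ _ := ENNReal.sum_le_tsum _
  have h3 : ∑ x ∈ R, ∏ j, ((line R j x).card : ℝ≥0∞) ^ p ≤ (R.card : ℝ≥0∞) ^ (1 + p) := by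
    refine le_trans ?_ key
    refine le_trans ?_ (ENNReal.sum_le_tsum R)
    refine Finset.sum_le_sum fun x hx => ?_
    have h4 : f x = 1 := if_pos hx
    rw [h4, ENNReal.one_rpow, one_mul]
    refine Finset.prod_le_prod' fun j _ => ?_
    exact ENNReal.rpow_le_rpow (h2 x j) hp0.le
  have h5 : ∀ c : ℕ, ((c : ℝ≥0∞)) ^ p = (((c : ℝ≥0) ^ p : ℝ≥0) : ℝ≥0∞) := by
    intro c
    rw [← ENNReal.coe_natCast, ENNReal.coe_rpow_of_nonneg _ hp0.le]
  have h6 : ((R.card : ℝ≥0∞)) ^ (1 + p) = (((R.card : ℝ≥0) ^ (1 + p) : ℝ≥0) : ℝ≥0∞) := by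
    rw [← ENNReal.coe_natCast, ENNReal.coe_rpow_of_nonneg _ (by positivity)]
  simp only [h5, h6] at h3
  have h7 : ∑ x ∈ R, ∏ j, ((line R j x).card : ℝ≥0) ^ p ≤ (R.card : ℝ≥0) ^ (1 + p) := by
    exact_mod_cast h3
  have h8 := NNReal.coe_le_coe.2 h7
  push_cast at h8
  exact h8

theorem inv_line (hn : 0 < n) (R : Finset (Fin n → ℕ)) {v : ℝ} (hv : 0 < v)
    (hV : v ^ n = R.card) :
    (n : ℝ) * R.card / v ≤ ∑ x ∈ R, ∑ j, 1 / ((line R j x).card : ℝ) := by
  have hn0 : (0 : ℝ) < n := by exact_mod_cast hn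
  set G : (Fin n → ℕ) → ℝ := fun x => ∏ j, ((line R j x).card : ℝ) ^ (1 / (n : ℝ)) with hG
  have hG0 : ∀ x ∈ R, 0 < G x := by
    intro x hx
    refine Finset.prod_pos fun j _ => Real.rpow_pos_of_pos ?_ _
    exact_mod_cast card_line_pos hx
  have h1 : ∀ x ∈ R, (n : ℝ) * (2 / v - G x / v ^ 2) ≤ ∑ j, 1 / ((line R j x).card : ℝ) := by
    intro x hx
    have h2 := Real.geom_mean_le_arith_mean_weighted (univ : Finset (Fin n))
      (fun _ => 1 / (n : ℝ)) (fun j => 1 / ((line R j x).card : ℝ))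
      (fun _ _ => by positivity) (by simp [hn0.ne']) (fun _ _ => by positivity)
    have h3 : ∏ j : Fin n, (1 / ((line R j x).card : ℝ)) ^ (1 / (n : ℝ)) = 1 / G x := by
      rw [hG]
      simp only [one_div]
      rw [← Finset.prod_inv_distrib]
      refine Finset.prod_congr rfl fun j _ => ?_
      rw [Real.inv_rpow (by positivity)]
    rw [h3, ← Finset.mul_sum] at h2
    have hg := hG0 x hx
    have h4 : 2 / v - G x / v ^ 2 ≤ 1 / G x := by
      rw [div_sub_div _ _ hv.ne' (by positivity), div_le_div_iff₀ (by positivity) hg]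
      have : 0 ≤ v * (v - G x) ^ 2 := by positivity
      nlinarith
    have h5 : (2 / v - G x / v ^ 2) ≤ 1 / (n : ℝ) * ∑ j, 1 / ((line R j x).card : ℝ) :=
      h4.trans h2
    calc (n : ℝ) * (2 / v - G x / v ^ 2) ≤
          n * (1 / (n : ℝ) * ∑ j, 1 / ((line R j x).card : ℝ)) :=
          mul_le_mul_of_nonneg_left h5 hn0.le
      _ = _ := by rw [← mul_assoc, mul_one_div_cancel hn0.ne', one_mul]
  refine le_trans ?_ (Finset.sum_le_sum h1)
  rw [← Finset.mul_sum, Finset.sum_sub_distrib, Finset.sum_const, nsmul_eq_mul,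
    ← Finset.sum_div]
  have h6 := gns hn R
  have h7 : (R.card : ℝ) ^ (1 + 1 / (n : ℝ)) = R.card * v := by
    rw [← hV, ← Real.rpow_natCast, ← Real.rpow_mul hv.le, mul_add, mul_one,
      mul_one_div_cancel hn0.ne', Real.rpow_add hv, Real.rpow_one]
  rw [h7] at h6
  have h8 : (∑ x ∈ R, G x) / v ^ 2 ≤ R.card / v := by
    rw [div_le_div_iff₀ (by positivity) hv]
    calc (∑ x ∈ R, G x) * v ≤ (R.card * v) * v := mul_le_mul_of_nonneg_right h6 hv.le
      _ = R.card * v ^ 2 := by ring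
  calc (n : ℝ) * R.card / v = n * (R.card * (2 / v) - R.card / v) := by
        field_simp
        ring
    _ ≤ n * (R.card * (2 / v) - (∑ x ∈ R, G x) / v ^ 2) :=
        mul_le_mul_of_nonneg_left (by linarith) hn0.le

end Pool.Agent.MP9df71a.Denom
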