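import Pool.Agent.Lib.MP_9df71a_co.DenomAvg
import Pool.Agent.Lib.MP_9df71a_co.DenomLine

/-!
The first active tile on a line has its left end divisible by `q`; consequence for the average
number of directions in which an active tile has left end divisible by `q`.
-/

open Finset

namespace Pool.Agent.MP9df71a.Denom

namespace IT

variable {n N : ℕ} {ι : Type} (t : IT n N ι) [Fintype ι] [DecidableEq ι]

/-- The region covered by the active tiles. -/
def reg (q : ℕ) : Finset (Fin n → ℕ) := (t.act q).biUnion t.cells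

variable {q : ℕ}

theorem mem_reg {x : Fin n → ℕ} : x ∈ t.reg q ↔ ∃ i ∈ t.act q, x ∈ t.cells i := by
  simp [reg]

theorem card_reg : ((t.reg q).card : ℝ) = t.vol q := by
  unfold reg vol
  rw [Finset.card_biUnion (fun i _ i' _ h => t.disj (Set.mem_univ i) (Set.mem_univ i') h)]
  push_cast
  refine Finset.sum_congr rfl fun i _ => ?_
  rw [t.card_cells]
  push_cast
  rfl

/-- If no earlier cell of the line is active, the left end is divisible by `q`. -/
theorem dvd_first (j : Fin n) :
    ∀ (m : ℕ) (i : ι) (x : Fin n → ℕ), x ∈ t.cells i → x j = m → t.a i j = m →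
      (∀ y < m, Function.update x j y ∉ t.reg q) → q ∣ m := by
  intro m
  induction m using Nat.strong_induction_on with
  | _ m ih =>
    intro i x hx hxm ham hno
    rcases Nat.eq_zero_or_pos m with h0 | h0
    · rw [h0]; exact dvd_zero _
    · have hz : ∀ j', Function.update x j (x j - 1) j' < N := by
        intro j'
        by_cases hjj : j' = j
        · subst hjj
          rw [Function.update_self]
          have := t.lt_of_mem hx j'
          omega
        · rw [Function.update_of_ne hjj]
          exact t.lt_of_mem hx j'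
      obtain ⟨i', hi'⟩ := t.exists_mem hz
      have h1 := t.left_tile hx j (by omega) (by omega) hi'
      have h2 : i' ∉ t.act q := by
        intro h
        exact hno (x j - 1) (by omega) (t.mem_reg.2 ⟨i', h, hi'⟩)
      have h3 : q ∣ t.s i' := by
        by_contra h
        exact h2 (t.mem_act.2 h)
      have hp := t.pos i'
      have h4 : Function.update x j (t.a i' j) ∈ t.cells i' := by
        rw [t.mem_cells]
        intro j'
        by_cases hjj : j' = j
        · subst hjj
          rw [Function.update_self]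
          omega
        · have := t.mem_cells.1 hi' j'
          rw [Function.update_of_ne hjj] at this ⊢
          exact this
      have h5 := ih (t.a i' j) (by omega) i' _ h4 (by simp) rfl (by
        intro y hy
        rw [Function.update_idem]
        exact hno y (by omega))
      rw [← hxm, ← h1]
      exact dvd_add h5 h3

/-- The first active tile on a line. -/
theorem exists_first {x : Fin n → ℕ} (hx : x ∈ t.reg q) (j : Fin n) :
    ∃ i ∈ t.act q, q ∣ t.a i j ∧
      ∀ y ∈ Ico (t.a i j) (t.a i j + t.s i), Function.update x j y ∈ t.cells i := by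
  have hne : (line (t.reg q) j x).Nonempty := ⟨_, self_mem_line hx⟩
  set m := (line (t.reg q) j x).min' hne with hm
  have hm1 : Function.update x j m ∈ t.reg q := mem_line.1 (Finset.min'_mem _ hne)
  have hm2 : ∀ y < m, Function.update x j y ∉ t.reg q := by
    intro y hy h
    exact absurd (Finset.min'_le _ _ (mem_line.2 h)) (not_le.2 hy)
  obtain ⟨i, hi, hxi⟩ := t.mem_reg.1 hm1
  have h1 := t.mem_cells.1 hxi
  have hall : ∀ y ∈ Ico (t.a i j) (t.a i j + t.s i), Function.update x j y ∈ t.cells i := by
    intro y hy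
    rw [mem_Ico] at hy
    rw [t.mem_cells]
    intro j'
    by_cases hjj : j' = j
    · subst hjj
      rw [Function.update_self]
      exact hy
    · have := h1 j'
      rw [Function.update_of_ne hjj] at this ⊢
      exact this
  have h2 : t.a i j = m := by
    have h3 := h1 j
    rw [Function.update_self] at h3
    by_contra hne'
    have h4 : t.a i j < m := by omega
    have hp := t.pos i
    exact hm2 _ h4 (t.mem_reg.2 ⟨i, hi, hall _ (by rw [mem_Ico]; omega)⟩)
  refine ⟨i, hi, ?_, hall⟩
  rw [h2]
  refine t.dvd_first j m i _ hxi (by simp) h2 ?_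
  intro y hy
  rw [Function.update_idem]
  exact hm2 y hy

theorem sum_reg (b : ι → ℝ) :
    ∑ x ∈ t.reg q, ∑ i ∈ t.act q, (if x ∈ t.cells i then b i else 0) =
      ∑ i ∈ t.act q, (t.s i : ℝ) ^ n * b i := by
  rw [Finset.sum_comm]
  refine Finset.sum_congr rfl fun i hi => ?_
  rw [← Finset.sum_filter]
  have h1 : (t.reg q).filter (fun x => x ∈ t.cells i) = t.cells i := by
    ext x
    rw [mem_filter, t.mem_reg]
    exact ⟨fun h => h.2, fun h => ⟨⟨i, hi, h⟩, h⟩⟩
  rw [h1, Finset.sum_const, t.card_cells, nsmul_eq_mul]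
  push_cast
  rfl

/-- One direction. -/
theorem line_bound (j : Fin n) {σ : ℝ} (hσ : 0 < σ) :
    ∑ x ∈ t.reg q, σ * (1 / ((line (t.reg q) j x).card : ℝ)) ≤
      ∑ i ∈ t.act q, (t.s i : ℝ) ^ n *
        ((if q ∣ t.a i j then 1 else 0) + (if (t.s i : ℝ) < σ then σ / t.s i else 0)) := by
  set b : ι → ℝ := fun i =>
    (if q ∣ t.a i j then 1 else 0) + (if (t.s i : ℝ) < σ then σ / t.s i else 0) with hb
  have hb0 : ∀ i, 0 ≤ b i := by
    intro i
    rw [hb]
    refine add_nonneg ?_ ?_ <;> split_ifs <;> positivity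
  rw [← t.sum_reg b, ← line_avg (t.reg q) j
    (fun x => ∑ i ∈ t.act q, (if x ∈ t.cells i then b i else 0))]
  refine Finset.sum_le_sum fun x hx => ?_
  rw [← Finset.mul_sum, mul_comm σ]
  refine mul_le_mul_of_nonneg_left ?_ (by positivity)
  obtain ⟨i, hi, hqi, hall⟩ := t.exists_first hx j
  have hs0 : (0 : ℝ) < t.s i := by exact_mod_cast t.pos i
  have h1 : σ ≤ (t.s i : ℝ) * b i := by
    rw [hb]
    simp only [hqi, if_true]
    split_ifs with h
    · have : (t.s i : ℝ) * (1 + σ / t.s i) = t.s i + σ := by
        field_simp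
      linarith
    · push Not at h
      linarith
  have hsub : Ico (t.a i j) (t.a i j + t.s i) ⊆ line (t.reg q) j x := by
    intro y hy
    exact mem_line.2 (t.mem_reg.2 ⟨i, hi, hall y hy⟩)
  have h2 : ∀ y, 0 ≤ ∑ i' ∈ t.act q,
      (if Function.update x j y ∈ t.cells i' then b i' else 0) := by
    intro y
    refine Finset.sum_nonneg fun i' _ => ?_
    split_ifs
    · exact hb0 i'
    · exact le_rfl
  calc σ ≤ (t.s i : ℝ) * b i := h1
    _ = ∑ _y ∈ Ico (t.a i j) (t.a i j + t.s i), b i := by
        rw [Finset.sum_const, Nat.card_Ico, nsmul_eq_mul]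
        congr 2
        omega
    _ ≤ ∑ y ∈ Ico (t.a i j) (t.a i j + t.s i), ∑ i' ∈ t.act q,
          (if Function.update x j y ∈ t.cells i' then b i' else 0) := by
        refine Finset.sum_le_sum fun y hy => ?_
        refine le_trans ?_ (Finset.single_le_sum (f := fun i' =>
          (if Function.update x j y ∈ t.cells i' then b i' else 0)) (fun i' _ => ?_) hi)
        · simp only [hall y hy, if_true, le_refl]
        · split_ifs
          · exact hb0 i'
          · exact le_rfl
    _ ≤ _ := Finset.sum_le_sum_of_subset_of_nonneg hsub fun y _ _ => h2 y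

theorem first_bound (hn : 0 < n) {v σ : ℝ} (hv : 0 < v) (hV : v ^ n = t.vol q) (hσ : 0 < σ) :
    σ * (n * t.vol q / v) ≤ ∑ i ∈ t.act q, (t.s i : ℝ) ^ n * t.zeros q i +
      n * (Fintype.card ι * σ ^ n) := by
  have h1 := inv_line hn (t.reg q) hv (by rw [hV, t.card_reg])
  rw [t.card_reg] at h1
  have h2 : σ * (n * t.vol q / v) ≤
      ∑ j, ∑ x ∈ t.reg q, σ * (1 / ((line (t.reg q) j x).card : ℝ)) := by
    rw [Finset.sum_comm]
    calc σ * (n * t.vol q / v) ≤
          σ * ∑ x ∈ t.reg q, ∑ j, 1 / ((line (t.reg q) j x).card : ℝ) :=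
          mul_le_mul_of_nonneg_left h1 hσ.le
      _ = _ := by
          rw [Finset.mul_sum]
          exact Finset.sum_congr rfl fun x _ => Finset.mul_sum _ _ _
  refine h2.trans ((Finset.sum_le_sum fun j _ => t.line_bound (q := q) j hσ).trans ?_)
  rw [Finset.sum_comm]
  have h3 : ∀ i ∈ t.act q, ∑ j, (t.s i : ℝ) ^ n *
        ((if q ∣ t.a i j then 1 else 0) + (if (t.s i : ℝ) < σ then σ / t.s i else 0)) ≤
      (t.s i : ℝ) ^ n * t.zeros q i + n * σ ^ n := by
    intro i _
    have hs0 : (0 : ℝ) < t.s i := by exact_mod_cast t.pos i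
    rw [← Finset.mul_sum, Finset.sum_add_distrib, Finset.sum_boole, mul_add]
    refine add_le_add (le_of_eq rfl) ?_
    rw [Finset.sum_const, card_univ, Fintype.card_fin, nsmul_eq_mul]
    split_ifs with h
    · obtain ⟨m, rfl⟩ : ∃ m, n = m + 1 := ⟨n - 1, by omega⟩
      have h4 : (t.s i : ℝ) ^ (m + 1) * (((m + 1 : ℕ) : ℝ) * (σ / t.s i)) =
          ((m + 1 : ℕ) : ℝ) * ((t.s i : ℝ) ^ m * σ) := by
        field_simp
        ring
      rw [h4]
      refine mul_le_mul_of_nonneg_left ?_ (by positivity)
      rw [pow_succ σ m]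
      exact mul_le_mul_of_nonneg_right (pow_le_pow_left₀ hs0.le h.le m) hσ.le
    · rw [mul_zero, mul_zero]
      positivity
  refine (Finset.sum_le_sum h3).trans ?_
  rw [Finset.sum_add_distrib, Finset.sum_const, nsmul_eq_mul]
  refine add_le_add le_rfl ?_
  have h5 : ((t.act q).card : ℝ) ≤ Fintype.card ι := by exact_mod_cast Finset.card_le_univ _
  have h6 : 0 ≤ (n : ℝ) * σ ^ n := by positivity
  calc ((t.act q).card : ℝ) * (n * σ ^ n) ≤ Fintype.card ι * (n * σ ^ n) :=
        mul_le_mul_of_nonneg_right h5 h6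
    _ = _ := by ring

end IT

end Pool.Agent.MP9df71a.Denom
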