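import Pool.Prelude.Def_F_cef2bd1b
import Pool.Agent.Lib.MP_9df71a_co.DenomCore

/-!
Real cube tilings: wall identity, Dehn's theorem (all sides are rational), all corners are
rational, and the passage to the integer model.
-/

open Finset N0a8789b9

namespace Pool.Agent.MP9df71a.Denom

/-- Every function on a finite set of reals is a combination of unit steps. -/
theorem exists_steps (W : Finset ℝ) (h : ℝ → ℝ) :
    ∃ (T : Finset ℝ) (c : ℝ → ℝ) (C : ℝ), (∀ t ∈ T, ∃ w ∈ W, t < w) ∧
      ∀ x ∈ W, h x = C + ∑ t ∈ T, c t * (if t < x then 1 else 0) := by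
  classical
  refine Finset.induction_on_max W ⟨∅, 0, 0, by simp, by simp⟩ ?_
  · intro a s ha ih
    obtain ⟨T, c, C, hT, hc⟩ := ih
    rcases s.eq_empty_or_nonempty with rfl | hs
    · exact ⟨∅, 0, h a, by simp, by simp⟩
    · set m := s.max' hs with hm
      have hma : m < a := ha m (s.max'_mem hs)
      have hTm : ∀ t ∈ T, t < m := by
        intro t ht
        obtain ⟨w, hw, htw⟩ := hT t ht
        exact lt_of_lt_of_le htw (s.le_max' w hw)
      have hmT : m ∉ T := fun h => lt_irrefl _ (hTm m h)
      refine ⟨insert m T, fun t => if t = m then h a - C - ∑ t ∈ T, c t else c t, C, ?_, ?_⟩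
      · intro t ht
        refine ⟨a, mem_insert_self _ _, ?_⟩
        rcases mem_insert.1 ht with rfl | ht
        · exact hma
        · exact (hTm t ht).trans hma
      · intro x hx
        rw [Finset.sum_insert hmT]
        have h1 : ∀ y : ℝ, ∑ t ∈ T, (if t = m then h a - C - ∑ t ∈ T, c t else c t) *
            (if t < y then (1 : ℝ) else 0) = ∑ t ∈ T, c t * (if t < y then 1 else 0) := by
          intro y
          refine Finset.sum_congr rfl fun t ht => ?_
          have : t ≠ m := fun h => hmT (h ▸ ht)
          simp [this]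
        rw [h1]
        rcases mem_insert.1 hx with rfl | hx
        · have h2 : ∑ t ∈ T, c t * (if t < x then (1 : ℝ) else 0) = ∑ t ∈ T, c t := by
            refine Finset.sum_congr rfl fun t ht => ?_
            simp [(hTm t ht).trans hma]
          rw [h2]
          simp [hma]
        · have h3 : ¬ m < x := not_lt.2 (s.le_max' x hx)
          rw [hc x hx]
          simp [h3]

section real

variable {n k : ℕ} {tiles : Fin k → Cube n}

/-- The walls of a tiling. -/
noncomputable def walls (tiles : Fin k → Cube n) : Finset ℝ :=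
  insert 0 (insert 1 ((univ.biUnion fun i => univ.image fun j => (tiles i).lower j) ∪
    (univ.biUnion fun i => univ.image fun j => (tiles i).lower j + (tiles i).side)))

theorem lower_mem_walls (i : Fin k) (j : Fin n) : (tiles i).lower j ∈ walls tiles := by
  unfold walls
  simp only [mem_insert, mem_union, mem_biUnion, mem_univ, mem_image, true_and]
  exact Or.inr (Or.inr (Or.inl ⟨i, j, rfl⟩))

theorem upper_mem_walls (i : Fin k) (j : Fin n) :
    (tiles i).lower j + (tiles i).side ∈ walls tiles := by
  unfold walls
  simp only [mem_insert, mem_union, mem_biUnion, mem_univ, mem_image, true_and]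
  exact Or.inr (Or.inr (Or.inr ⟨i, j, rfl⟩))

/-- Wall identity for real tilings. -/
theorem real_identity (ht : IsTiling tiles) (h : ℝ → ℝ) :
    ∑ i, ∏ j, (h ((tiles i).lower j + (tiles i).side) - h ((tiles i).lower j)) =
      (h 1 - h 0) ^ n := by
  classical
  obtain ⟨T, c, C, -, hc⟩ := exists_steps (walls tiles) h
  have h0 : (0 : ℝ) ∈ walls tiles := by simp [walls]
  have h1 : (1 : ℝ) ∈ walls tiles := by simp [walls]
  have hdiff : ∀ x ∈ walls tiles, ∀ y ∈ walls tiles,
      h y - h x = ∑ t ∈ T, c t * ((if t < y then 1 else 0) - (if t < x then 1 else 0)) := by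
    intro x hx y hy
    rw [hc x hx, hc y hy]
    simp only [mul_sub]
    rw [Finset.sum_sub_distrib]
    ring
  have hstep : ∀ p : Fin n → ℝ,
      ∑ i, ∏ j, ((if p j < (tiles i).lower j + (tiles i).side then (1 : ℝ) else 0) -
        (if p j < (tiles i).lower j then 1 else 0)) =
      ∏ j, ((if p j < 1 then (1 : ℝ) else 0) - (if p j < 0 then 1 else 0)) := by
    intro p
    have hfac : ∀ a b y : ℝ, a ≤ b → ((if y < b then (1 : ℝ) else 0) - (if y < a then 1 else 0)) =
        if a ≤ y ∧ y < b then 1 else 0 := by
      intro a b y hab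
      by_cases h1 : y < a
      · have h2 : y < b := lt_of_lt_of_le h1 hab
        simp [h1, h2, not_le.2 h1]
      · by_cases h2 : y < b
        · simp [h1, h2, not_lt.1 h1]
        · simp [h1, h2]
    have h2 : ∀ i, ∏ j, ((if p j < (tiles i).lower j + (tiles i).side then (1 : ℝ) else 0) -
        (if p j < (tiles i).lower j then 1 else 0)) = if (tiles i).Mem p then 1 else 0 := by
      intro i
      have hs := (ht.1 i).1
      rw [Finset.prod_congr rfl fun j _ => hfac _ _ (p j) (by linarith)]
      by_cases hm : (tiles i).Mem p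
      · rw [if_pos hm]
        exact Finset.prod_eq_one fun j _ => if_pos (hm j)
      · rw [if_neg hm]
        unfold Cube.Mem at hm
        push Not at hm
        obtain ⟨j, hj⟩ := hm
        refine Finset.prod_eq_zero (mem_univ j) (if_neg ?_)
        rintro ⟨h3, h4⟩
        exact absurd h4 (not_lt.2 (hj h3))
    have h3 : ∏ j, ((if p j < 1 then (1 : ℝ) else 0) - (if p j < 0 then 1 else 0)) =
        if InUnit p then 1 else 0 := by
      rw [Finset.prod_congr rfl fun j _ => hfac 0 1 (p j) zero_le_one]
      by_cases hm : InUnit p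
      · rw [if_pos hm]
        exact Finset.prod_eq_one fun j _ => if_pos (hm j)
      · rw [if_neg hm]
        unfold InUnit at hm
        push Not at hm
        obtain ⟨j, hj⟩ := hm
        refine Finset.prod_eq_zero (mem_univ j) (if_neg ?_)
        rintro ⟨h3, h4⟩
        exact absurd h4 (not_lt.2 (hj h3))
    rw [Finset.sum_congr rfl fun i _ => h2 i, h3]
    by_cases hm : InUnit p
    · obtain ⟨i, hi, huni⟩ := ht.2 p hm
      rw [if_pos hm, Finset.sum_eq_single i]
      · simp [hi]
      · intro i' _ hne
        rw [if_neg]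
        intro h4
        exact hne (huni i' h4)
      · simp
    · rw [if_neg hm]
      refine Finset.sum_eq_zero fun i _ => if_neg ?_
      intro h4
      apply hm
      intro j
      have h5 := h4 j
      have h6 := (ht.1 i).2 j
      constructor <;> linarith [h5.1, h5.2, h6.1, h6.2]
  calc ∑ i, ∏ j, (h ((tiles i).lower j + (tiles i).side) - h ((tiles i).lower j))
      = ∑ i, ∏ j : Fin n, ∑ t ∈ T, c t *
          ((if t < (tiles i).lower j + (tiles i).side then 1 else 0) -
            (if t < (tiles i).lower j then 1 else 0)) := by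
        refine Finset.sum_congr rfl fun i _ => Finset.prod_congr rfl fun j _ => ?_
        exact hdiff _ (lower_mem_walls i j) _ (upper_mem_walls i j)
    _ = ∑ i, ∑ p ∈ Fintype.piFinset fun _ : Fin n => T, ∏ j, (c (p j) *
          ((if p j < (tiles i).lower j + (tiles i).side then 1 else 0) -
            (if p j < (tiles i).lower j then 1 else 0))) := by
        refine Finset.sum_congr rfl fun i _ => ?_
        rw [Finset.prod_univ_sum]
    _ = ∑ p ∈ Fintype.piFinset fun _ : Fin n => T, (∏ j, c (p j)) *
          ∏ j, ((if p j < 1 then (1 : ℝ) else 0) - (if p j < 0 then 1 else 0)) := by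
        rw [Finset.sum_comm]
        refine Finset.sum_congr rfl fun p _ => ?_
        rw [← hstep p, Finset.mul_sum]
        exact Finset.sum_congr rfl fun i _ => Finset.prod_mul_distrib
    _ = ∑ p ∈ Fintype.piFinset fun _ : Fin n => T, ∏ j, (c (p j) *
          ((if p j < 1 then (1 : ℝ) else 0) - (if p j < 0 then 1 else 0))) := by
        exact Finset.sum_congr rfl fun p _ => Finset.prod_mul_distrib.symm
    _ = ∏ _j : Fin n, ∑ t ∈ T, c t * ((if t < 1 then (1 : ℝ) else 0) - (if t < 0 then 1 else 0)) := by
        rw [Finset.prod_univ_sum]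
    _ = (h 1 - h 0) ^ n := by
        rw [← hdiff 0 h0 1 h1]
        simp

/-- The volumes add up. -/
theorem sum_side_pow (ht : IsTiling tiles) : ∑ i, (tiles i).side ^ n = 1 := by
  have := real_identity ht (fun x => x)
  simpa using this

/-- Dehn: all sides are rational. -/
theorem side_rational (hn : 2 ≤ n) (ht : IsTiling tiles) (i : Fin k) :
    ∃ r : ℚ, (tiles i).side = r := by
  classical
  by_contra hcon
  push Not at hcon
  have hx : (tiles i).side ∉ Submodule.span ℚ {(1 : ℝ)} := by
    intro h
    rw [Submodule.mem_span_singleton] at h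
    obtain ⟨r, hr⟩ := h
    apply hcon r
    rw [← hr, Rat.smul_def, mul_one]
  obtain ⟨f, hf1, hf2⟩ := Submodule.exists_dual_map_eq_bot_of_notMem hx inferInstance
  have hf0 : f 1 = 0 := by
    have hmem : f 1 ∈ (Submodule.span ℚ {(1 : ℝ)}).map f :=
      ⟨1, Submodule.mem_span_singleton_self _, rfl⟩
    rw [hf2] at hmem
    exact (Submodule.mem_bot ℚ).1 hmem
  -- choose a small multiple
  have hev : ∀ᶠ z : ℝ in nhds 0, ∀ i', |z * (f (tiles i').side : ℝ)| < (tiles i').side := by
    rw [Filter.eventually_all]
    intro i'
    have hcont : Filter.Tendsto (fun z : ℝ => |z * (f (tiles i').side : ℝ)|) (nhds 0)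
        (nhds |0 * (f (tiles i').side : ℝ)|) := by
      apply Continuous.tendsto
      fun_prop
    rw [zero_mul, abs_zero] at hcont
    exact hcont.eventually (gt_mem_nhds (ht.1 i').1)
  obtain ⟨z, hz, hz0⟩ : ∃ z : ℝ, (∀ i', |z * (f (tiles i').side : ℝ)| < (tiles i').side) ∧
      z ≠ 0 := by
    have h1 : ∀ᶠ z : ℝ in nhdsWithin 0 {0}ᶜ,
        (∀ i', |z * (f (tiles i').side : ℝ)| < (tiles i').side) ∧ z ≠ 0 :=
      (hev.filter_mono nhdsWithin_le_nhds).and self_mem_nhdsWithin
    exact h1.exists
  have hid : ∀ w : ℝ, ∑ i', ((tiles i').side + w * (f (tiles i').side : ℝ)) ^ n = 1 := by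
    intro w
    have h1 := real_identity ht (fun x => x + w * ((f x : ℚ) : ℝ))
    have h2 : ∀ (i' : Fin k) (j : Fin n), ((tiles i').lower j + (tiles i').side +
        w * ((f ((tiles i').lower j + (tiles i').side) : ℚ) : ℝ) -
        ((tiles i').lower j + w * ((f ((tiles i').lower j) : ℚ) : ℝ))) =
        (tiles i').side + w * (f (tiles i').side : ℝ) := by
      intro i' j
      rw [map_add]
      push_cast
      ring
    simp only [h2, hf0, map_zero, Rat.cast_zero, mul_zero, add_zero, sub_zero, one_pow] at h1
    simpa using h1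
  have hconv := strictConvexOn_pow (n := n) hn
  have hge : ∀ i', 2 * (tiles i').side ^ n ≤
      ((tiles i').side + z * (f (tiles i').side : ℝ)) ^ n +
        ((tiles i').side + (-z) * (f (tiles i').side : ℝ)) ^ n := by
    intro i'
    have h1 := abs_lt.1 (hz i')
    have hx1 : (tiles i').side + z * (f (tiles i').side : ℝ) ∈ Set.Ici (0 : ℝ) := by
      rw [Set.mem_Ici]; linarith [h1.1]
    have hy1 : (tiles i').side + (-z) * (f (tiles i').side : ℝ) ∈ Set.Ici (0 : ℝ) := by
      rw [Set.mem_Ici]; linarith [h1.2]
    have h2 := hconv.convexOn.2 hx1 hy1 (by norm_num : (0 : ℝ) ≤ 1 / 2)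
      (by norm_num : (0 : ℝ) ≤ 1 / 2) (by norm_num)
    simp only [smul_eq_mul] at h2
    have h3 : 1 / 2 * ((tiles i').side + z * (f (tiles i').side : ℝ)) +
        1 / 2 * ((tiles i').side + (-z) * (f (tiles i').side : ℝ)) = (tiles i').side := by ring
    rw [h3] at h2
    linarith
  have hgt : 2 * (tiles i).side ^ n <
      ((tiles i).side + z * (f (tiles i).side : ℝ)) ^ n +
        ((tiles i).side + (-z) * (f (tiles i).side : ℝ)) ^ n := by
    have h1 := abs_lt.1 (hz i)
    have hfi : ((f (tiles i).side : ℚ) : ℝ) ≠ 0 := by exact_mod_cast hf1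
    have hne : (tiles i).side + z * (f (tiles i).side : ℝ) ≠
        (tiles i).side + (-z) * (f (tiles i).side : ℝ) := by
      intro h
      have h4 : z * (f (tiles i).side : ℝ) = 0 := by linarith
      exact (mul_ne_zero hz0 hfi) h4
    have hx1 : (tiles i).side + z * (f (tiles i).side : ℝ) ∈ Set.Ici (0 : ℝ) := by
      rw [Set.mem_Ici]; linarith [h1.1]
    have hy1 : (tiles i).side + (-z) * (f (tiles i).side : ℝ) ∈ Set.Ici (0 : ℝ) := by
      rw [Set.mem_Ici]; linarith [h1.2]
    have h2 := hconv.2 hx1 hy1 hne (by norm_num : (0 : ℝ) < 1 / 2)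
      (by norm_num : (0 : ℝ) < 1 / 2) (by norm_num)
    simp only [smul_eq_mul] at h2
    have h3 : 1 / 2 * ((tiles i).side + z * (f (tiles i).side : ℝ)) +
        1 / 2 * ((tiles i).side + (-z) * (f (tiles i).side : ℝ)) = (tiles i).side := by ring
    rw [h3] at h2
    linarith
  have hsum : ∑ i', 2 * (tiles i').side ^ n < ∑ i',
      (((tiles i').side + z * (f (tiles i').side : ℝ)) ^ n +
        ((tiles i').side + (-z) * (f (tiles i').side : ℝ)) ^ n) :=
    Finset.sum_lt_sum (fun i' _ => hge i') ⟨i, mem_univ _, hgt⟩
  rw [← Finset.mul_sum, sum_side_pow ht, Finset.sum_add_distrib, hid z, hid (-z)] at hsum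
  linarith

/-- All corners are rational. -/
theorem lower_rational (hn : 2 ≤ n) (ht : IsTiling tiles) (j : Fin n) :
    ∀ i, ∃ r : ℚ, (tiles i).lower j = r := by
  classical
  -- induction over the (finite) set of left ends
  by_contra hcon
  push Not at hcon
  set S : Finset (Fin k) := univ.filter fun i => ∀ r : ℚ, (tiles i).lower j ≠ r with hS
  have hSne : S.Nonempty := by
    obtain ⟨i, hi⟩ := hcon
    exact ⟨i, by rw [hS, mem_filter]; exact ⟨mem_univ _, hi⟩⟩
  obtain ⟨i, hiS, hmin⟩ := Finset.exists_min_image S (fun i => (tiles i).lower j) hSne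
  rw [hS, mem_filter] at hiS
  have hirr := hiS.2
  have hlow := (ht.1 i).2 j
  have hpos : 0 < (tiles i).lower j := by
    rcases hlow.1.lt_or_eq with h | h
    · exact h
    · exact absurd h.symm (by simpa using hirr 0)
  set P : Finset ℝ := (walls tiles).filter fun w => 0 ≤ w ∧ w < (tiles i).lower j with hP
  have h0P : (0 : ℝ) ∈ P := by
    rw [hP, mem_filter]
    exact ⟨by simp [walls], le_rfl, hpos⟩
  set w := P.max' ⟨0, h0P⟩ with hw
  have hwP : w ∈ P := P.max'_mem _
  rw [hP, mem_filter] at hwP
  obtain ⟨-, hw0, hwlt⟩ := hwP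
  set x : Fin n → ℝ := Function.update (tiles i).lower j w with hx
  have hside := (ht.1 i).1
  have hxu : InUnit x := by
    intro j'
    by_cases hjj : j' = j
    · subst hjj
      rw [hx, Function.update_self]
      constructor
      · exact hw0
      · linarith
    · rw [hx, Function.update_of_ne hjj]
      have := (ht.1 i).2 j'
      constructor <;> linarith [this.1, this.2]
  obtain ⟨i', hi', -⟩ := ht.2 x hxu
  have h1 := hi' j
  rw [hx, Function.update_self] at h1
  have hlu : InUnit (tiles i).lower := by
    intro j'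
    have := (ht.1 i).2 j'
    constructor <;> linarith [this.1, this.2]
  have hself : (tiles i).Mem (tiles i).lower := by
    intro j'
    constructor <;> linarith
  have h2 : (tiles i').lower j + (tiles i').side = (tiles i).lower j := by
    apply le_antisymm
    · by_contra h
      push Not at h
      have h3 : (tiles i').Mem (tiles i).lower := by
        intro j'
        by_cases hjj : j' = j
        · subst hjj
          constructor <;> linarith [h1.1]
        · have := hi' j'
          rw [hx, Function.update_of_ne hjj] at this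
          exact this
      have h4 : i' = i := (ht.2 _ hlu).unique h3 hself
      subst h4
      linarith [h1.1]
    · by_contra h
      push Not at h
      have h3 : (tiles i').lower j + (tiles i').side ∈ P := by
        rw [hP, mem_filter]
        refine ⟨upper_mem_walls i' j, ?_, h⟩
        have := (ht.1 i').2 j
        have := (ht.1 i').1
        linarith
      have h4 := P.le_max' _ h3
      rw [← hw] at h4
      linarith [h1.2]
  have hside' := (ht.1 i').1
  have h5 : i' ∉ S := by
    intro h
    have := hmin i' h
    linarith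
  rw [hS, mem_filter] at h5
  push Not at h5
  obtain ⟨r, hr⟩ := h5 (mem_univ _)
  obtain ⟨r', hr'⟩ := side_rational hn ht i'
  apply hirr (r + r')
  rw [← h2, hr, hr']
  push_cast
  rfl

end real

end Pool.Agent.MP9df71a.Denom
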