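import Pool.Agent.Lib.MP_9df71a_co.DenomReal

/-!
From a real cube tiling to the integer model with the least common denominator.
-/

open Finset N0a8789b9

namespace Pool.Agent.MP9df71a.Denom

variable {n k : ℕ} {tiles : Fin k → Cube n}

/-- `D` clears all denominators of a tiling. -/
def Clears (tiles : Fin k → Cube n) (D : ℕ) : Prop :=
  0 < D ∧ ∀ i, (∃ m : ℕ, (D : ℝ) * (tiles i).side = m) ∧
    ∀ j, ∃ m : ℕ, (D : ℝ) * (tiles i).lower j = m

theorem exists_mult (S : Finset ℝ) (hS : ∀ x ∈ S, 0 ≤ x ∧ ∃ r : ℚ, x = r) :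
    ∃ D : ℕ, 0 < D ∧ ∀ x ∈ S, ∃ m : ℕ, (D : ℝ) * x = m := by
  classical
  induction S using Finset.induction_on with
  | empty => exact ⟨1, one_pos, by simp⟩
  | insert a s has ih =>
    obtain ⟨D, hD, hm⟩ := ih fun x hx => hS x (mem_insert_of_mem hx)
    obtain ⟨ha0, r, hr⟩ := hS a (mem_insert_self _ _)
    refine ⟨D * r.den, Nat.mul_pos hD r.den_pos, ?_⟩
    intro x hx
    rcases mem_insert.1 hx with rfl | hx
    · refine ⟨D * r.num.toNat, ?_⟩
      have hr0 : 0 ≤ r := by
        have : (0 : ℝ) ≤ (r : ℝ) := hr ▸ ha0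
        exact_mod_cast this
      have h1 : ((r.num.toNat : ℕ) : ℝ) = (r.num : ℝ) := by
        have : ((r.num.toNat : ℕ) : ℤ) = r.num := Int.toNat_of_nonneg (Rat.num_nonneg.2 hr0)
        exact_mod_cast this
      push_cast
      rw [h1, hr, mul_assoc]
      congr 1
      have h2 : (r.den : ℚ) * r = r.num := by
        rw [mul_comm]; exact Rat.mul_den_eq_num r
      exact_mod_cast h2
    · obtain ⟨m, hm⟩ := hm x hx
      refine ⟨m * r.den, ?_⟩
      push_cast
      rw [← hm]
      ring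

theorem exists_clears (hn : 2 ≤ n) (ht : IsTiling tiles) : ∃ D, Clears tiles D := by
  classical
  obtain ⟨D, hD, hm⟩ := exists_mult
    ((univ.image fun i => (tiles i).side) ∪
      (univ.biUnion fun i => univ.image fun j => (tiles i).lower j)) (by
    intro x hx
    simp only [mem_union, mem_image, mem_univ, true_and, mem_biUnion] at hx
    rcases hx with ⟨i, rfl⟩ | ⟨i, j, rfl⟩
    · exact ⟨(ht.1 i).1.le, side_rational hn ht i⟩
    · exact ⟨((ht.1 i).2 j).1, lower_rational hn ht j i⟩)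
  refine ⟨D, hD, fun i => ⟨hm _ ?_, fun j => hm _ ?_⟩⟩
  · simp
  · rw [mem_union]
    right
    simp only [mem_biUnion, mem_univ, mem_image, true_and]
    exact ⟨i, j, rfl⟩

theorem exists_IT (ht : IsTiling tiles) {D : ℕ} (hD : Clears tiles D) :
    ∃ t : IT n D (Fin k), (∀ i, (t.s i : ℝ) = D * (tiles i).side) ∧
      ∀ i j, (t.a i j : ℝ) = D * (tiles i).lower j := by
  obtain ⟨hD0, hD1⟩ := hD
  choose s hs using fun i => (hD1 i).1
  choose a ha using fun i j => (hD1 i).2 j
  have hDr : (0 : ℝ) < D := by exact_mod_cast hD0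
  refine ⟨⟨a, s, ?_, ?_, ?_⟩, fun i => (hs i).symm, fun i j => (ha i j).symm⟩
  · intro i
    have h1 : (0 : ℝ) < s i := by
      rw [← hs i]; exact mul_pos hDr (ht.1 i).1
    exact_mod_cast h1
  · intro i j
    have h1 : ((a i j + s i : ℕ) : ℝ) ≤ (D : ℕ) := by
      push_cast
      rw [← hs i, ← ha i j, ← mul_add]
      have := ((ht.1 i).2 j).2
      nlinarith
    exact_mod_cast h1
  · intro x hx
    have hu : InUnit fun j => (x j : ℝ) / D := by
      intro j
      refine ⟨by positivity, ?_⟩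
      rw [div_lt_one hDr]
      exact_mod_cast hx j
    have hiff : ∀ i, (tiles i).Mem (fun j => (x j : ℝ) / D) ↔
        ∀ j, a i j ≤ x j ∧ x j < a i j + s i := by
      intro i
      unfold Cube.Mem
      refine forall_congr' fun j => and_congr ?_ ?_
      · rw [le_div_iff₀ hDr, mul_comm, ha i j]
        exact Nat.cast_le
      · rw [div_lt_iff₀ hDr, mul_comm, mul_add, ha i j, hs i]
        rw [← Nat.cast_add]
        exact Nat.cast_lt
    obtain ⟨i, hi, huni⟩ := ht.2 _ hu
    exact ⟨i, (hiff i).1 hi, fun i' hi' => huni i' ((hiff i').2 hi')⟩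

/-- The integer model with the least denominator: every prime dividing the denominator is
visible in some side. -/
theorem exists_reduced (hn : 2 ≤ n) (ht : IsTiling tiles) :
    ∃ (D : ℕ) (t : IT n D (Fin k)), 0 < D ∧ (∀ i, (t.s i : ℝ) = D * (tiles i).side) ∧
      ∀ q : ℕ, q.Prime → q ∣ D → ∃ i, ¬ q ∣ t.s i := by
  classical
  have hex := exists_clears hn ht
  set D := Nat.find hex with hDdef
  have hD : Clears tiles D := Nat.find_spec hex
  obtain ⟨t, hs, ha⟩ := exists_IT ht hD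
  refine ⟨D, t, hD.1, hs, ?_⟩
  intro q hq hqD
  by_contra hcon
  push Not at hcon
  have hda : ∀ i j, q ∣ t.a i j := by
    intro i j
    refine t.dvd_a hcon j _ i (t.a i) ?_ rfl
    rw [t.mem_cells]
    intro j'
    have := t.pos i
    omega
  obtain ⟨D', hD'⟩ := hqD
  have hq1 := hq.one_lt
  have hD'0 : 0 < D' := by
    rcases Nat.eq_zero_or_pos D' with h | h
    · rw [h, mul_zero] at hD'
      have := hD.1
      omega
    · exact h
  have hlt : D' < D := by
    rw [hD']
    nlinarith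
  have hq0 : (0 : ℝ) < q := by exact_mod_cast hq.pos
  have hDD : (D : ℝ) = q * D' := by exact_mod_cast hD'
  refine Nat.find_min hex hlt ⟨hD'0, fun i => ⟨?_, fun j => ?_⟩⟩
  · obtain ⟨m, hm⟩ := hcon i
    refine ⟨m, ?_⟩
    have h1 := hs i
    rw [hm, hDD] at h1
    push_cast at h1
    have h2 : (q : ℝ) * (D' * (tiles i).side) = q * m := by rw [h1]; ring
    exact mul_left_cancel₀ hq0.ne' h2
  · obtain ⟨m, hm⟩ := hda i j
    refine ⟨m, ?_⟩
    have h1 := ha i j
    rw [hm, hDD] at h1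
    push_cast at h1
    have h2 : (q : ℝ) * (D' * (tiles i).lower j) = q * m := by rw [h1]; ring
    exact mul_left_cancel₀ hq0.ne' h2

theorem den_dvd {D s : ℕ} {x : ℝ} {r : ℚ} (hD : 0 < D) (hs : (s : ℝ) = D * x) (hr : x = r) :
    r.den ∣ D := by
  have h1 : (s : ℚ) = D * r := by
    rw [hr] at hs
    exact_mod_cast hs
  have hD0 : (D : ℚ) ≠ 0 := by exact_mod_cast hD.ne'
  have h2 : r = ((s : ℤ) : ℚ) / ((D : ℤ) : ℚ) := by
    push_cast
    rw [h1]
    field_simp
  have h3 := Rat.den_dvd (s : ℤ) (D : ℤ)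
  rw [Rat.divInt_eq_div, ← h2] at h3
  exact_mod_cast h3

/-- **Main bound.** A tiling with a side whose denominator is divisible by the prime `q` has more
than `((1 - 2ε) M)^n` cubes. -/
theorem denom_bound (ht : IsTiling tiles) {q : ℕ} (hq : q.Prime) {i : Fin k} {r : ℚ}
    (hr : (tiles i).side = r) (hqr : q ∣ r.den) {M ε : ℝ} (hM : 1 ≤ M) (hMq : M ≤ q)
    (hε : 0 < ε) (hε2 : ε < 1 / 2)
    (hbig : 32 * M ^ 3 / ε ^ 2 * Real.log (12 * M ^ 2 / ε) < n) :
    ((1 - 2 * ε) * M) ^ n < k := by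
  have hn : 2 ≤ n := by
    have h1 : (24 : ℝ) ≤ 12 * M ^ 2 / ε := by
      rw [le_div_iff₀ hε]
      nlinarith
    have h2 : (1 : ℝ) ≤ Real.log (12 * M ^ 2 / ε) := by
      rw [Real.le_log_iff_exp_le (by linarith)]
      have := Real.exp_one_lt_d9
      linarith
    have h3 : (32 : ℝ) ≤ 32 * M ^ 3 / ε ^ 2 := by
      rw [le_div_iff₀ (by positivity)]
      have h4 : ε ^ 2 ≤ 1 := by nlinarith
      have h5 : 1 ≤ M ^ 3 := one_le_pow₀ hM
      nlinarith
    have h6 : (32 : ℝ) ≤ 32 * M ^ 3 / ε ^ 2 * Real.log (12 * M ^ 2 / ε) := by nlinarith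
    have h7 : (32 : ℝ) < n := lt_of_le_of_lt h6 hbig
    have h8 : 32 < n := by exact_mod_cast h7
    omega
  have : Fact q.Prime := ⟨hq⟩
  obtain ⟨D, t, hD, hs, hred⟩ := exists_reduced hn ht
  have hqD : q ∣ D := hqr.trans (den_dvd hD (hs i) hr)
  obtain ⟨i₀, hi₀⟩ := hred q hq hqD
  have hact : (t.act q).Nonempty := ⟨i₀, by
    unfold IT.act
    simp [hi₀]⟩
  have := t.int_main (q := q) (by omega) hqD hact hM hMq hε hε2 hbig
  simpa using this

/-- If no denominator is divisible by the prime `p`, no numerator either, and `p - 1 = n`, then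
the number of cubes is `1` modulo `p`. -/
theorem fermat_count (hn : 2 ≤ n) (ht : IsTiling tiles) (hp : (n + 1).Prime)
    (hden : ∀ i (r : ℚ), (tiles i).side = r → ¬ (n + 1) ∣ r.den)
    (hnum : ∀ i (r : ℚ), (tiles i).side = r → ¬ ((n + 1 : ℕ) : ℤ) ∣ r.num) :
    k ≡ 1 [MOD n + 1] := by
  have : Fact (n + 1).Prime := ⟨hp⟩
  -- Every side is a quotient of numbers prime to `p`.
  choose r hr using fun i => side_rational hn ht i
  have hsum : ∑ i, (r i) ^ n = 1 := by
    have h1 := sum_side_pow ht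
    have h2 : ((∑ i, (r i) ^ n : ℚ) : ℝ) = ((1 : ℚ) : ℝ) := by
      push_cast
      rw [← h1]
      exact Finset.sum_congr rfl fun i _ => by rw [hr i]
    exact_mod_cast h2
  -- common denominator prime to `p`
  set D : ℕ := ∏ i, (r i).den with hD
  have hDp : ¬ (n + 1) ∣ D := by
    rw [hD, Prime.dvd_finsetProd_iff hp.prime]
    push Not
    intro i _
    exact hden i _ (hr i)
  have hDi : ∀ i, ∃ m : ℤ, (D : ℚ) * r i = m ∧ ¬ ((n + 1 : ℕ) : ℤ) ∣ m := by
    intro i
    have h1 : (D : ℚ) = (r i).den * ((∏ i' ∈ univ.erase i, (r i').den : ℕ) : ℚ) := by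
      rw [hD, ← Finset.mul_prod_erase univ (fun i => (r i).den) (mem_univ i)]
      push_cast
      rfl
    refine ⟨(r i).num * ((∏ i' ∈ univ.erase i, (r i').den : ℕ) : ℤ), ?_, ?_⟩
    · rw [h1]
      have h2 : (r i) * (r i).den = (r i).num := Rat.mul_den_eq_num (r i)
      push_cast
      rw [← h2]
      ring
    · intro h
      rcases (Nat.prime_iff_prime_int.1 hp).dvd_or_dvd h with h3 | h3
      · exact hnum i _ (hr i) h3
      · have h4 : (n + 1) ∣ ∏ i' ∈ univ.erase i, (r i').den := by exact_mod_cast h3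
        apply hDp
        rw [hD, ← Finset.mul_prod_erase univ (fun i => (r i).den) (mem_univ i)]
        exact h4.mul_left _
  choose m hm hmp using hDi
  have hsumZ : ∑ i, (m i) ^ n = (D : ℤ) ^ n := by
    have h1 : ((∑ i, (m i) ^ n : ℤ) : ℚ) = (((D : ℤ) ^ n : ℤ) : ℚ) := by
      push_cast
      calc ∑ i, (m i : ℚ) ^ n = ∑ i, (D : ℚ) ^ n * (r i) ^ n := by
            refine Finset.sum_congr rfl fun i _ => ?_
            rw [← hm i, mul_pow]
        _ = (D : ℚ) ^ n := by rw [← Finset.mul_sum, hsum, mul_one]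
    exact_mod_cast h1
  have hz : ((∑ i, (m i) ^ n : ℤ) : ZMod (n + 1)) = (((D : ℤ) ^ n : ℤ) : ZMod (n + 1)) := by
    rw [hsumZ]
  push_cast at hz
  have h1 : ∀ i, ((m i : ℤ) : ZMod (n + 1)) ^ n = 1 := by
    intro i
    have h2 : ((m i : ℤ) : ZMod (n + 1)) ≠ 0 := by
      intro h
      exact hmp i ((ZMod.intCast_zmod_eq_zero_iff_dvd (m i) (n + 1)).1 h)
    have := ZMod.pow_card_sub_one_eq_one h2
    simpa using this
  have h2 : ((D : ℕ) : ZMod (n + 1)) ^ n = 1 := by
    have h3 : ((D : ℕ) : ZMod (n + 1)) ≠ 0 := by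
      intro h
      exact hDp ((ZMod.natCast_eq_zero_iff D (n + 1)).1 h)
    have := ZMod.pow_card_sub_one_eq_one h3
    simpa using this
  rw [h2, Finset.sum_congr rfl fun i _ => h1 i] at hz
  simp only [sum_const, card_univ, Fintype.card_fin, nsmul_eq_mul, mul_one] at hz
  rw [← ZMod.natCast_eq_natCast_iff]
  push_cast
  exact hz

end Pool.Agent.MP9df71a.Denom
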