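import Pool.Agent.Lib.MP_9df71a_co.DenomBox

/-!
Exponential moment test: in a tiling with few cubes, most of the volume of the cubes whose side is
not divisible by the prime `q` lies in cubes with few left ends divisible by `q`.
-/

open Finset

namespace Pool.Agent.MP9df71a.Denom

/-- `1 + tδ ≥ exp (tδ - t²)` for `0 ≤ t ≤ 1/2` and `|δ| ≤ 1`. -/
theorem exp_le_one_add {y : ℝ} (hy : |y| ≤ 1 / 2) : Real.exp (y - y ^ 2) ≤ 1 + y := by
  obtain ⟨h1, h2⟩ := abs_le.1 hy
  rcases le_or_gt 0 y with h0 | h0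
  · have h3 : |y - y ^ 2| ≤ 1 := by
      rw [abs_le]
      constructor <;> nlinarith
    have h4 := abs_le.1 (Real.abs_exp_sub_one_sub_id_le h3)
    nlinarith [h4.2, mul_nonneg h0 h0, mul_nonneg (mul_nonneg h0 h0) h0]
  · set w := -y with hw
    have hw0 : 0 < w := by linarith
    have hw1 : w ≤ 1 / 2 := by linarith
    have h3 : 1 + (w + w ^ 2) + (w + w ^ 2) ^ 2 / 2 ≤ Real.exp (w + w ^ 2) :=
      Real.quadratic_le_exp_of_nonneg (by positivity)
    have h4 : y - y ^ 2 = -(w + w ^ 2) := by rw [hw]; ring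
    have h5 : 1 + y = 1 - w := by rw [hw]; ring
    rw [h4, h5, Real.exp_neg, inv_le_comm₀ (Real.exp_pos _) (by linarith)]
    refine le_trans ?_ h3
    rw [inv_le_iff_one_le_mul₀ (by linarith)]
    have h6 : 0 ≤ (1 / 2 - w) := by linarith
    nlinarith [mul_nonneg (mul_nonneg hw0.le hw0.le) h6,
      mul_nonneg (mul_nonneg (mul_nonneg hw0.le hw0.le) h6) hw0.le,
      mul_nonneg (mul_nonneg (mul_nonneg (mul_nonneg hw0.le hw0.le) h6) hw0.le) hw0.le,
      mul_nonneg hw0.le hw0.le]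

theorem exp_le_one_add_mul {t δ : ℝ} (ht0 : 0 ≤ t) (ht : t ≤ 1 / 2) (hδ : |δ| ≤ 1) :
    Real.exp (t * δ - t ^ 2) ≤ 1 + t * δ := by
  have h1 : |t * δ| ≤ t := by
    rw [abs_mul, abs_of_nonneg ht0]
    exact mul_le_of_le_one_right ht0 hδ
  have h2 : (t * δ) ^ 2 ≤ t ^ 2 := by
    rw [← sq_abs (t * δ)]
    exact pow_le_pow_left₀ (abs_nonneg _) h1 2
  refine le_trans (Real.exp_le_exp.2 ?_) (exp_le_one_add (h1.trans ht))
  linarith

/-- The sawtooth test function. -/
noncomputable def saw {q : ℕ} (l u : ZMod q) : ℝ :=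
  if u = 0 then 0 else 1 - ((l * u).val : ℝ) / q

section saw

variable {q : ℕ} [Fact q.Prime]

theorem val_div_lt (u : ZMod q) : ((u.val : ℝ) / q) < 1 := by
  have hq : (0 : ℝ) < q := by exact_mod_cast (Fact.out : q.Prime).pos
  rw [div_lt_one hq]
  exact_mod_cast ZMod.val_lt u

theorem val_div_nonneg (u : ZMod q) : 0 ≤ ((u.val : ℝ) / q) := by positivity

theorem val_add_cases (u v : ZMod q) :
    ((u + v).val : ℝ) / q = (u.val : ℝ) / q + (v.val : ℝ) / q ∨
    ((u + v).val : ℝ) / q = (u.val : ℝ) / q + (v.val : ℝ) / q - 1 := by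
  have hq : (0 : ℝ) < q := by exact_mod_cast (Fact.out : q.Prime).pos
  rcases lt_or_ge (u.val + v.val) q with h | h
  · left
    rw [ZMod.val_add_of_lt h]
    push_cast
    ring
  · right
    have := ZMod.val_add_val_of_le h
    have h2 : ((u.val : ℝ)) + v.val = (u + v).val + q := by exact_mod_cast this
    field_simp
    linarith

theorem saw_ge {l u f : ZMod q} (hl : l ≠ 0) (hf : f ≠ 0) :
    (if u = 0 then 1 else 0) - ((l * f).val : ℝ) / q ≤ saw l (u + f) - saw l u := by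
  by_cases hu : u = 0
  · subst hu
    simp [saw, hf]
  · have h1 := val_add_cases (l * u) (l * f)
    have h2 := val_div_lt (l * u)
    have h3 := val_div_nonneg (l * u)
    have h4 := val_div_nonneg (l * f)
    have h5 := val_div_lt (l * f)
    rw [← mul_add] at h1
    by_cases huf : u + f = 0
    · rw [huf] at h1
      simp only [mul_zero, ZMod.val_zero, Nat.cast_zero, zero_div] at h1
      have h7 : (l * u).val ≠ 0 := by
        rw [Ne, ZMod.val_eq_zero]
        exact mul_ne_zero hl hu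
      have hq : (0 : ℝ) < q := by exact_mod_cast (Fact.out : q.Prime).pos
      have h8 : 0 < ((l * u).val : ℝ) / q := by
        apply div_pos _ hq
        exact_mod_cast Nat.pos_of_ne_zero h7
      simp only [saw, huf, hu, if_true, if_false]
      rcases h1 with h1 | h1 <;> linarith
    · simp only [saw, huf, hu, if_false]
      rcases h1 with h1 | h1 <;> linarith

theorem saw_mem (l u : ZMod q) : 0 ≤ saw l u ∧ saw l u ≤ 1 := by
  unfold saw
  split_ifs with h
  · simp
  · have h1 := val_div_lt (l * u)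
    have h2 := val_div_nonneg (l * u)
    constructor <;> linarith

theorem abs_saw_sub (l u v : ZMod q) : |saw l u - saw l v| ≤ 1 := by
  have h1 := saw_mem l u
  have h2 := saw_mem l v
  rw [abs_le]
  constructor <;> linarith [h1.1, h1.2, h2.1, h2.2]

end saw

namespace IT

variable {n N : ℕ} {ι : Type} (t : IT n N ι) [Fintype ι] [DecidableEq ι]

/-- Tiles whose side is not divisible by `q`. -/
def act (q : ℕ) : Finset ι := univ.filter fun i => ¬ q ∣ t.s i

/-- Total volume of the active tiles. -/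
noncomputable def vol (q : ℕ) : ℝ := ∑ i ∈ t.act q, (t.s i : ℝ) ^ n

variable {q : ℕ}

omit [DecidableEq ι] in
theorem mem_act {i : ι} : i ∈ t.act q ↔ ¬ q ∣ t.s i := by simp [act]

/-- The wall difference of a test function. -/
noncomputable def dl (ψ : ZMod q → ℝ) (i : ι) (j : Fin n) : ℝ :=
  ψ ((t.a i j + t.s i : ℕ) : ZMod q) - ψ ((t.a i j : ℕ) : ZMod q)

theorem active_identity (hqN : q ∣ N) (ψ : ZMod q → ℝ) (z : ℝ) :
    ∑ i ∈ t.act q, ∏ j, ((t.s i : ℝ) + z * t.dl ψ i j) = t.vol q := by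
  have h1 := t.identity (fun x => (x : ℝ) + z * ψ (x : ZMod q))
  have h2 := t.identity (fun x => (x : ℝ))
  have hN : ((N : ℕ) : ZMod q) = 0 := (ZMod.natCast_eq_zero_iff N q).2 hqN
  have h3 : ∀ i, ∏ j, (((t.a i j + t.s i : ℕ) : ℝ) + z * ψ ((t.a i j + t.s i : ℕ) : ZMod q) -
      (((t.a i j : ℕ) : ℝ) + z * ψ ((t.a i j : ℕ) : ZMod q))) =
      ∏ j, ((t.s i : ℝ) + z * t.dl ψ i j) := by
    intro i
    refine Finset.prod_congr rfl fun j _ => ?_
    unfold dl
    push_cast
    ring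
  have h4 : ∀ i, ∏ j : Fin n, (((t.a i j + t.s i : ℕ) : ℝ) - ((t.a i j : ℕ) : ℝ)) =
      (t.s i : ℝ) ^ n := by
    intro i
    have : ∀ j : Fin n, (((t.a i j + t.s i : ℕ) : ℝ) - ((t.a i j : ℕ) : ℝ)) = t.s i := by
      intro j
      push_cast
      ring
    simp [this]
  simp only [h3] at h1
  simp only [h4] at h2
  have h5 : ∑ i, ∏ j, ((t.s i : ℝ) + z * t.dl ψ i j) = ∑ i, (t.s i : ℝ) ^ n := by
    rw [h1, h2, hN]
    simp
  have h6 : ∀ i ∈ (univ.filter fun i => ¬ ¬ q ∣ t.s i),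
      ∏ j, ((t.s i : ℝ) + z * t.dl ψ i j) = (t.s i : ℝ) ^ n := by
    intro i hi
    have hd : q ∣ t.s i := by simpa using hi
    have : ∀ j : Fin n, ((t.s i : ℝ) + z * t.dl ψ i j) = t.s i := by
      intro j
      have : ((t.a i j + t.s i : ℕ) : ZMod q) = ((t.a i j : ℕ) : ZMod q) := by
        push_cast
        rw [(ZMod.natCast_eq_zero_iff _ _).2 hd, add_zero]
      simp [dl, this]
    simp [this]
  rw [← Finset.sum_filter_add_sum_filter_not univ (fun i => ¬ q ∣ t.s i),
    ← Finset.sum_filter_add_sum_filter_not univ (fun i => ¬ q ∣ t.s i) (fun i => (t.s i : ℝ) ^ n),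
    Finset.sum_congr rfl h6] at h5
  unfold vol act
  linarith

/-- The exponential moment bound. -/
theorem test_bound {C ε η v : ℝ} (hC : 1 ≤ C) (hk : (Fintype.card ι : ℝ) ≤ C ^ n)
    (hε : 0 < ε) (hε2 : ε ≤ 1 / 2) (hη : 0 < η) (hη2 : η ≤ 2 * ε) (hv : 0 < v)
    (hV : v ^ n = t.vol q) (hs : ∀ i ∈ t.act q, (t.s i : ℝ) ≤ v)
    (hqN : q ∣ N) (ψ : ZMod q → ℝ) (hψ : ∀ u w, |ψ u - ψ w| ≤ 1) :
    (∑ i ∈ (t.act q).filter (fun i => (1 - ε) * v / C ≤ t.s i ∧ η * n ≤ ∑ j, t.dl ψ i j),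
      (t.s i : ℝ) ^ n) * Real.exp (η ^ 2 * n / (8 * C)) ≤ 2 * t.vol q := by
  set σ : ℝ := (1 - ε) * v / C with hσ
  have hC0 : 0 < C := by linarith
  have hσ0 : 0 < σ := div_pos (mul_pos (by linarith) hv) hC0
  set ζ : ℝ := η / 2 with hζ
  set z : ℝ := ζ * σ with hz
  have hζ0 : 0 < ζ := by positivity
  have hζ1 : ζ ≤ ε := by linarith
  have hz0 : 0 < z := mul_pos hζ0 hσ0
  have hdl : ∀ i j, |t.dl ψ i j| ≤ 1 := fun i j => hψ _ _
  set P : ι → ℝ := fun i => ∏ j, ((t.s i : ℝ) + z * t.dl ψ i j) with hP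
  have hid : ∑ i ∈ t.act q, P i = t.vol q := t.active_identity hqN ψ z
  -- small tiles
  have hsmall : ∀ i ∈ (t.act q).filter (fun i => ¬ σ ≤ t.s i), |P i| ≤ (σ + z) ^ n := by
    intro i hi
    rw [mem_filter, not_le] at hi
    rw [hP]
    simp only
    rw [Finset.abs_prod]
    calc ∏ j, |(t.s i : ℝ) + z * t.dl ψ i j| ≤ ∏ _j : Fin n, (σ + z) := by
          refine Finset.prod_le_prod (fun j _ => abs_nonneg _) fun j _ => ?_
          refine (abs_add_le _ _).trans ?_
          rw [abs_mul, abs_of_pos hz0, abs_of_nonneg (by positivity : (0 : ℝ) ≤ t.s i)]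
          have := mul_le_of_le_one_right hz0.le (hdl i j)
          linarith [hi.2]
      _ = (σ + z) ^ n := by simp
  have hsum : ∑ i ∈ (t.act q).filter (fun i => ¬ σ ≤ t.s i), |P i| ≤ t.vol q := by
    calc ∑ i ∈ (t.act q).filter (fun i => ¬ σ ≤ t.s i), |P i|
        ≤ ∑ _i ∈ (t.act q).filter (fun i => ¬ σ ≤ t.s i), (σ + z) ^ n :=
          Finset.sum_le_sum hsmall
      _ = (((t.act q).filter (fun i => ¬ σ ≤ t.s i)).card : ℝ) * (σ + z) ^ n := by
          rw [Finset.sum_const, nsmul_eq_mul]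
      _ ≤ C ^ n * (σ + z) ^ n := by
          refine mul_le_mul_of_nonneg_right (le_trans ?_ hk) (by positivity)
          exact_mod_cast Finset.card_le_univ _
      _ = (C * (σ + z)) ^ n := (mul_pow _ _ _).symm
      _ ≤ v ^ n := by
          refine pow_le_pow_left₀ (by positivity) ?_ n
          have h1 : C * (σ + z) = (1 - ε) * (1 + ζ) * v := by
            rw [hz, hσ]
            field_simp
          rw [h1]
          have h2 : (1 - ε) * (1 + ζ) ≤ 1 := by nlinarith
          nlinarith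
      _ = t.vol q := hV
  have hlarge : ∑ i ∈ (t.act q).filter (fun i => σ ≤ t.s i), P i ≤ 2 * t.vol q := by
    have h1 := Finset.sum_filter_add_sum_filter_not (t.act q) (fun i => σ ≤ (t.s i : ℝ)) P
    have h2 : -∑ i ∈ (t.act q).filter (fun i => ¬ σ ≤ t.s i), P i ≤
        ∑ i ∈ (t.act q).filter (fun i => ¬ σ ≤ t.s i), |P i| := by
      rw [← Finset.sum_neg_distrib]
      exact Finset.sum_le_sum fun i _ => neg_le_abs _
    linarith
  have hPnn : ∀ i ∈ (t.act q).filter (fun i => σ ≤ t.s i), 0 ≤ P i := by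
    intro i hi
    rw [mem_filter] at hi
    refine Finset.prod_nonneg fun j _ => ?_
    have h1 := abs_le.1 (hdl i j)
    have h2 : -z ≤ z * t.dl ψ i j := by nlinarith [h1.1]
    have h3 : z ≤ σ := by
      rw [hz]
      exact mul_le_of_le_one_left hσ0.le (by linarith)
    linarith [hi.2]
  have hsub : (t.act q).filter (fun i => σ ≤ t.s i ∧ η * n ≤ ∑ j, t.dl ψ i j) ⊆
      (t.act q).filter (fun i => σ ≤ t.s i) := by
    intro i hi
    rw [mem_filter] at hi ⊢
    exact ⟨hi.1, hi.2.1⟩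
  have hbad : ∑ i ∈ (t.act q).filter (fun i => σ ≤ t.s i ∧ η * n ≤ ∑ j, t.dl ψ i j), P i ≤
      2 * t.vol q :=
    le_trans (Finset.sum_le_sum_of_subset_of_nonneg hsub fun i hi _ => hPnn i hi) hlarge
  refine le_trans ?_ hbad
  rw [Finset.sum_mul]
  refine Finset.sum_le_sum fun i hi => ?_
  rw [mem_filter] at hi
  obtain ⟨hia, hiσ, hib⟩ := hi
  have hs0 : (0 : ℝ) < t.s i := by exact_mod_cast t.pos i
  set τ : ℝ := z / t.s i with hτ
  have hτ0 : 0 < τ := div_pos hz0 hs0
  have hτ1 : τ ≤ ζ := by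
    rw [hτ, div_le_iff₀ hs0, hz]
    exact mul_le_mul_of_nonneg_left hiσ hζ0.le
  have hτ2 : ζ * (1 - ε) / C ≤ τ := by
    rw [hτ, le_div_iff₀ hs0, hz, hσ]
    calc ζ * (1 - ε) / C * (t.s i : ℝ) ≤ ζ * (1 - ε) / C * v := by
          refine mul_le_mul_of_nonneg_left (hs i hia) ?_
          exact div_nonneg (mul_nonneg hζ0.le (by linarith)) hC0.le
      _ = ζ * ((1 - ε) * v / C) := by ring
  have h1 : ∀ j, (t.s i : ℝ) * Real.exp (τ * t.dl ψ i j - τ ^ 2) ≤
      (t.s i : ℝ) + z * t.dl ψ i j := by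
    intro j
    have h2 := exp_le_one_add_mul hτ0.le (by linarith : τ ≤ 1 / 2) (hdl i j)
    calc (t.s i : ℝ) * Real.exp (τ * t.dl ψ i j - τ ^ 2)
        ≤ (t.s i : ℝ) * (1 + τ * t.dl ψ i j) := mul_le_mul_of_nonneg_left h2 hs0.le
      _ = (t.s i : ℝ) + z * t.dl ψ i j := by
          rw [hτ]
          field_simp
  calc (t.s i : ℝ) ^ n * Real.exp (η ^ 2 * n / (8 * C))
      ≤ (t.s i : ℝ) ^ n * Real.exp (∑ j, (τ * t.dl ψ i j - τ ^ 2)) := by
        refine mul_le_mul_of_nonneg_left (Real.exp_le_exp.2 ?_) (by positivity)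
        rw [Finset.sum_sub_distrib, ← Finset.mul_sum]
        simp only [Finset.sum_const, card_univ, Fintype.card_fin, nsmul_eq_mul]
        have h3 : τ * (η * n) ≤ τ * ∑ j, t.dl ψ i j := mul_le_mul_of_nonneg_left hib hτ0.le
        have h4 : (n : ℝ) * τ ^ 2 ≤ τ * (η * n) / 2 := by
          have : (0 : ℝ) ≤ n := by positivity
          have h5 : τ ^ 2 ≤ τ * η / 2 := by nlinarith
          nlinarith
        have h6 : η ^ 2 * n / (8 * C) ≤ τ * (η * n) / 2 := by
          have h7 : η / (4 * C) ≤ τ := by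
            refine le_trans ?_ hτ2
            rw [hζ, div_le_div_iff₀ (by positivity) hC0]
            have : 0 < η * C := by positivity
            nlinarith
          have h8 : η ^ 2 * n / (8 * C) = η / (4 * C) * (η * n) / 2 := by
            field_simp
            ring
          rw [h8]
          have : 0 ≤ η * n := by positivity
          nlinarith
        linarith
    _ = ∏ j, ((t.s i : ℝ) * Real.exp (τ * t.dl ψ i j - τ ^ 2)) := by
        rw [Finset.prod_mul_distrib, Real.exp_sum]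
        simp
    _ ≤ P i := by
        refine Finset.prod_le_prod (fun j _ => by positivity) fun j _ => h1 j

end IT

end Pool.Agent.MP9df71a.Denom
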