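import Pool.Agent.Lib.MP_9df71a_co.DenomBox

/-!
Tilings with few side lengths: the loop lemma and the induction over the directions.
-/

open Finset

namespace Pool.Agent.MP9df71a.Few

open Pool.Agent.MP9df71a.Denom

variable {n N : ℕ} {ι : Type} (t : IT n N ι)

/-- right end of a tile -/
def rt (i : ι) (j : Fin n) : ℕ := t.a i j + t.s i

/-- the wall identity with different functions in the different directions -/
theorem tensor_identity [Fintype ι] [DecidableEq ι] (f : Fin n → ℕ → ℤ) :
    ∑ i, ∏ j, (f j (t.a i j + t.s i) - f j (t.a i j)) = ∏ j, (f j N - f j 0) := by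
  have h1 : ∀ (j : Fin n) (b c : ℕ), ∑ y ∈ Ico b (b + c), (f j (y + 1) - f j y) =
      f j (b + c) - f j b := by
    intro j b c
    rw [Finset.sum_Ico_eq_sum_range, show b + c - b = c by omega]
    have := Finset.sum_range_sub (fun y => f j (b + y)) c
    simpa [add_assoc] using this
  have hcells : ∀ g : (Fin n → ℕ) → ℤ,
      ∑ x ∈ Fintype.piFinset (fun _ : Fin n => range N), g x =
        ∑ i, ∑ x ∈ t.cells i, g x := by
    intro g
    rw [← Finset.sum_biUnion (fun i _ i' _ h => t.disj (Set.mem_univ i) (Set.mem_univ i') h)]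
    congr 1
    ext x
    simp only [Fintype.mem_piFinset, mem_range, mem_biUnion, mem_univ, true_and]
    exact ⟨fun h => t.exists_mem h, fun ⟨i, hi⟩ j => t.lt_of_mem hi j⟩
  calc ∑ i, ∏ j, (f j (t.a i j + t.s i) - f j (t.a i j))
      = ∑ i, ∏ j, ∑ y ∈ Ico (t.a i j) (t.a i j + t.s i), (f j (y + 1) - f j y) := by
        simp only [h1]
    _ = ∑ i, ∑ x ∈ t.cells i, ∏ j, (f j (x j + 1) - f j (x j)) := by
        refine Finset.sum_congr rfl fun i _ => ?_
        rw [Finset.prod_univ_sum]
        rfl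
    _ = ∑ x ∈ Fintype.piFinset (fun _ : Fin n => range N), ∏ j, (f j (x j + 1) - f j (x j)) :=
        (hcells _).symm
    _ = ∏ j : Fin n, ∑ y ∈ range N, (f j (y + 1) - f j y) := by
        rw [Finset.prod_univ_sum]
    _ = ∏ j, (f j N - f j 0) := by
        simp only [Finset.sum_range_sub]

/-- the chain function: reachable from `r0` modulo `h` by steps of length `q` starting in `C` -/
def Chain (C : Finset ℕ) (q h r0 w : ℕ) : Prop :=
  ∃ j : ℕ, w ≡ r0 + j * q [MOD h] ∧ ∀ i < j, ∃ c ∈ C, c ≡ r0 + i * q [MOD h]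

theorem chain_self (C : Finset ℕ) (q h r0 : ℕ) : Chain C q h r0 r0 :=
  ⟨0, by simp [Nat.ModEq], fun i hi => absurd hi (Nat.not_lt_zero i)⟩

theorem chain_congr {C : Finset ℕ} {q h r0 w w' : ℕ} (hw : w ≡ w' [MOD h])
    (hc : Chain C q h r0 w) : Chain C q h r0 w' := by
  obtain ⟨j, hj, hi⟩ := hc
  exact ⟨j, hw.symm.trans hj, hi⟩

theorem chain_step {C : Finset ℕ} {q h r0 l m : ℕ} (hl : Chain C q h r0 l)
    (hC : ∀ i < m, l + i * q ∈ C) : Chain C q h r0 (l + m * q) := by
  obtain ⟨j, hj, hi⟩ := hl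
  refine ⟨j + m, ?_, ?_⟩
  · have := hj.add_right (m * q)
    rw [add_mul, ← add_assoc]
    exact this
  · intro i him
    rcases Nat.lt_or_ge i j with h1 | h1
    · exact hi i h1
    · refine ⟨l + (i - j) * q, hC _ (by omega), ?_⟩
      have := hj.add_right ((i - j) * q)
      have h2 : r0 + j * q + (i - j) * q = r0 + i * q := by
        obtain ⟨d, rfl⟩ := Nat.exists_eq_add_of_le h1
        rw [Nat.add_sub_cancel_left]
        ring
      rw [h2] at this
      exact this

/-- a closed chain has at least `h / gcd(h, q)` elements -/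
theorem card_of_loop {C : Finset ℕ} {q h l m : ℕ} (hq : 0 < q) (hh : 0 < h) (hm : 0 < m)
    (hC : ∀ i < m, l + i * q ∈ C) (hc : Chain C q h (l + m * q) l) :
    h / Nat.gcd h q ≤ C.card := by
  obtain ⟨j, hj, hi⟩ := hc
  -- all residues `l + i q`, `i < m + j`, are residues of `C`
  have hall : ∀ i < m + j, ∃ c ∈ C, c ≡ l + i * q [MOD h] := by
    intro i hij
    rcases Nat.lt_or_ge i m with h1 | h1
    · exact ⟨_, hC i h1, Nat.ModEq.refl _⟩
    · obtain ⟨c, hc, hce⟩ := hi (i - m) (by omega)
      refine ⟨c, hc, ?_⟩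
      have h2 : l + m * q + (i - m) * q = l + i * q := by
        obtain ⟨d, rfl⟩ := Nat.exists_eq_add_of_le h1
        rw [Nat.add_sub_cancel_left]
        ring
      rwa [h2] at hce
  -- the length of the loop is a multiple of `h' = h / gcd`
  have hg : 0 < Nat.gcd h q := Nat.gcd_pos_of_pos_left _ hh
  have hdvd : h ∣ (m + j) * q := by
    have h1 : l + 0 ≡ l + (m + j) * q [MOD h] := by
      rw [add_zero]
      have h2 : l + m * q + j * q = l + (m + j) * q := by ring
      rw [← h2]
      exact hj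
    have h3 : 0 ≡ (m + j) * q [MOD h] := Nat.ModEq.add_left_cancel' l h1
    exact (Nat.modEq_zero_iff_dvd.mp h3.symm)
  have hdvd' : h / Nat.gcd h q ∣ m + j := by
    have h1 : Nat.Coprime (h / Nat.gcd h q) (q / Nat.gcd h q) :=
      Nat.coprime_div_gcd_div_gcd hg
    refine h1.dvd_of_dvd_mul_right ?_
    obtain ⟨e, he⟩ := hdvd
    have h2 : q = Nat.gcd h q * (q / Nat.gcd h q) := (Nat.mul_div_cancel' (Nat.gcd_dvd_right h q)).symm
    have h3 : h = Nat.gcd h q * (h / Nat.gcd h q) := (Nat.mul_div_cancel' (Nat.gcd_dvd_left h q)).symm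
    refine ⟨e, ?_⟩
    have h4 : Nat.gcd h q * ((m + j) * (q / Nat.gcd h q)) =
        Nat.gcd h q * (h / Nat.gcd h q * e) := by
      calc Nat.gcd h q * ((m + j) * (q / Nat.gcd h q))
          = (m + j) * (Nat.gcd h q * (q / Nat.gcd h q)) := by ring
        _ = (m + j) * q := by rw [← h2]
        _ = h * e := he
        _ = Nat.gcd h q * (h / Nat.gcd h q) * e := by rw [← h3]
        _ = Nat.gcd h q * (h / Nat.gcd h q * e) := by ring
    exact Nat.eq_of_mul_eq_mul_left hg h4
  have hle : h / Nat.gcd h q ≤ m + j := Nat.le_of_dvd (by omega) hdvd'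
  -- choose representatives
  have hex : ∀ i : Fin (h / Nat.gcd h q), ∃ c ∈ C, c ≡ l + (i : ℕ) * q [MOD h] :=
    fun i => hall i (by have := i.isLt; omega)
  choose c hcC hc2 using hex
  have hinj : Function.Injective c := by
    intro i i' hii
    have h1 : l + (i : ℕ) * q ≡ l + (i' : ℕ) * q [MOD h] := by
      have := hc2 i
      rw [hii] at this
      exact this.symm.trans (hc2 i')
    have h2 : (i : ℕ) * q ≡ (i' : ℕ) * q [MOD h] := Nat.ModEq.add_left_cancel' l h1
    have h3 : (i : ℕ) ≡ (i' : ℕ) [MOD h / Nat.gcd h q] := Nat.ModEq.cancel_right_div_gcd hh h2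
    have h4 := Nat.ModEq.eq_of_lt_of_lt h3 i.isLt i'.isLt
    exact Fin.ext h4
  calc h / Nat.gcd h q = (univ : Finset (Fin (h / Nat.gcd h q))).card := by simp
    _ = (univ.image c).card := (card_image_of_injective _ hinj).symm
    _ ≤ C.card := by
        refine card_le_card fun x hx => ?_
        obtain ⟨i, -, rfl⟩ := mem_image.mp hx
        exact hcC i

end Pool.Agent.MP9df71a.Few
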