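import Pool.Agent.Lib.MP_9df71a_co.FewStep

/-!
Tilings with few side lengths: the inequality for integer tilings.
-/

open Finset

namespace Pool.Agent.MP9df71a.Few

open Pool.Agent.MP9df71a.Denom

variable {n N : ℕ} {ι : Type} [Fintype ι] [DecidableEq ι] (t : IT n N ι)

/-- the integer points of the projection of a tile to the directions in `B` -/
def proj (B : Finset (Fin n)) (i : ι) : Finset (Fin n → ℕ) :=
  Fintype.piFinset fun k => if k ∈ B then Ico (t.a i k) (t.a i k + t.s i) else {0}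

omit [Fintype ι] [DecidableEq ι] in
theorem card_proj (B : Finset (Fin n)) (i : ι) : (proj t B i).card = t.s i ^ B.card := by
  classical
  unfold proj
  rw [Fintype.card_piFinset]
  have h1 : ∀ k : Fin n, (if k ∈ B then Ico (t.a i k) (t.a i k + t.s i) else {0}).card =
      if k ∈ B then t.s i else 1 := by
    intro k
    split_ifs <;> simp
  rw [Finset.prod_congr rfl fun k _ => h1 k]
  simp

omit [Fintype ι] [DecidableEq ι] in
theorem mem_proj {B : Finset (Fin n)} {i : ι} {c : Fin n → ℕ} :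
    c ∈ proj t B i ↔ (∀ k ∈ B, t.a i k ≤ c k ∧ c k < t.a i k + t.s i) ∧ ∀ k, k ∉ B → c k = 0 := by
  unfold proj
  rw [Fintype.mem_piFinset]
  constructor
  · intro h
    refine ⟨fun k hk => ?_, fun k hk => ?_⟩
    · have := h k
      rw [if_pos hk, mem_Ico] at this
      exact this
    · have := h k
      rw [if_neg hk, mem_singleton] at this
      exact this
  · rintro ⟨h1, h2⟩ k
    by_cases hk : k ∈ B
    · rw [if_pos hk, mem_Ico]
      exact h1 k hk
    · rw [if_neg hk, mem_singleton]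
      exact h2 k hk

/-- a point of the projection of `i₀` which avoids the projections of the much smaller tiles -/
theorem exists_slice {l : ℝ} (hl : 1 ≤ l) (B : Finset (Fin n)) (i₀ : ι)
    (hK : (Fintype.card ι : ℝ) ≤ l ^ B.card) :
    ∃ c ∈ proj t B i₀, ∀ i, c ∈ proj t B i → (t.s i₀ : ℝ) ≤ l * t.s i := by
  classical
  by_contra hcon
  push Not at hcon
  set sm : Finset ι := univ.filter fun i => l * (t.s i : ℝ) < t.s i₀ with hsm
  have hsub : proj t B i₀ ⊆ sm.biUnion (proj t B) := by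
    intro c hc
    obtain ⟨i, hi, hlt⟩ := hcon c hc
    exact mem_biUnion.2 ⟨i, mem_filter.2 ⟨mem_univ _, hlt⟩, hi⟩
  have h1 : t.s i₀ ^ B.card ≤ ∑ i ∈ sm, t.s i ^ B.card := by
    calc t.s i₀ ^ B.card = (proj t B i₀).card := (card_proj t B i₀).symm
      _ ≤ (sm.biUnion (proj t B)).card := card_le_card hsub
      _ ≤ ∑ i ∈ sm, (proj t B i).card := card_biUnion_le
      _ = _ := sum_congr rfl fun i _ => card_proj t B i
  have h2 : (t.s i₀ : ℝ) ^ B.card ≤ ∑ i ∈ sm, (t.s i : ℝ) ^ B.card := by exact_mod_cast h1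
  have hl0 : (0 : ℝ) < l := by linarith
  have hs0 : (0 : ℝ) < t.s i₀ := by exact_mod_cast t.pos i₀
  have h3 : l ^ B.card * (t.s i₀ : ℝ) ^ B.card ≤ sm.card * (t.s i₀ : ℝ) ^ B.card := by
    calc l ^ B.card * (t.s i₀ : ℝ) ^ B.card ≤ l ^ B.card * ∑ i ∈ sm, (t.s i : ℝ) ^ B.card := by
          exact mul_le_mul_of_nonneg_left h2 (by positivity)
      _ = ∑ i ∈ sm, (l * (t.s i : ℝ)) ^ B.card := by
          rw [mul_sum]
          exact sum_congr rfl fun i _ => (mul_pow _ _ _).symm
      _ ≤ ∑ _i ∈ sm, (t.s i₀ : ℝ) ^ B.card := by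
          refine sum_le_sum fun i hi => ?_
          exact pow_le_pow_left₀ (by positivity) (mem_filter.1 hi).2.le _
      _ = _ := by rw [sum_const, nsmul_eq_mul]
  have h4 : l ^ B.card ≤ sm.card := le_of_mul_le_mul_right h3 (by positivity)
  have h5 : i₀ ∉ sm := by
    intro h
    have h6 := (mem_filter.1 h).2
    nlinarith
  have h6 : sm.card < Fintype.card ι := by
    rw [← card_univ]
    exact card_lt_card ⟨subset_univ _, fun h => h5 (h (mem_univ _))⟩
  have h7 : (sm.card : ℝ) < Fintype.card ι := by exact_mod_cast h6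
  linarith

/-- **The inequality for integer tilings.** -/
theorem int_few (hn : 0 < n) {q p : ℕ} (hq : 0 < q) (hqN : ¬ q ∣ N)
    (hpq : ∀ h, 0 < h → ¬ q ∣ h → Nat.gcd h q * p ≤ q) {l : ℝ} (hl : 1 ≤ l) {b R : ℕ}
    (hbR : b + R ≤ n + 1) (hR : (univ.image t.s).card ≤ R) (hspec : ∃ i, q ∣ t.s i) :
    l ^ b < Fintype.card ι ∨ ((p : ℝ) / l) ^ (n + 1 - b - R) ≤ Fintype.card ι := by
  classical
  by_cases hK : l ^ b < Fintype.card ι
  · exact Or.inl hK
  right
  push Not at hK
  -- a largest special tile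
  obtain ⟨i₀, hi₀, hmax⟩ := (univ.filter fun i => q ∣ t.s i).exists_max_image t.s (by
    obtain ⟨i, hi⟩ := hspec
    exact ⟨i, mem_filter.2 ⟨mem_univ _, hi⟩⟩)
  have hq0 : q ∣ t.s i₀ := (mem_filter.1 hi₀).2
  have hN0 : 0 < N := Nat.pos_of_ne_zero fun h => hqN (h ▸ dvd_zero q)
  have hs0 : 0 < t.s i₀ := t.pos i₀
  have hRpos : 0 < (univ.image t.s).card := card_pos.2 ⟨t.s i₀, mem_image_of_mem _ (mem_univ _)⟩
  have hbn : b ≤ n := by omega
  obtain ⟨B, -, hB⟩ := Finset.exists_subset_card_eq (s := (univ : Finset (Fin n))) (n := b)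
    (by simpa using hbn)
  subst hB
  obtain ⟨c, hc, hcs⟩ := exists_slice t hl B i₀ hK
  have hc' := (mem_proj t).1 hc
  set A : Finset (Fin n) := Bᶜ with hA
  have hnA : ∀ k, k ∉ A ↔ k ∈ B := fun k => by rw [hA, mem_compl, not_not]
  set F : Fin n → ℕ → ℤ := fun k w => if c k < w then 1 else 0 with hF
  set H : Finset ℕ :=
    insert N ((univ.filter fun i => ¬ q ∣ t.s i ∧ (t.s i₀ : ℝ) ≤ l * t.s i).image t.s) with hH
  have hHcard : H.card ≤ R := by
    have h1 : (univ.filter fun i => ¬ q ∣ t.s i ∧ (t.s i₀ : ℝ) ≤ l * t.s i).image t.s ⊆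
        (univ.image t.s).erase (t.s i₀) := by
      intro x hx
      obtain ⟨i, hi, rfl⟩ := mem_image.1 hx
      refine mem_erase.2 ⟨?_, mem_image_of_mem _ (mem_univ _)⟩
      intro h
      exact (mem_filter.1 hi).2.1 (h ▸ hq0)
    have h2 := card_le_card h1
    rw [card_erase_of_mem (mem_image_of_mem _ (mem_univ _))] at h2
    have h3 : H.card ≤
        ((univ.filter fun i => ¬ q ∣ t.s i ∧ (t.s i₀ : ℝ) ≤ l * t.s i).image t.s).card + 1 :=
      card_insert_le _ _
    omega
  have hl0 : (0 : ℝ) < l := by linarith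
  have hsmall : ∀ h ∈ H, 0 < h ∧ ¬ q ∣ h ∧ (t.s i₀ : ℝ) ≤ l * h := by
    intro h hh
    rcases mem_insert.1 hh with rfl | hh
    · refine ⟨hN0, hqN, ?_⟩
      have h1 : t.s i₀ ≤ h := by
        have := t.le i₀ ⟨0, hn⟩
        omega
      have h2 : (t.s i₀ : ℝ) ≤ h := by exact_mod_cast h1
      have h3 : (0 : ℝ) ≤ h := Nat.cast_nonneg _
      nlinarith
    · obtain ⟨i, hi, rfl⟩ := mem_image.1 hh
      exact ⟨t.pos i, (mem_filter.1 hi).2.1, (mem_filter.1 hi).2.2⟩
  have hdata : Data t q A H F := by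
    refine ⟨?_, ?_, mem_insert_self _ _, ?_⟩
    · intro k _ w
      simp only [hF]
      split_ifs <;> simp
    · intro k _ i _
      simp only [hF]
      by_cases h : c k < t.a i k
      · rw [if_pos h, if_pos (by omega)]
      · rw [if_neg h]
        split_ifs <;> norm_num
    · intro i hi hne
      refine mem_insert_of_mem (mem_image.2 ⟨i, mem_filter.2 ⟨mem_univ _, hi, ?_⟩, rfl⟩)
      refine hcs i ((mem_proj t).2 ⟨fun k hk => ?_, hc'.2⟩)
      have h1 := hne k ((hnA k).2 hk)
      simp only [hF] at h1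
      by_cases h2 : c k < t.a i k
      · rw [if_pos h2, if_pos (by omega)] at h1
        exact absurd rfl h1
      · rw [if_neg h2] at h1
        by_cases h3 : c k < t.a i k + t.s i
        · exact ⟨by omega, h3⟩
        · rw [if_neg h3] at h1
          exact absurd rfl h1
  have hne : (Sp t q A F).Nonempty := by
    refine ⟨i₀, (mem_Sp t).2 ⟨hq0, fun k hk => ?_⟩⟩
    have h1 := hc'.1 k ((hnA k).1 hk)
    simp only [hF]
    rw [if_neg (by omega), if_pos h1.2]
    exact ⟨rfl, rfl⟩
  have hAcard : A.card = n - B.card := by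
    rw [hA, card_compl, Fintype.card_fin]
  have hcore := core t (p := p) (smax := t.s i₀) (M := (p : ℝ) / l) hq hs0 (by positivity)
    (fun i hi => hmax i (mem_filter.2 ⟨mem_univ _, hi⟩)) (n + 1 - B.card - R) A H F
    (by omega) hdata (by
      intro h hh
      obtain ⟨h1, h2, h3⟩ := hsmall h hh
      refine ⟨h1, hpq h h1 h2, ?_⟩
      rw [div_mul_eq_mul_div, div_le_iff₀ hl0]
      have : (0 : ℝ) ≤ p := Nat.cast_nonneg _
      nlinarith) hne
  refine hcore.trans ?_
  exact_mod_cast card_le_univ _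

end Pool.Agent.MP9df71a.Few
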