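import Pool.Agent.Lib.MP_9df71a_co.FewMain
import Pool.Agent.Lib.MP_9df71a_co.DenomAsym

/-!
Tilings with few side lengths: real tilings and the asymptotic form.
-/

open Finset N0a8789b9 Filter Topology

namespace Pool.Agent.MP9df71a.Few

open Pool.Agent.MP9df71a.Denom

theorem gcd_prime_pow {p v h : ℕ} (hp : p.Prime) (h1 : ¬ p ^ (v + 1) ∣ h) :
    Nat.gcd h (p ^ (v + 1)) * p ≤ p ^ (v + 1) := by
  obtain ⟨j, hj, hje⟩ := (Nat.dvd_prime_pow hp).1 (Nat.gcd_dvd_right h (p ^ (v + 1)))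
  rw [hje]
  have h2 : j ≠ v + 1 := by
    rintro rfl
    exact h1 (hje ▸ Nat.gcd_dvd_left h (p ^ (v + 1)))
  rw [← pow_succ]
  exact Nat.pow_le_pow_right hp.pos (by omega)

/-- **The inequality for tilings of the unit cube.** -/
theorem real_few {n k : ℕ} (hn : 2 ≤ n) {tiles : Fin k → Cube n} (ht : IsTiling tiles) {p : ℕ}
    (hp : p.Prime) {i : Fin k} {r : ℚ} (hr : (tiles i).side = r) (hpr : (p : ℤ) ∣ r.num)
    {l : ℝ} (hl : 1 ≤ l) {b R : ℕ} (hbR : b + R ≤ n + 1)
    (hR : (univ.image fun i => (tiles i).side).card ≤ R) :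
    l ^ b < k ∨ ((p : ℝ) / l) ^ (n + 1 - b - R) ≤ k := by
  classical
  obtain ⟨D, hD⟩ := exists_clears hn ht
  obtain ⟨t, hs, -⟩ := exists_IT ht hD
  have hD0 : 0 < D := hD.1
  have hDr : (0 : ℝ) < D := by exact_mod_cast hD0
  set v := D.factorization p with hv
  have hqN : ¬ p ^ (v + 1) ∣ D := Nat.pow_succ_factorization_not_dvd hD0.ne' hp
  have hq : 0 < p ^ (v + 1) := Nat.pow_pos hp.pos
  have hRt : (univ.image t.s).card ≤ R := by
    refine le_trans ?_ hR
    have h1 : (univ.image t.s).card = (univ.image fun i => (t.s i : ℝ)).card := by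
      rw [show (fun i => (t.s i : ℝ)) = (fun m : ℕ => (m : ℝ)) ∘ t.s from rfl,
        ← Finset.image_image]
      exact (card_image_of_injective _ Nat.cast_injective).symm
    have h2 : (univ.image fun i => (t.s i : ℝ)) =
        (univ.image fun i => (tiles i).side).image fun x => (D : ℝ) * x := by
      rw [Finset.image_image]
      exact Finset.image_congr fun i _ => hs i
    rw [h1, h2]
    exact card_image_le
  have hspec : ∃ i, p ^ (v + 1) ∣ t.s i := by
    refine ⟨i, ?_⟩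
    have h1 : (t.s i : ℚ) = D * r := by
      have := hs i
      rw [hr] at this
      exact_mod_cast this
    have h2 : (t.s i : ℤ) * r.den = D * r.num := by
      have h3 : r * r.den = r.num := Rat.mul_den_eq_num r
      have h4 : (t.s i : ℚ) * r.den = D * r.num := by rw [h1, mul_assoc, h3]
      exact_mod_cast h4
    have hpv : (p : ℤ) ^ v ∣ (D : ℤ) := by
      exact_mod_cast Nat.ordProj_dvd D p
    have h5 : (p : ℤ) ^ (v + 1) ∣ (t.s i : ℤ) * r.den := by
      rw [h2, pow_succ]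
      exact mul_dvd_mul hpv hpr
    have h6 : p ^ (v + 1) ∣ t.s i * r.den := by exact_mod_cast h5
    have h7 : Nat.Coprime (p ^ (v + 1)) r.den := by
      apply Nat.Coprime.pow_left
      rw [hp.coprime_iff_not_dvd]
      intro h8
      have h9 : p ∣ r.num.natAbs := Int.natCast_dvd.1 hpr
      have h10 := Nat.dvd_gcd h9 h8
      rw [r.reduced.gcd_eq_one] at h10
      exact hp.one_lt.ne' (Nat.dvd_one.1 h10)
    exact h7.dvd_of_dvd_mul_right h6
  have := int_few t (by omega) hq hqN (p := p) (fun h _ hh => gcd_prime_pow hp hh) hl hbR hRt hspec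
  simpa using this

/-- The fourth power. -/
theorem few_pow_four {n k : ℕ} (hn : 2 ≤ n) {tiles : Fin k → Cube n} (ht : IsTiling tiles) {p : ℕ}
    (hp : p.Prime) {i : Fin k} {r : ℚ} (hr : (tiles i).side = r) (hpr : (p : ℤ) ∣ r.num) :
    p ^ (n - (univ.image fun i => (tiles i).side).card) ≤ k ^ 4 := by
  classical
  set R := (univ.image fun i => (tiles i).side).card with hR
  have hk0 : 1 ≤ k := by
    have := i.pos
    omega
  rcases Nat.lt_or_ge n R with hnR | hnR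
  · rw [Nat.sub_eq_zero_of_le hnR.le, pow_zero]
    exact Nat.one_le_pow _ _ hk0
  have hp1 : (1 : ℝ) ≤ p := by exact_mod_cast hp.one_lt.le
  have hp0 : (0 : ℝ) < p := by linarith
  have hsq : Real.sqrt p * Real.sqrt p = p := Real.mul_self_sqrt hp0.le
  have hs1 : 1 ≤ Real.sqrt p := by
    rw [Real.one_le_sqrt]
    exact hp1
  have hs0 : 0 < Real.sqrt p := by linarith
  have h := real_few hn ht hp hr hpr hs1 (b := (n + 1 - R) / 2) (R := R) (by omega) le_rfl
  have hdiv : (p : ℝ) / Real.sqrt p = Real.sqrt p := by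
    rw [div_eq_iff hs0.ne']
    exact hsq.symm
  rw [hdiv] at h
  have hfour : ∀ m : ℕ, (Real.sqrt p ^ m) ^ 4 = (p : ℝ) ^ (2 * m) := by
    intro m
    rw [← pow_mul, show m * 4 = 2 * (2 * m) by ring, pow_mul, sq, hsq]
  have hgoal : (p : ℝ) ^ (n - R) ≤ (k : ℝ) ^ 4 := by
    rcases h with h | h
    · calc (p : ℝ) ^ (n - R) ≤ (p : ℝ) ^ (2 * ((n + 1 - R) / 2)) :=
            pow_le_pow_right₀ hp1 (by omega)
        _ = (Real.sqrt p ^ ((n + 1 - R) / 2)) ^ 4 := (hfour _).symm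
        _ ≤ (k : ℝ) ^ 4 := pow_le_pow_left₀ (by positivity) h.le 4
    · calc (p : ℝ) ^ (n - R) ≤ (p : ℝ) ^ (2 * (n + 1 - (n + 1 - R) / 2 - R)) :=
            pow_le_pow_right₀ hp1 (by omega)
        _ = (Real.sqrt p ^ (n + 1 - (n + 1 - R) / 2 - R)) ^ 4 := (hfour _).symm
        _ ≤ (k : ℝ) ^ 4 := pow_le_pow_left₀ (by positivity) h 4
  exact_mod_cast hgoal

/-- **The asymptotic form.** -/
theorem few_prime : ∃ n₀ : ℕ, ∀ n : ℕ, n₀ ≤ n → (n + 1).Prime →
    ∀ (k : ℕ) (tiles : Fin k → Cube n), IsTiling tiles → ¬ k ≡ 1 [MOD n + 1] →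
      (n + 1) ^ (n - (univ.image fun i => (tiles i).side).card) ≤ k ^ 4 := by
  classical
  obtain ⟨n₀, hn₀⟩ := prime_case (θ := 3 / 10) (by norm_num) (by norm_num)
  refine ⟨n₀ + 1024, fun n hn hp k tiles ht hk => ?_⟩
  by_cases hbig : (k : ℝ) ≤ (n : ℝ) ^ ((3 / 10 : ℝ) * n)
  · obtain ⟨-, h2⟩ := hn₀ n (by omega) hp k tiles ht hbig
    obtain ⟨i, r, hr, hpr⟩ := h2 hk
    exact few_pow_four (by omega) ht hp hr hpr
  · push Not at hbig
    have hn1 : (1 : ℝ) ≤ n := by exact_mod_cast (by omega : 1 ≤ n)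
    have hn0 : (0 : ℝ) < n := by linarith
    have hn2 : (1024 : ℝ) ≤ n := by exact_mod_cast (by omega : 1024 ≤ n)
    have h1 : ((n : ℝ) + 1) ^ n ≤ (k : ℝ) ^ 4 := by
      have h2 : (n : ℝ) + 1 ≤ (n : ℝ) ^ (6 / 5 : ℝ) := by
        have h3 : (2 : ℝ) ≤ (n : ℝ) ^ (1 / 5 : ℝ) := by
          calc (2 : ℝ) ≤ 4 := by norm_num
            _ = (1024 : ℝ) ^ (1 / 5 : ℝ) := by
                rw [show (1024 : ℝ) = 4 ^ (5 : ℝ) by norm_num, ← Real.rpow_mul (by norm_num)]
                norm_num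
            _ ≤ (n : ℝ) ^ (1 / 5 : ℝ) := Real.rpow_le_rpow (by norm_num) hn2 (by norm_num)
        calc (n : ℝ) + 1 ≤ n * 2 := by linarith
          _ ≤ n * (n : ℝ) ^ (1 / 5 : ℝ) := by gcongr
          _ = (n : ℝ) ^ (6 / 5 : ℝ) := by
              rw [show (6 / 5 : ℝ) = 1 + 1 / 5 by norm_num, Real.rpow_add hn0, Real.rpow_one]
      calc ((n : ℝ) + 1) ^ n ≤ ((n : ℝ) ^ (6 / 5 : ℝ)) ^ n :=
            pow_le_pow_left₀ (by positivity) h2 n
        _ = ((n : ℝ) ^ ((3 / 10 : ℝ) * n)) ^ 4 := by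
            rw [← Real.rpow_natCast, ← Real.rpow_mul hn0.le, ← Real.rpow_natCast,
              ← Real.rpow_mul hn0.le]
            congr 1
            push_cast
            ring
        _ ≤ (k : ℝ) ^ 4 := pow_le_pow_left₀ (by positivity) hbig.le 4
    have h2 : (n + 1) ^ n ≤ k ^ 4 := by exact_mod_cast h1
    exact (Nat.pow_le_pow_right (by omega) (by omega)).trans h2

end Pool.Agent.MP9df71a.Few
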