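import Pool.Agent.Lib.MP_9df71a_co.FewCore

/-!
Tilings with few side lengths: the induction over the directions.
-/

open Finset

namespace Pool.Agent.MP9df71a.Few

open Pool.Agent.MP9df71a.Denom

variable {n N : ℕ} {ι : Type} [Fintype ι] [DecidableEq ι] (t : IT n N ι)

open Classical in
/-- the special tiles all of whose factors outside `A` are `1` -/
noncomputable def Sp (q : ℕ) (A : Finset (Fin n)) (F : Fin n → ℕ → ℤ) : Finset ι :=
  univ.filter fun i => q ∣ t.s i ∧ ∀ k, k ∉ A → F k (t.a i k) = 0 ∧ F k (t.a i k + t.s i) = 1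

theorem mem_Sp {q : ℕ} {A : Finset (Fin n)} {F : Fin n → ℕ → ℤ} {i : ι} :
    i ∈ Sp t q A F ↔ q ∣ t.s i ∧
      ∀ k, k ∉ A → F k (t.a i k) = 0 ∧ F k (t.a i k + t.s i) = 1 := by
  simp [Sp]

/-- starting points of the pieces of length `q` of the edges of the tiles of `S` in direction `k` -/
def pts (q : ℕ) (S : Finset ι) (k : Fin n) : Finset ℕ :=
  S.biUnion fun i => (range (t.s i / q)).image fun j => t.a i k + j * q

omit [Fintype ι] in
theorem mem_pts {q : ℕ} {S : Finset ι} {k : Fin n} {c : ℕ} :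
    c ∈ pts t q S k ↔ ∃ i ∈ S, ∃ j < t.s i / q, t.a i k + j * q = c := by
  simp [pts]

/-- The data of the induction: `F` has values `0, 1` outside `A`, nondecreasing along the special
edges, and `H` contains `N` and the sides of all relevant nonspecial tiles. -/
structure Data (q : ℕ) (A : Finset (Fin n)) (H : Finset ℕ) (F : Fin n → ℕ → ℤ) : Prop where
  val : ∀ k, k ∉ A → ∀ w, F k w = 0 ∨ F k w = 1
  mono : ∀ k, k ∉ A → ∀ i, q ∣ t.s i → F k (t.a i k) ≤ F k (t.a i k + t.s i)
  memN : N ∈ H
  rel : ∀ i, ¬ q ∣ t.s i → (∀ k, k ∉ A → F k (t.a i k + t.s i) ≠ F k (t.a i k)) → t.s i ∈ H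

/-- **Loop lemma.** -/
theorem loop {q : ℕ} (hq : 0 < q) {A : Finset (Fin n)} {H : Finset ℕ} {F : Fin n → ℕ → ℤ}
    (hD : Data t q A H F) (hH : ∀ h ∈ H, 0 < h) (hcard : H.card ≤ A.card)
    (hS : (Sp t q A F).Nonempty) :
    ∃ k ∈ A, ∃ h ∈ H, h / Nat.gcd h q ≤ (pts t q (Sp t q A F) k).card := by
  classical
  obtain ⟨i₀, hi₀⟩ := hS
  set S := Sp t q A F with hSdef
  have hi₀' := (mem_Sp t).1 hi₀
  -- labels
  obtain ⟨φ⟩ : Nonempty (H ↪ A) := Function.Embedding.nonempty_of_card_le (by simpa using hcard)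
  have : Nonempty H := ⟨⟨N, hD.memN⟩⟩
  set σ' : A → H := Function.invFun φ with hσ'
  have hsurj : Function.Surjective σ' := Function.invFun_surjective φ.injective
  set σ : Fin n → ℕ := fun k => if hk : k ∈ A then (σ' ⟨k, hk⟩ : ℕ) else 0 with hσ
  have hσH : ∀ k ∈ A, σ k ∈ H := by
    intro k hk
    simp only [hσ, hk, dif_pos]
    exact (σ' ⟨k, hk⟩).2
  have hσs : ∀ h ∈ H, ∃ k ∈ A, σ k = h := by
    intro h hh
    obtain ⟨⟨k, hk⟩, hk2⟩ := hsurj ⟨h, hh⟩
    refine ⟨k, hk, ?_⟩
    simp only [hσ, hk, dif_pos]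
    rw [hk2]
  by_contra hcon
  push Not at hcon
  have hlt : ∀ k ∈ A, (pts t q S k).card < σ k / Nat.gcd (σ k) q := fun k hk =>
    hcon k hk (σ k) (hσH k hk)
  -- the functions
  set r0 : Fin n → ℕ := fun k => t.a i₀ k + t.s i₀ with hr0
  set f : Fin n → ℕ → ℤ := fun k w =>
    if k ∈ A then (if Chain (pts t q S k) q (σ k) (r0 k) w then 1 else 0) else F k w with hf
  have hfA : ∀ k ∈ A, ∀ w, f k w = if Chain (pts t q S k) q (σ k) (r0 k) w then 1 else 0 := by
    intro k hk w
    simp only [hf, hk, if_true]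
  have hfA' : ∀ k, k ∉ A → ∀ w, f k w = F k w := by
    intro k hk w
    simp only [hf, hk, if_false]
  have hper : ∀ k ∈ A, ∀ w w', w ≡ w' [MOD σ k] → f k w = f k w' := by
    intro k hk w w' hww
    rw [hfA k hk, hfA k hk]
    by_cases hc : Chain (pts t q S k) q (σ k) (r0 k) w
    · rw [if_pos hc, if_pos (chain_congr hww hc)]
    · rw [if_neg hc, if_neg (fun h => hc (chain_congr hww.symm h))]
  have hid := tensor_identity t f
  have hR : ∏ k, (f k N - f k 0) = 0 := by
    obtain ⟨k, hk, hkN⟩ := hσs N hD.memN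
    refine Finset.prod_eq_zero (mem_univ k) ?_
    rw [hper k hk N 0 (by rw [hkN]; simp [Nat.ModEq])]
    ring
  rw [hR] at hid
  -- the terms
  have hSmono : ∀ i ∈ S, ∀ k ∈ A, 0 ≤ f k (t.a i k + t.s i) - f k (t.a i k) := by
    intro i hi k hk
    rw [hfA k hk, hfA k hk]
    by_cases hc : Chain (pts t q S k) q (σ k) (r0 k) (t.a i k)
    · have hqs := ((mem_Sp t).1 hi).1
      have h2 : Chain (pts t q S k) q (σ k) (r0 k) (t.a i k + t.s i) := by
        have h3 := chain_step (m := t.s i / q) hc (fun j hj => (mem_pts t).2 ⟨i, hi, j, hj, rfl⟩)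
        rwa [Nat.div_mul_cancel hqs] at h3
      rw [if_pos hc, if_pos h2]
      norm_num
    · rw [if_neg hc]
      split_ifs <;> norm_num
  have hterm : ∀ i, 0 ≤ ∏ k, (f k (t.a i k + t.s i) - f k (t.a i k)) := by
    intro i
    by_cases hqs : q ∣ t.s i
    · by_cases hi : i ∈ S
      · refine Finset.prod_nonneg fun k _ => ?_
        by_cases hk : k ∈ A
        · exact hSmono i hi k hk
        · rw [hfA' k hk, hfA' k hk]
          have := ((mem_Sp t).1 hi).2 k hk
          rw [this.1, this.2]
          norm_num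
      · -- some factor outside `A` vanishes
        rw [mem_Sp] at hi
        push Not at hi
        obtain ⟨k, hk, hk2⟩ := hi hqs
        apply le_of_eq
        symm
        refine Finset.prod_eq_zero (mem_univ k) ?_
        rw [hfA' k hk, hfA' k hk]
        have h1 := hD.val k hk (t.a i k)
        have h2 := hD.val k hk (t.a i k + t.s i)
        have h3 := hD.mono k hk i hqs
        rcases h1 with h1 | h1
        · have h4 := hk2 h1
          rcases h2 with h2 | h2
          · rw [h1, h2]; norm_num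
          · exact absurd h2 h4
        · rcases h2 with h2 | h2
          · rw [h1, h2] at h3
            norm_num at h3
          · rw [h1, h2]; norm_num
    · apply le_of_eq
      symm
      by_cases hrel : ∀ k, k ∉ A → F k (t.a i k + t.s i) ≠ F k (t.a i k)
      · have h1 := hD.rel i hqs hrel
        obtain ⟨k, hk, hks⟩ := hσs _ h1
        refine Finset.prod_eq_zero (mem_univ k) ?_
        rw [hper k hk (t.a i k + t.s i) (t.a i k) (by rw [hks]; simp [Nat.ModEq])]
        ring
      · push Not at hrel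
        obtain ⟨k, hk, hk2⟩ := hrel
        refine Finset.prod_eq_zero (mem_univ k) ?_
        rw [hfA' k hk, hfA' k hk, hk2]
        ring
  have hone : ∏ k, (f k (t.a i₀ k + t.s i₀) - f k (t.a i₀ k)) = 1 := by
    refine Finset.prod_eq_one fun k _ => ?_
    by_cases hk : k ∈ A
    · rw [hfA k hk, hfA k hk, if_pos (chain_self _ _ _ _), if_neg]
      · norm_num
      · intro hc
        have hqs := hi₀'.1
        have hm : 0 < t.s i₀ / q := Nat.div_pos (Nat.le_of_dvd (t.pos i₀) hqs) hq
        have h1 : r0 k = t.a i₀ k + t.s i₀ / q * q := by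
          rw [Nat.div_mul_cancel hqs]
        rw [h1] at hc
        have h2 := card_of_loop hq (hH _ (hσH k hk)) hm
          (fun j hj => (mem_pts t).2 ⟨i₀, hi₀, j, hj, rfl⟩) hc
        exact absurd (hlt k hk) (not_lt.2 h2)
    · rw [hfA' k hk, hfA' k hk]
      have := hi₀'.2 k hk
      rw [this.1, this.2]
      norm_num
  have h1 : (1 : ℤ) ≤ ∑ i, ∏ k, (f k (t.a i k + t.s i) - f k (t.a i k)) := by
    rw [← hone]
    exact Finset.single_le_sum (f := fun i => ∏ k, (f k (t.a i k + t.s i) - f k (t.a i k)))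
      (fun i _ => hterm i) (mem_univ i₀)
  rw [hid] at h1
  norm_num at h1

/-- the slice function -/
def slice (q c w : ℕ) : ℤ := if c < w ∧ w ≡ c [MOD q] then 1 else 0

theorem slice_val (q c w : ℕ) : slice q c w = 0 ∨ slice q c w = 1 := by
  unfold slice
  split_ifs <;> simp

theorem slice_mono {q c a s : ℕ} (hs : q ∣ s) : slice q c a ≤ slice q c (a + s) := by
  unfold slice
  by_cases h : c < a ∧ a ≡ c [MOD q]
  · have h2 : a + s ≡ c [MOD q] := by
      obtain ⟨m, rfl⟩ := hs
      have : a + q * m ≡ a [MOD q] := by simp [Nat.ModEq]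
      exact this.trans h.2
    rw [if_pos h, if_pos ⟨by omega, h2⟩]
  · rw [if_neg h]
    split_ifs <;> norm_num

/-- the tiles of `S` whose factor is `1` -/
theorem slice_one {q c a s : ℕ} (hs : q ∣ s) (h0 : slice q c a = 0)
    (h1 : slice q c (a + s) = 1) : ∃ j < s / q, a + j * q = c := by
  unfold slice at h0 h1
  have h2 : c < a + s ∧ a + s ≡ c [MOD q] := by
    by_contra h
    rw [if_neg h] at h1
    norm_num at h1
  have h3 : a ≡ c [MOD q] := by
    obtain ⟨m, rfl⟩ := hs
    have : a + q * m ≡ a [MOD q] := by simp [Nat.ModEq]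
    exact this.symm.trans h2.2
  have h4 : a ≤ c := by
    by_contra h
    rw [if_pos ⟨by omega, h3⟩] at h0
    norm_num at h0
  obtain ⟨j, hj⟩ := (Nat.modEq_iff_dvd' h4).1 h3
  obtain ⟨m, rfl⟩ := hs
  rcases Nat.eq_zero_or_pos q with hq | hq
  · subst hq
    simp at h2
    omega
  · refine ⟨j, ?_, ?_⟩
    · rw [Nat.mul_div_cancel_left _ hq]
      have : q * j < q * m := by omega
      exact Nat.lt_of_mul_lt_mul_left this
    · rw [mul_comm]
      omega

theorem slice_pt {q c a s j : ℕ} (hq : 0 < q) (hs : q ∣ s) (hj : j < s / q) (hc : a + j * q = c) :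
    slice q c a = 0 ∧ slice q c (a + s) = 1 := by
  unfold slice
  obtain ⟨m, rfl⟩ := hs
  rw [Nat.mul_div_cancel_left _ hq] at hj
  constructor
  · rw [if_neg]
    rintro ⟨h, -⟩
    have : 0 ≤ j * q := Nat.zero_le _
    omega
  · rw [if_pos]
    refine ⟨?_, ?_⟩
    · have : j * q < q * m := by rw [mul_comm]; exact Nat.mul_lt_mul_of_pos_left hj hq
      omega
    · rw [← hc]
      have h1 : a + q * m ≡ a [MOD q] := by simp [Nat.ModEq]
      have h2 : a + j * q ≡ a [MOD q] := by simp [Nat.ModEq]
      exact h1.trans h2.symm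

/-- **The induction over the directions.** -/
theorem core {q p smax : ℕ} (hq : 0 < q) (hsm : 0 < smax) {M : ℝ} (hM : 0 ≤ M)
    (hmax : ∀ i, q ∣ t.s i → t.s i ≤ smax) :
    ∀ (e : ℕ) (A : Finset (Fin n)) (H : Finset ℕ) (F : Fin n → ℕ → ℤ),
      H.card + e ≤ A.card + 1 → Data t q A H F →
      (∀ h ∈ H, 0 < h ∧ Nat.gcd h q * p ≤ q ∧ M * smax ≤ p * h) →
      (Sp t q A F).Nonempty → M ^ e ≤ ((Sp t q A F).card : ℝ) := by
  classical
  intro e
  induction e with
  | zero =>
    intro A H F _ _ _ hS
    rw [pow_zero]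
    exact_mod_cast hS.card_pos
  | succ e ih =>
    intro A H F hcard hD hH hS
    set S := Sp t q A F with hSdef
    obtain ⟨k, hk, h, hh, hle⟩ := loop t hq hD (fun h hh => (hH h hh).1) (by omega) hS
    obtain ⟨hh0, hgp, hMh⟩ := hH h hh
    set C := pts t q S k with hC
    -- the cardinality of `C`
    have hg : 0 < Nat.gcd h q := Nat.gcd_pos_of_pos_left _ hh0
    have hCc : (p : ℝ) * h ≤ q * C.card := by
      have h1 : h = Nat.gcd h q * (h / Nat.gcd h q) :=
        (Nat.mul_div_cancel' (Nat.gcd_dvd_left h q)).symm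
      have h2 : p * h ≤ q * C.card := by
        calc p * h = (Nat.gcd h q * p) * (h / Nat.gcd h q) := by
              conv_lhs => rw [h1]
              ring
          _ ≤ q * C.card := Nat.mul_le_mul hgp hle
      exact_mod_cast h2
    -- the slices
    set F' : ℕ → Fin n → ℕ → ℤ := fun c => Function.update F k (slice q c) with hF'
    have hF'k : ∀ c w, F' c k w = slice q c w := fun c w => by simp [hF']
    have hF'ne : ∀ c k', k' ≠ k → F' c k' = F k' := fun c k' hne => by
      simp [hF', Function.update_of_ne hne]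
    have hnot : ∀ k', k' ∉ A.erase k → k' = k ∨ k' ∉ A := by
      intro k' hk'
      rw [mem_erase] at hk'
      by_contra hcon
      push Not at hcon
      exact hk' ⟨hcon.1, hcon.2⟩
    have hSc : ∀ c ∈ C, M ^ e ≤ ((Sp t q (A.erase k) (F' c)).card : ℝ) := by
      intro c hc
      refine ih (A.erase k) H (F' c) ?_ ?_ hH ?_
      · rw [card_erase_of_mem hk]
        have : 0 < A.card := card_pos.2 ⟨k, hk⟩
        omega
      · refine ⟨?_, ?_, hD.memN, ?_⟩
        · intro k' hk' w
          by_cases hkk : k' = k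
          · subst hkk
            rw [hF'k]
            exact slice_val q c w
          · rw [hF'ne c k' hkk]
            exact hD.val k' ((hnot k' hk').resolve_left hkk) w
        · intro k' hk' i hi
          by_cases hkk : k' = k
          · subst hkk
            rw [hF'k, hF'k]
            exact slice_mono hi
          · rw [hF'ne c k' hkk]
            exact hD.mono k' ((hnot k' hk').resolve_left hkk) i hi
        · intro i hi hne
          refine hD.rel i hi fun k' hk' => ?_
          have hkk : k' ≠ k := fun h => hk' (h ▸ hk)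
          have := hne k' (fun h => hk' (mem_of_mem_erase h))
          rwa [hF'ne c k' hkk] at this
      · obtain ⟨i, hi, j, hj, hcj⟩ := (mem_pts t).1 hc
        refine ⟨i, (mem_Sp t).2 ⟨((mem_Sp t).1 hi).1, fun k' hk' => ?_⟩⟩
        by_cases hkk : k' = k
        · subst hkk
          rw [hF'k, hF'k]
          exact slice_pt hq ((mem_Sp t).1 hi).1 hj hcj
        · rw [hF'ne c k' hkk]
          exact ((mem_Sp t).1 hi).2 k' ((hnot k' hk').resolve_left hkk)
    -- double counting
    have hcount : ∑ c ∈ C, (Sp t q (A.erase k) (F' c)).card ≤ ∑ i ∈ S, t.s i / q := by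
      have h1 : ∀ c ∈ C, (Sp t q (A.erase k) (F' c)).card ≤
          ∑ i ∈ S, (if ∃ j < t.s i / q, t.a i k + j * q = c then 1 else 0) := by
        intro c _
        rw [← card_filter]
        refine card_le_card fun i hi => ?_
        have hi' := (mem_Sp t).1 hi
        rw [mem_filter]
        refine ⟨(mem_Sp t).2 ⟨hi'.1, fun k' hk' => ?_⟩, ?_⟩
        · have hkk : k' ≠ k := fun h => hk' (h ▸ hk)
          have := hi'.2 k' (fun h => hk' (mem_of_mem_erase h))
          rwa [hF'ne c k' hkk] at this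
        · have := hi'.2 k (by simp)
          rw [hF'k, hF'k] at this
          exact slice_one hi'.1 this.1 this.2
      calc ∑ c ∈ C, (Sp t q (A.erase k) (F' c)).card
          ≤ ∑ c ∈ C, ∑ i ∈ S, (if ∃ j < t.s i / q, t.a i k + j * q = c then 1 else 0) :=
            sum_le_sum h1
        _ = ∑ i ∈ S, ∑ c ∈ C, (if ∃ j < t.s i / q, t.a i k + j * q = c then 1 else 0) :=
            sum_comm
        _ ≤ ∑ i ∈ S, t.s i / q := by
            refine sum_le_sum fun i _ => ?_
            rw [← card_filter]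
            calc (C.filter fun c => ∃ j < t.s i / q, t.a i k + j * q = c).card
                ≤ ((range (t.s i / q)).image fun j => t.a i k + j * q).card := by
                  refine card_le_card fun c hc => ?_
                  obtain ⟨-, j, hj, hcj⟩ := mem_filter.1 hc
                  exact mem_image.2 ⟨j, mem_range.2 hj, hcj⟩
              _ ≤ (range (t.s i / q)).card := card_image_le
              _ = t.s i / q := card_range _
    have h1 : (C.card : ℝ) * M ^ e ≤ ∑ c ∈ C, ((Sp t q (A.erase k) (F' c)).card : ℝ) := by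
      calc (C.card : ℝ) * M ^ e = ∑ _c ∈ C, M ^ e := by rw [sum_const, nsmul_eq_mul]
        _ ≤ _ := sum_le_sum hSc
    have h2 : q * ∑ c ∈ C, (Sp t q (A.erase k) (F' c)).card ≤ S.card * smax := by
      calc q * ∑ c ∈ C, (Sp t q (A.erase k) (F' c)).card ≤ q * ∑ i ∈ S, t.s i / q :=
            Nat.mul_le_mul_left _ hcount
        _ = ∑ i ∈ S, t.s i := by
            rw [mul_sum]
            exact sum_congr rfl fun i hi => Nat.mul_div_cancel' ((mem_Sp t).1 hi).1
        _ ≤ ∑ _i ∈ S, smax := sum_le_sum fun i hi => hmax i ((mem_Sp t).1 hi).1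
        _ = S.card * smax := by rw [sum_const, smul_eq_mul]
    have h3 : (q : ℝ) * ∑ c ∈ C, ((Sp t q (A.erase k) (F' c)).card : ℝ) ≤ S.card * smax := by
      exact_mod_cast h2
    have hq' : (0 : ℝ) < q := by exact_mod_cast hq
    have hs' : (0 : ℝ) < smax := by exact_mod_cast hsm
    have hMe : 0 ≤ M ^ e := pow_nonneg hM e
    have h4 : M ^ (e + 1) * smax ≤ S.card * smax := by
      calc M ^ (e + 1) * smax = (M * smax) * M ^ e := by ring
        _ ≤ (p * h) * M ^ e := mul_le_mul_of_nonneg_right hMh hMe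
        _ ≤ (q * C.card) * M ^ e := mul_le_mul_of_nonneg_right hCc hMe
        _ = q * (C.card * M ^ e) := by ring
        _ ≤ q * ∑ c ∈ C, ((Sp t q (A.erase k) (F' c)).card : ℝ) :=
            mul_le_mul_of_nonneg_left h1 hq'.le
        _ ≤ S.card * smax := h3
    exact le_of_mul_le_mul_right h4 hs'

end Pool.Agent.MP9df71a.Few
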