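import Pool.Agent.Lib.MP_9df71a_co.Semigroup
import Pool.Agent.Lib.MP_9df71a_co.Arith

/-!
Upper bounds for the threshold of the decompositions with few different side lengths.
-/

open Filter Topology N0a8789b9

namespace Pool.Agent.MP9df71a

/-- There is a decomposition of the unit `n`-cube into `k` cubes with at most `R` different side
lengths. -/
def FewAdmissible (n R k : ℕ) : Prop :=
  ∃ tiles : Fin k → Cube n, IsTiling tiles ∧ (Set.range fun i => (tiles i).side).ncard ≤ R

/-- `c` is the least number such that for every `k ≥ c` there is a decomposition of the unit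
`n`-cube into `k` cubes with at most `R` different side lengths. -/
def IsFewCutoff (n R c : ℕ) : Prop :=
  (∀ k, c ≤ k → FewAdmissible n R k) ∧ (c = 0 ∨ ¬ FewAdmissible n R (c - 1))

namespace Few

lemma few_mono {n R R' k : ℕ} (hR : R ≤ R') (h : FewAdmissible n R k) :
    FewAdmissible n R' k := by
  obtain ⟨t, h1, h2⟩ := h
  exact ⟨t, h1, h2.trans hR⟩

lemma not_few_zero (n R : ℕ) : ¬ FewAdmissible n R 0 := by
  rintro ⟨t, ht, -⟩
  exact not_admissible_zero n ⟨t, ht⟩

/-- The grid. -/
noncomputable def grid (n a : ℕ) (f : Fin n → Fin a) : Cube n :=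
  ⟨fun j => (f j : ℝ) / a, 1 / a⟩

lemma grid_mem {n a : ℕ} (ha : 0 < a) {x : Fin n → ℝ} (hx : InUnit x) :
    ∃! f : Fin n → Fin a, (grid n a f).Mem x := by
  have ha' : (0 : ℝ) < a := by exact_mod_cast ha
  have hfl : ∀ j, ⌊x j * a⌋₊ < a := fun j => by
    rw [Nat.floor_lt (mul_nonneg (hx j).1 ha'.le)]
    have := (hx j).2
    nlinarith
  refine ⟨fun j => ⟨⌊x j * a⌋₊, hfl j⟩, fun j => ?_, fun g hg => ?_⟩
  · show ((⌊x j * a⌋₊ : ℕ) : ℝ) / a ≤ x j ∧ x j < ((⌊x j * a⌋₊ : ℕ) : ℝ) / a + 1 / a
    rw [← add_div, div_le_iff₀ ha', lt_div_iff₀ ha']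
    exact ⟨Nat.floor_le (mul_nonneg (hx j).1 ha'.le), Nat.lt_floor_add_one _⟩
  · funext j
    obtain ⟨h1, h2⟩ := hg j
    change ((g j : ℕ) : ℝ) / a ≤ x j at h1
    change x j < ((g j : ℕ) : ℝ) / a + 1 / a at h2
    rw [div_le_iff₀ ha'] at h1
    rw [← add_div, lt_div_iff₀ ha'] at h2
    apply Fin.ext
    symm
    show ⌊x j * a⌋₊ = (g j : ℕ)
    rw [Nat.floor_eq_iff (mul_nonneg (hx j).1 ha'.le)]
    exact ⟨h1, h2⟩

lemma grid_inside {n a : ℕ} (ha : 0 < a) (f : Fin n → Fin a) : (grid n a f).InsideUnit := by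
  have ha' : (0 : ℝ) < a := by exact_mod_cast ha
  refine ⟨by unfold grid; positivity, fun j => ⟨by unfold grid; positivity, ?_⟩⟩
  show ((f j : ℕ) : ℝ) / a + 1 / a ≤ 1
  rw [← add_div, div_le_one ha']
  have : (f j : ℕ) + 1 ≤ a := (f j).2
  exact_mod_cast this

/-- A grid of `M ^ n` cubes in which the cube `f` is divided into `(g f) ^ n` cubes. -/
lemma few_grid {n M : ℕ} (hM : 0 < M) (g : (Fin n → Fin M) → ℕ) (hg : ∀ f, 0 < g f)
    {G : Finset ℕ} (hG : ∀ f, g f ∈ G) : FewAdmissible n G.card (∑ f, g f ^ n) := by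
  classical
  have hM' : (0 : ℝ) < M := by exact_mod_cast hM
  let ι := Σ f : Fin n → Fin M, (Fin n → Fin (g f))
  have hcard : Fintype.card ι = ∑ f, g f ^ n := by
    show Fintype.card (Σ f : Fin n → Fin M, (Fin n → Fin (g f))) = _
    rw [Fintype.card_sigma]
    exact Finset.sum_congr rfl fun f _ => by simp
  let T : ι → Cube n := fun p =>
    ⟨fun j => (grid n M p.1).lower j + (1 / M : ℝ) * (grid n (g p.1) p.2).lower j,
      (1 / M : ℝ) * (1 / (g p.1 : ℝ))⟩
  have hin : ∀ p, (T p).InsideUnit := by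
    intro p
    have hgp : (0 : ℝ) < g p.1 := by exact_mod_cast hg p.1
    have h1 := grid_inside hM p.1
    have h2 := grid_inside (hg p.1) p.2
    refine ⟨by positivity, fun j => ⟨?_, ?_⟩⟩
    · have h3 := (h1.2 j).1
      have h4 := (h2.2 j).1
      show 0 ≤ (grid n M p.1).lower j + (1 / M : ℝ) * (grid n (g p.1) p.2).lower j
      have : 0 ≤ (1 / M : ℝ) * (grid n (g p.1) p.2).lower j := by positivity
      linarith
    · have h3 := (h1.2 j).2
      have h4 := (h2.2 j).2
      show (grid n M p.1).lower j + (1 / M : ℝ) * (grid n (g p.1) p.2).lower j +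
        (1 / M : ℝ) * (1 / (g p.1 : ℝ)) ≤ 1
      have h5 : (grid n M p.1).side = 1 / M := rfl
      have h6 : (grid n (g p.1) p.2).side = 1 / (g p.1 : ℝ) := rfl
      rw [h5] at h3
      rw [h6] at h4
      have h7 : (1 / M : ℝ) * ((grid n (g p.1) p.2).lower j + 1 / (g p.1 : ℝ)) ≤ 1 / M * 1 :=
        mul_le_mul_of_nonneg_left h4 (by positivity)
      linarith
  have hmem : ∀ p x, (T p).Mem x ↔ (grid n M p.1).Mem x ∧
      (grid n (g p.1) p.2).Mem (fun j => (x j - (grid n M p.1).lower j) * M) := by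
    intro p x
    have hgp : (0 : ℝ) < g p.1 := by exact_mod_cast hg p.1
    have hlo : ∀ j, ((T p).lower j ≤ x j ∧ x j < (T p).lower j + (T p).side) ↔
        ((grid n (g p.1) p.2).lower j ≤ (x j - (grid n M p.1).lower j) * M ∧
          (x j - (grid n M p.1).lower j) * M < (grid n (g p.1) p.2).lower j + 1 / (g p.1 : ℝ)) := by
      intro j
      show ((grid n M p.1).lower j + (1 / M : ℝ) * (grid n (g p.1) p.2).lower j ≤ x j ∧
        x j < (grid n M p.1).lower j + (1 / M : ℝ) * (grid n (g p.1) p.2).lower j +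
          (1 / M : ℝ) * (1 / (g p.1 : ℝ))) ↔ _
      set u := (grid n M p.1).lower j
      set v := (grid n (g p.1) p.2).lower j
      set w := 1 / (g p.1 : ℝ)
      have e1 : (1 / M : ℝ) * v = v / M := by ring
      have e2 : (1 / M : ℝ) * w = w / M := by ring
      rw [e1, e2]
      constructor
      · rintro ⟨h1, h2⟩
        constructor
        · have : v / M ≤ x j - u := by linarith
          rwa [div_le_iff₀ hM'] at this
        · have : x j - u < (v + w) / M := by rw [add_div]; linarith
          rwa [lt_div_iff₀ hM'] at this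
      · rintro ⟨h1, h2⟩
        rw [← div_le_iff₀ hM'] at h1
        rw [← lt_div_iff₀ hM', add_div] at h2
        constructor <;> linarith
    constructor
    · intro h
      have h2 : (grid n (g p.1) p.2).Mem (fun j => (x j - (grid n M p.1).lower j) * M) :=
        fun j => (hlo j).1 (h j)
      refine ⟨fun j => ?_, h2⟩
      have h3 := (grid_inside (hg p.1) p.2).2 j
      have h4 := h2 j
      have h5 : (grid n M p.1).side = 1 / M := rfl
      have h6 : (grid n (g p.1) p.2).side = 1 / (g p.1 : ℝ) := rfl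
      rw [h5]
      have h7 : 0 ≤ (x j - (grid n M p.1).lower j) * M := by linarith [h3.1, h4.1]
      have h8 : (x j - (grid n M p.1).lower j) * M < 1 := by linarith [h3.2, h4.2]
      constructor
      · have : 0 ≤ x j - (grid n M p.1).lower j := by
          by_contra hcon
          push Not at hcon
          have := mul_neg_of_neg_of_pos hcon hM'
          linarith
        linarith
      · rw [← lt_div_iff₀ hM'] at h8
        linarith
    · rintro ⟨-, h⟩ j
      exact (hlo j).2 (h j)
  have huniq : ∀ x, InUnit x → ∃! p, (T p).Mem x := by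
    intro x hx
    obtain ⟨f, hf, hfu⟩ := grid_mem hM hx
    have hy : InUnit fun j => (x j - (grid n M f).lower j) * M := by
      intro j
      have h1 := hf j
      have h5 : (grid n M f).side = 1 / M := rfl
      rw [h5] at h1
      refine ⟨mul_nonneg (by linarith [h1.1]) hM'.le, ?_⟩
      rw [← lt_div_iff₀ hM']
      linarith [h1.2]
    obtain ⟨h, hh, hhu⟩ := grid_mem (hg f) hy
    refine ⟨⟨f, h⟩, (hmem _ x).2 ⟨hf, hh⟩, ?_⟩
    rintro ⟨f', h'⟩ hp
    obtain ⟨h1, h2⟩ := (hmem _ x).1 hp
    have h3 := hfu f' h1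
    subst h3
    have h4 := hhu h' h2
    subst h4
    rfl
  obtain ⟨e⟩ : Nonempty (ι ≃ Fin (∑ f, g f ^ n)) := ⟨Fintype.equivFinOfCardEq hcard⟩
  refine ⟨fun i => T (e.symm i), ⟨fun i => hin _, fun x hx => ?_⟩, ?_⟩
  · obtain ⟨i, hi, hu⟩ := huniq x hx
    refine ⟨e i, by simpa using hi, fun j hj => ?_⟩
    have := hu _ hj
    rw [← this, Equiv.apply_symm_apply]
  · have hsub : (Set.range fun i => (T (e.symm i)).side) ⊆
        ((G.image fun a : ℕ => (1 / M : ℝ) * (1 / (a : ℝ))) : Set ℝ) := by
      rintro y ⟨i, rfl⟩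
      simp only [Finset.coe_image, Set.mem_image, Finset.mem_coe]
      exact ⟨g (e.symm i).1, hG _, rfl⟩
    calc (Set.range fun i => (T (e.symm i)).side).ncard
        ≤ ((G.image fun a : ℕ => (1 / M : ℝ) * (1 / (a : ℝ))) : Set ℝ).ncard :=
          Set.ncard_le_ncard hsub (Finset.finite_toSet _)
      _ = (G.image fun a : ℕ => (1 / M : ℝ) * (1 / (a : ℝ))).card := Set.ncard_coe_finset _
      _ ≤ G.card := Finset.card_image_le

/-- The same with a list of replaced cubes. -/
lemma few_list {n M : ℕ} (hM : 0 < M) (as : List ℕ) {G : Finset ℕ} (h1 : 1 ∈ G)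
    (has : ∀ a ∈ as, a ∈ G) (hpos : ∀ a ∈ G, 0 < a) (hlen : as.length ≤ M ^ n) :
    FewAdmissible n G.card (M ^ n + (as.map fun a => a ^ n - 1).sum) := by
  classical
  set L := as ++ List.replicate (M ^ n - as.length) 1 with hL
  have hLlen : L.length = M ^ n := by
    rw [hL, List.length_append, List.length_replicate]
    omega
  have hLG : ∀ a ∈ L, a ∈ G := by
    intro a ha
    rw [hL, List.mem_append] at ha
    rcases ha with ha | ha
    · exact has a ha
    · rw [List.eq_of_mem_replicate ha]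
      exact h1
  have hcardf : Fintype.card (Fin n → Fin M) = L.length := by simp [hLlen]
  obtain ⟨e⟩ : Nonempty ((Fin n → Fin M) ≃ Fin L.length) := ⟨Fintype.equivFinOfCardEq hcardf⟩
  have h2 := few_grid hM (fun f => L.get (e f)) (fun f => hpos _ (hLG _ (List.get_mem _ _)))
    (fun f => hLG _ (List.get_mem _ _))
  have h3 : ∑ f, (L.get (e f)) ^ n = M ^ n + (as.map fun a => a ^ n - 1).sum := by
    rw [Equiv.sum_comp e (fun i => (L.get i) ^ n)]
    have h4 : ∑ i : Fin L.length, (L.get i) ^ n = (L.map fun a => a ^ n).sum := by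
      rw [← List.sum_ofFn]
      congr 1
      rw [List.ofFn_comp' L.get (fun a => a ^ n)] 
      rw [List.ofFn_get]
    rw [h4, hL, List.map_append, List.sum_append, List.map_replicate, List.sum_replicate, one_pow,
      smul_eq_mul, mul_one]
    have h5 : (as.map fun a => a ^ n).sum = (as.map fun a => a ^ n - 1).sum + as.length := by
      clear hlen hL hLlen hLG hcardf e h2 h4 L
      induction as with
      | nil => simp
      | cons a as ih =>
        have h6 := ih fun b hb => has b (List.mem_cons_of_mem _ hb)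
        have h7 : 0 < a ^ n := Nat.pow_pos (hpos a (has a List.mem_cons_self))
        simp only [List.map_cons, List.sum_cons, List.length_cons]
        omega
    rw [h5]
    omega
  rwa [h3] at h2

end Few

end Pool.Agent.MP9df71a
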