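import Pool.Agent.Lib.MP_9df71a_co.FewUpper

/-!
Upper bounds for the threshold of the decompositions with few different side lengths, continued.
-/

open Filter Topology N0a8789b9

namespace Pool.Agent.MP9df71a.Few

/-- Sums of numbers `a ^ n - 1` come from lists of numbers `a`. -/
lemma exists_bases {n : ℕ} {G : Finset ℕ} (l : List ℕ)
    (hl : ∀ y ∈ l, ∃ a ∈ G, y = a ^ n - 1) :
    ∃ as : List ℕ, (∀ a ∈ as, a ∈ G) ∧ as.length = l.length ∧
      (as.map fun a => a ^ n - 1).sum = l.sum := by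
  induction l with
  | nil => exact ⟨[], by simp, rfl, rfl⟩
  | cons y l ih =>
    obtain ⟨as, h1, h2, h3⟩ := ih fun z hz => hl z (List.mem_cons_of_mem _ hz)
    obtain ⟨a, ha, rfl⟩ := hl y List.mem_cons_self
    refine ⟨a :: as, ?_, ?_, ?_⟩
    · intro b hb
      rcases List.mem_cons.1 hb with rfl | hb
      · exact ha
      · exact h1 b hb
    · simp [h2]
    · simp [h3]

/-- If no prime divides all the numbers `a ^ n - 1`, `a ∈ G`, then every `k ≥ (8 A) ^ n` is
admissible with at most `|G| + 1` side lengths. -/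
theorem few_of_gcd {n A : ℕ} (hn : 0 < n) (hA : 2 ≤ A) {G : Finset ℕ} (h2 : 2 ∈ G)
    (hG : ∀ a ∈ G, 2 ≤ a ∧ a ≤ A)
    (h : ∀ q : ℕ, q.Prime → ∃ a ∈ G, ¬ q ∣ a ^ n - 1) {k : ℕ}
    (hk : (8 * A) ^ n ≤ k) : FewAdmissible n (G.card + 1) k := by
  obtain ⟨B, hB1, hB2⟩ := exists_root n k hn
  have hBA : 8 * A ≤ B := by
    by_contra hcon
    push Not at hcon
    have := Nat.pow_le_pow_left (show B + 1 ≤ 8 * A by omega) n
    omega
  set M := B / 2 + 3 with hM
  have hn0 : n ≠ 0 := by omega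
  have ha : M ^ n + (2 * A) ^ n ≤ k := by
    calc M ^ n + (2 * A) ^ n ≤ (M + 2 * A) ^ n := pow_add_pow_le (Nat.zero_le _) (Nat.zero_le _) hn0
      _ ≤ B ^ n := Nat.pow_le_pow_left (by omega) n
      _ ≤ k := hB1
  have hb : k + 4 ^ n ≤ (2 * M) ^ n := by
    calc k + 4 ^ n ≤ (B + 1) ^ n + 4 ^ n := by omega
      _ ≤ (B + 1 + 4) ^ n := pow_add_pow_le (Nat.zero_le _) (Nat.zero_le _) hn0
      _ ≤ (2 * M) ^ n := Nat.pow_le_pow_left (by omega) n
  set s : Set ℕ := {y | ∃ a ∈ G, y = a ^ n - 1} with hs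
  have hgcd : Nat.setGcd s = 1 := by
    by_contra hne
    obtain ⟨q, hq, hqd⟩ := Nat.exists_prime_and_dvd hne
    obtain ⟨a, haG, hna⟩ := h q hq
    exact hna (hqd.trans (Nat.setGcd_dvd_of_mem ⟨a, haG, rfl⟩))
  have h2n : 2 ≤ 2 ^ n := by
    calc 2 = 2 ^ 1 := by norm_num
      _ ≤ 2 ^ n := Nat.pow_le_pow_right (by norm_num) hn
  have hAn : 1 ≤ A ^ n := Nat.pow_pos (by omega)
  obtain ⟨l, hl, hsum, hlen⟩ := exists_short_list s hgcd (2 ^ n - 1) (by omega) (k - M ^ n)
  have hbound : l.sum ≤ l.length * (A ^ n - 1) := by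
    have := List.sum_le_card_nsmul l (A ^ n - 1) (by
      intro y hy
      obtain ⟨a, haG, rfl⟩ := hl y hy
      exact Nat.sub_le_sub_right (Nat.pow_le_pow_left (hG a haG).2 n) 1)
    simpa using this
  have hle : l.sum ≤ k - M ^ n := by
    have h1 : l.length * (A ^ n - 1) ≤ 2 ^ n * A ^ n :=
      Nat.mul_le_mul (by omega) (by omega)
    rw [mul_pow] at ha
    omega
  have hdiv : (2 ^ n - 1) ∣ (k - M ^ n) - l.sum := (Nat.modEq_iff_dvd' hle).mp hsum
  obtain ⟨j, hj⟩ := hdiv
  obtain ⟨as, has, hasl, hass⟩ := exists_bases l hl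
  -- the number of replaced cubes
  have hcount : l.length + j ≤ M ^ n := by
    have h1 : (2 ^ n - 1) * (l.length + j) ≤ (2 ^ n - 1) * M ^ n := by
      have h3 : (2 ^ n - 1) * l.length ≤ 4 ^ n := by
        calc (2 ^ n - 1) * l.length ≤ 2 ^ n * 2 ^ n := Nat.mul_le_mul (by omega) (by omega)
          _ = 4 ^ n := by rw [← mul_pow]; norm_num
      have h4 : (2 ^ n - 1) * M ^ n = (2 * M) ^ n - M ^ n := by
        rw [mul_pow, Nat.sub_mul, one_mul]
      rw [Nat.mul_add, h4]
      omega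
    exact Nat.le_of_mul_le_mul_left h1 (by omega)
  have hM0 : 0 < M := by omega
  have hfin := few_list (n := n) hM0 (as ++ List.replicate j 2) (G := insert 1 G)
    (Finset.mem_insert_self _ _) (by
      intro a ha'
      rcases List.mem_append.1 ha' with ha' | ha'
      · exact Finset.mem_insert_of_mem (has a ha')
      · rw [List.eq_of_mem_replicate ha']
        exact Finset.mem_insert_of_mem h2) (by
      intro a ha'
      rcases Finset.mem_insert.1 ha' with rfl | ha'
      · exact one_pos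
      · have := hG a ha'
        omega) (by
      rw [List.length_append, List.length_replicate, hasl]
      exact hcount)
  have htot : M ^ n + ((as ++ List.replicate j 2).map fun a => a ^ n - 1).sum = k := by
    rw [List.map_append, List.sum_append, hass, List.map_replicate, List.sum_replicate,
      smul_eq_mul, mul_comm j]
    omega
  rw [htot] at hfin
  exact few_mono (Finset.card_insert_le _ _) hfin

/-- The threshold exists as soon as three side lengths are allowed. -/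
theorem exists_fewCutoff (n R : ℕ) (hn : 0 < n) (hR : 3 ≤ R) : ∃ c, IsFewCutoff n R c := by
  classical
  have h2n : 2 ≤ 2 ^ n := by
    calc 2 = 2 ^ 1 := (pow_one 2).symm
      _ ≤ 2 ^ n := Nat.pow_le_pow_right (by norm_num) hn
  have hex : ∃ c, ∀ k, c ≤ k → FewAdmissible n R k := by
    refine ⟨(8 * 2 ^ n) ^ n, fun k hk => ?_⟩
    rcases Nat.lt_or_ge n 2 with hn2 | hn2
    · -- `n = 1`
      obtain rfl : n = 1 := by omega
      refine few_mono ?_ (few_of_gcd (G := {2}) one_pos (A := 2) le_rfl (by simp) (by simp)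
        (fun q hq => ⟨2, by simp, ?_⟩) (by simpa using hk))
      · rw [Finset.card_singleton]
        omega
      simp only [pow_one]
      intro h
      exact hq.one_lt.ne' (Nat.dvd_one.1 h)
    · have h4 : 4 ≤ 2 ^ n := by
        calc 4 = 2 ^ 2 := by norm_num
          _ ≤ 2 ^ n := Nat.pow_le_pow_right (by norm_num) hn2
      refine few_mono ?_ (few_of_gcd (G := {2, 2 ^ n - 1}) hn h2n (by simp) ?_
        (fun q hq => ?_) hk)
      · have := Finset.card_le_two (a := 2) (b := 2 ^ n - 1)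
        omega
      · intro a ha
        simp only [Finset.mem_insert, Finset.mem_singleton] at ha
        omega
      · by_cases hq1 : q ∣ 2 ^ n - 1
        · refine ⟨2 ^ n - 1, by simp, fun hq2 => ?_⟩
          have h5 : q ∣ (2 ^ n - 1) ^ n := dvd_pow hq1 (by omega)
          have h6 : 0 < (2 ^ n - 1) ^ n := Nat.pow_pos (by omega)
          have h7 : q ∣ 1 := by
            have h8 : (2 ^ n - 1) ^ n = ((2 ^ n - 1) ^ n - 1) + 1 := by omega
            rw [h8] at h5
            exact (Nat.dvd_add_right hq2).1 h5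
          exact hq.one_lt.ne' (Nat.dvd_one.1 h7)
        · exact ⟨2, by simp, hq1⟩
  refine ⟨Nat.find hex, Nat.find_spec hex, ?_⟩
  by_contra hcon
  push Not at hcon
  obtain ⟨h0, h1⟩ := hcon
  refine Nat.find_min hex (Nat.sub_lt (Nat.pos_of_ne_zero h0) one_pos) fun k hk => ?_
  rcases eq_or_lt_of_le hk with h | h
  · rw [← h]; exact h1
  · exact Nat.find_spec hex k (by omega)

/-- For every `ε > 0` there are arbitrarily large `n` for which the threshold with at most
`R ≥ n ^ δ` side lengths is at most `n ^ (ε n)`. -/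
theorem exists_small_fewCutoff {ε δ : ℝ} (hε : 0 < ε) (hδ : 0 < δ) (N : ℕ) :
    ∃ n : ℕ, N < n ∧ ∀ R c : ℕ, (n : ℝ) ^ δ ≤ R → IsFewCutoff n R c →
      Real.log c ≤ ε * (n * Real.log n) := by
  set η : ℝ := min (ε / 2) δ with hη
  have hη0 : 0 < η := lt_min (half_pos hε) hδ
  obtain ⟨J, n₀, hexc⟩ := exceptional hη0
  obtain ⟨n₁, hn₁⟩ : ∃ n₁ : ℕ, ∀ n : ℕ, n₁ ≤ n → (J : ℝ) + 8 ≤ (n : ℝ) ^ η := by
    have h1 : Tendsto (fun n : ℕ => (n : ℝ) ^ η) atTop atTop :=
      (tendsto_rpow_atTop hη0).comp tendsto_natCast_atTop_atTop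
    exact eventually_atTop.mp (h1.eventually_ge_atTop _)
  obtain ⟨n, hn, hnp, hcomp⟩ := exists_prime_gt_composite J (N + n₀ + n₁ + 1)
  refine ⟨n, by omega, fun R c hR hc => ?_⟩
  have hn0 : 0 < n := hnp.pos
  have hn0' : (0 : ℝ) < n := by exact_mod_cast hn0
  have hn1 : (1 : ℝ) ≤ n := by exact_mod_cast hn0
  have hbig := hn₁ n (by omega)
  set A := ⌊(n : ℝ) ^ η⌋₊ with hA
  have hAJ : J + 8 ≤ A := by
    rw [hA]
    apply Nat.le_floor
    push_cast
    exact hbig
  have hAle : (A : ℝ) ≤ (n : ℝ) ^ η := Nat.floor_le (by positivity)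
  have hAR : A ≤ R := by
    have h1 : (A : ℝ) ≤ R := by
      calc (A : ℝ) ≤ (n : ℝ) ^ η := hAle
        _ ≤ (n : ℝ) ^ δ := Real.rpow_le_rpow_of_exponent_le hn1 (min_le_right _ _)
        _ ≤ R := hR
    exact_mod_cast h1
  have hkey : ∀ q : ℕ, q.Prime → ∃ a ∈ Finset.Icc 2 A, ¬ q ∣ a ^ n - 1 := by
    intro q hq
    by_contra hcon
    push Not at hcon
    have hcon' : ∀ a, 2 ≤ a → a ≤ A → q ∣ a ^ n - 1 := fun a h1 h2 =>
      hcon a (Finset.mem_Icc.2 ⟨h1, h2⟩)
    obtain ⟨d, j, hdn, hj1, hjJ, hqe⟩ := hexc n (by omega) q hq hcon'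
    have hAq := lt_of_forall_dvd hq hn0 hcon'
    rcases (Nat.dvd_prime hnp).mp hdn with h | h
    · rw [h] at hqe
      omega
    · rw [h] at hqe
      exact hcomp j hj1 hjJ (hqe ▸ hq)
  have hcle : c ≤ (8 * A) ^ n := by
    by_contra hcon
    push Not at hcon
    rcases hc.2 with h0 | h0
    · omega
    · refine h0 (few_mono ?_ (few_of_gcd hn0 (by omega) (G := Finset.Icc 2 A)
        (Finset.mem_Icc.2 ⟨le_rfl, by omega⟩) (fun a ha => Finset.mem_Icc.1 ha) hkey
        (by omega)))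
      rw [Nat.card_Icc]
      omega
  have hc0 : 0 < c := by
    by_contra h0
    have h1 : c = 0 := by omega
    rw [h1] at hc
    exact not_few_zero n R (hc.1 0 le_rfl)
  have h2 : (8 : ℝ) ≤ (n : ℝ) ^ η := by
    have : (0 : ℝ) ≤ J := Nat.cast_nonneg J
    linarith
  have hηε : η + η ≤ ε := by
    have := min_le_left (ε / 2) δ
    linarith
  have hcr : (c : ℝ) ≤ (n : ℝ) ^ (ε * n) := by
    calc (c : ℝ) ≤ ((8 * A) ^ n : ℕ) := by exact_mod_cast hcle
      _ = (8 * (A : ℝ)) ^ n := by push_cast; ring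
      _ ≤ ((n : ℝ) ^ ε) ^ n := by
          apply pow_le_pow_left₀ (by positivity)
          calc 8 * (A : ℝ) ≤ (n : ℝ) ^ η * (n : ℝ) ^ η :=
                mul_le_mul h2 hAle (by positivity) (by positivity)
            _ = (n : ℝ) ^ (η + η) := by rw [← Real.rpow_add hn0']
            _ ≤ (n : ℝ) ^ ε := Real.rpow_le_rpow_of_exponent_le hn1 hηε
      _ = (n : ℝ) ^ (ε * n) := by rw [← Real.rpow_natCast, ← Real.rpow_mul hn0'.le]
  calc Real.log c ≤ Real.log ((n : ℝ) ^ (ε * n)) :=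
        Real.log_le_log (by exact_mod_cast hc0) hcr
    _ = ε * (n * Real.log n) := by rw [Real.log_rpow hn0']; ring

end Pool.Agent.MP9df71a.Few
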