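import Pool.Agent.Lib.MP_9df71a_co.Guillotine

/-!
Lower bound for hierarchical (guillotine) decompositions: the number of cubes of a decomposition of
the unit cube which is nontrivial for a prime `p` is large.
-/

namespace Pool.Agent.MP9df71a

/-- The decompositions of `CutsInto`, with the multiset of the side lengths of the cubes. -/
inductive CutsL {ι : Type} [DecidableEq ι] : (ι → ℝ) → Multiset ℝ → Prop
  | cube (s : ℝ) (hs : 0 < s) : CutsL (fun _ => s) {s}
  | cut (x : ι → ℝ) (i : ι) (t : ℝ) (S T : Multiset ℝ) (ht : 0 < t) (ht' : t < x i)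
      (h1 : CutsL (Function.update x i t) S)
      (h2 : CutsL (Function.update x i (x i - t)) T) : CutsL x (S + T)

lemma CutsInto.exists_cutsL {ι : Type} [DecidableEq ι] {x : ι → ℝ} {k : ℕ} (h : CutsInto x k) :
    ∃ S : Multiset ℝ, CutsL x S ∧ Multiset.card S = k := by
  induction h with
  | cube s hs => exact ⟨{s}, CutsL.cube s hs, by simp⟩
  | cut x i t k l ht ht' h1 h2 ih1 ih2 =>
    obtain ⟨S, hS, hSc⟩ := ih1
    obtain ⟨T, hT, hTc⟩ := ih2
    exact ⟨S + T, CutsL.cut x i t S T ht ht' hS hT, by simp [hSc, hTc]⟩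

section basic

variable {ι : Type} [DecidableEq ι]

lemma CutsL.pos {x : ι → ℝ} {S : Multiset ℝ} (h : CutsL x S) :
    (∀ j, 0 < x j) ∧ ∀ s ∈ S, 0 < s := by
  induction h with
  | cube s hs => exact ⟨fun _ => hs, fun r hr => by rw [Multiset.mem_singleton] at hr; rwa [hr]⟩
  | cut x i t S T ht ht' h1 h2 ih1 ih2 =>
    refine ⟨fun j => ?_, fun s hs => ?_⟩
    · by_cases hj : j = i
      · subst hj; exact ht.trans ht'
      · have := ih1.1 j
        rwa [Function.update_of_ne hj] at this
    · rcases Multiset.mem_add.mp hs with h | h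
      · exact ih1.2 s h
      · exact ih2.2 s h

lemma CutsL.le_side {x : ι → ℝ} {S : Multiset ℝ} (h : CutsL x S) :
    ∀ s ∈ S, ∀ j, s ≤ x j := by
  induction h with
  | cube s hs => intro r hr j; rw [Multiset.mem_singleton] at hr; exact hr.le
  | cut x i t S T ht ht' h1 h2 ih1 ih2 =>
    intro s hs j
    rcases Multiset.mem_add.mp hs with h | h
    · have := ih1 s h j
      by_cases hj : j = i
      · subst hj; rw [Function.update_self] at this; linarith
      · rwa [Function.update_of_ne hj] at this
    · have := ih2 s h j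
      by_cases hj : j = i
      · subst hj; rw [Function.update_self] at this; linarith
      · rwa [Function.update_of_ne hj] at this

/-- A property of side lengths that is preserved by sums passes from the cubes to the sides. -/
lemma CutsL.side_induct {x : ι → ℝ} {S : Multiset ℝ} (h : CutsL x S) (P : ℝ → Prop)
    (hP : ∀ a b, P a → P b → P (a + b)) (hS : ∀ s ∈ S, P s) : ∀ j, P (x j) := by
  induction h with
  | cube s hs => intro _; exact hS s (Multiset.mem_singleton_self s)
  | cut x i t S T ht ht' h1 h2 ih1 ih2 =>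
    intro j
    have h3 := ih1 (fun s hs => hS s (Multiset.mem_add.mpr (Or.inl hs))) j
    have h4 := ih2 (fun s hs => hS s (Multiset.mem_add.mpr (Or.inr hs))) j
    by_cases hj : j = i
    · subst hj
      rw [Function.update_self] at h3 h4
      have := hP _ _ h3 h4
      rwa [add_sub_cancel] at this
    · rwa [Function.update_of_ne hj] at h3

end basic

section sums

variable {ι : Type} [DecidableEq ι] [Fintype ι]

lemma prod_update_split {M : Type*} [CommSemiring M] (f : ι → ℝ → M) (x : ι → ℝ) (i : ι) (t : ℝ) :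
    ∏ j, f j (Function.update x i t j) = f i t * ∏ j ∈ Finset.univ.erase i, f j (x j) := by
  rw [← Finset.mul_prod_erase _ _ (Finset.mem_univ i), Function.update_self]
  congr 1
  apply Finset.prod_congr rfl
  intro j hj
  rw [Function.update_of_ne (Finset.ne_of_mem_erase hj)]

/-- Superadditive functions: the sum over the cubes is at most the product over the sides. -/
lemma CutsL.superadd {x : ι → ℝ} {S : Multiset ℝ} (h : CutsL x S) (P : ℝ → Prop)
    (hP : ∀ a b, P a → P b → P (a + b)) (hS : ∀ s ∈ S, P s) (Φ : ι → ℝ → ℝ)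
    (h0 : ∀ j a, P a → 0 ≤ Φ j a) (hΦ : ∀ j a b, P a → P b → Φ j a + Φ j b ≤ Φ j (a + b)) :
    (S.map (fun s => ∏ j, Φ j s)).sum ≤ ∏ j, Φ j (x j) := by
  induction h with
  | cube s hs => simp
  | cut x i t S T ht ht' h1 h2 ih1 ih2 =>
    have hS1 : ∀ s ∈ S, P s := fun s hs => hS s (Multiset.mem_add.mpr (Or.inl hs))
    have hS2 : ∀ s ∈ T, P s := fun s hs => hS s (Multiset.mem_add.mpr (Or.inr hs))
    have h3 := ih1 hS1
    have h4 := ih2 hS2
    have h5 := h1.side_induct P hP hS1
    have h6 := h2.side_induct P hP hS2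
    have h5i := h5 i
    have h6i := h6 i
    rw [Function.update_self] at h5i h6i
    rw [prod_update_split] at h3 h4
    have hx := hΦ i t (x i - t) h5i h6i
    rw [add_sub_cancel] at hx
    rw [Multiset.map_add, Multiset.sum_add, ← Finset.mul_prod_erase _ _ (Finset.mem_univ i)]
    have hnn : 0 ≤ ∏ j ∈ Finset.univ.erase i, Φ j (x j) := by
      apply Finset.prod_nonneg
      intro j hj
      apply h0
      have := h5 j
      rwa [Function.update_of_ne (Finset.ne_of_mem_erase hj)] at this
    calc _ ≤ Φ i t * ∏ j ∈ Finset.univ.erase i, Φ j (x j) +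
          Φ i (x i - t) * ∏ j ∈ Finset.univ.erase i, Φ j (x j) := add_le_add h3 h4
      _ = (Φ i t + Φ i (x i - t)) * ∏ j ∈ Finset.univ.erase i, Φ j (x j) := by ring
      _ ≤ _ := mul_le_mul_of_nonneg_right hx hnn

/-- Functions additive on a set of side lengths. -/
lemma CutsL.additive {M : Type*} [CommSemiring M] {x : ι → ℝ} {S : Multiset ℝ} (h : CutsL x S)
    (P : ℝ → Prop) (hP : ∀ a b, P a → P b → P (a + b)) (hS : ∀ s ∈ S, P s) (H : ℝ → M)
    (hH : ∀ a b, P a → P b → H (a + b) = H a + H b) :
    ∏ j, H (x j) = (S.map (fun s => H s ^ Fintype.card ι)).sum := by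
  induction h with
  | cube s hs => simp
  | cut x i t S T ht ht' h1 h2 ih1 ih2 =>
    have hS1 : ∀ s ∈ S, P s := fun s hs => hS s (Multiset.mem_add.mpr (Or.inl hs))
    have hS2 : ∀ s ∈ T, P s := fun s hs => hS s (Multiset.mem_add.mpr (Or.inr hs))
    have h3 := ih1 hS1
    have h4 := ih2 hS2
    have h5i := h1.side_induct P hP hS1 i
    have h6i := h2.side_induct P hP hS2 i
    rw [Function.update_self] at h5i h6i
    rw [prod_update_split (fun _ => H)] at h3 h4
    have hx := hH t (x i - t) h5i h6i
    rw [add_sub_cancel] at hx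
    rw [Multiset.map_add, Multiset.sum_add, ← h3, ← h4,
      ← Finset.mul_prod_erase _ _ (Finset.mem_univ i), hx]
    ring

lemma CutsL.volume {x : ι → ℝ} {S : Multiset ℝ} (h : CutsL x S) :
    ∏ j, x j = (S.map (fun s => s ^ Fintype.card ι)).sum :=
  h.additive (fun _ => True) (fun _ _ _ _ => trivial) (fun _ _ => trivial) (fun s => s)
    (fun _ _ _ _ => rfl)

end sums

section slices

variable {ι : Type} [DecidableEq ι] [Fintype ι]

/-- Slices: restrict the box to the coordinates in `E`. The sum of a nonnegative function over the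
cubes that are hit is at most its average. -/
lemma CutsL.slice (E : Finset ι) {x : ι → ℝ} {S : Multiset ℝ} (h : CutsL x S) (g : ℝ → ℝ) :
    ∃ S' : Multiset ℝ, CutsL (fun j : {j // j ∈ E} => x j) S' ∧ (∀ s ∈ S', s ∈ S) ∧
      (S'.map g).sum * ∏ j ∈ Eᶜ, x j ≤ (S.map (fun s => g s * s ^ (Eᶜ).card)).sum := by
  induction h with
  | cube s hs =>
    refine ⟨{s}, CutsL.cube s hs, fun r hr => hr, ?_⟩
    simp
  | cut x i t S T ht ht' h1 h2 ih1 ih2 =>
    obtain ⟨S', hS', hSS', hSsum⟩ := ih1
    obtain ⟨T', hT', hTT', hTsum⟩ := ih2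
    by_cases hi : i ∈ E
    · have e1 : ∀ u : ℝ, (fun j : {j // j ∈ E} => Function.update x i u j) =
          Function.update (fun j : {j // j ∈ E} => x j) ⟨i, hi⟩ u := by
        intro u
        funext j
        by_cases hj : j = ⟨i, hi⟩
        · subst hj; simp
        · have hj' : (j : ι) ≠ i := fun h => hj (Subtype.ext h)
          rw [Function.update_of_ne hj, Function.update_of_ne hj']
      rw [e1] at hS' hT'
      have e2 : ∀ u : ℝ, ∏ j ∈ Eᶜ, Function.update x i u j = ∏ j ∈ Eᶜ, x j := by
        intro u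
        apply Finset.prod_congr rfl
        intro j hj
        have : j ≠ i := fun h => (Finset.mem_compl.mp hj) (h ▸ hi)
        rw [Function.update_of_ne this]
      rw [e2] at hSsum hTsum
      refine ⟨S' + T', CutsL.cut _ ⟨i, hi⟩ t S' T' ht ht' hS' hT', ?_, ?_⟩
      · intro s hs
        rcases Multiset.mem_add.mp hs with h | h
        · exact Multiset.mem_add.mpr (Or.inl (hSS' s h))
        · exact Multiset.mem_add.mpr (Or.inr (hTT' s h))
      · rw [Multiset.map_add, Multiset.map_add, Multiset.sum_add, Multiset.sum_add, add_mul]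
        exact add_le_add hSsum hTsum
    · have e1 : ∀ u : ℝ, (fun j : {j // j ∈ E} => Function.update x i u j) =
          (fun j : {j // j ∈ E} => x j) := by
        intro u
        funext j
        have hj' : (j : ι) ≠ i := fun h => hi (h ▸ j.2)
        rw [Function.update_of_ne hj']
      rw [e1] at hS' hT'
      have hic : i ∈ Eᶜ := Finset.mem_compl.mpr hi
      have e2 : ∀ u : ℝ, ∏ j ∈ Eᶜ, Function.update x i u j = u * ∏ j ∈ Eᶜ.erase i, x j := by
        intro u
        rw [← Finset.mul_prod_erase _ _ hic, Function.update_self]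
        congr 1
        apply Finset.prod_congr rfl
        intro j hj
        rw [Function.update_of_ne (Finset.ne_of_mem_erase hj)]
      rw [e2] at hSsum hTsum
      have e3 : ∏ j ∈ Eᶜ, x j = x i * ∏ j ∈ Eᶜ.erase i, x j := (Finset.mul_prod_erase _ _ hic).symm
      have hxpos : ∀ j, 0 < x j := by
        intro j
        by_cases hj : j = i
        · subst hj; exact ht.trans ht'
        · have := h1.pos.1 j
          rwa [Function.update_of_ne hj] at this
      have hQ : 0 < ∏ j ∈ Eᶜ.erase i, x j := Finset.prod_pos fun j _ => hxpos j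
      set Q := ∏ j ∈ Eᶜ.erase i, x j with hQdef
      set a := (S'.map g).sum with ha
      set b := (T'.map g).sum with hb
      have ht'' : 0 < x i - t := by linarith
      rw [e3, Multiset.map_add, Multiset.sum_add]
      rcases le_total a b with hab | hab
      · refine ⟨S', hS', fun s hs => Multiset.mem_add.mpr (Or.inl (hSS' s hs)), ?_⟩
        rw [← ha]
        have h3 : a * ((x i - t) * Q) ≤ b * ((x i - t) * Q) :=
          mul_le_mul_of_nonneg_right hab (mul_pos ht'' hQ).le
        nlinarith
      · refine ⟨T', hT', fun s hs => Multiset.mem_add.mpr (Or.inr (hTT' s hs)), ?_⟩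
        rw [← hb]
        have h3 : b * (t * Q) ≤ a * (t * Q) :=
          mul_le_mul_of_nonneg_right hab (mul_pos ht hQ).le
        nlinarith

/-- A slice that avoids all small cubes. -/
lemma CutsL.slice_avoid (E : Finset ι) {x : ι → ℝ} {S : Multiset ℝ} (h : CutsL x S) {δ : ℝ}
    (hδ : 0 < δ) (hlt : (Multiset.card S : ℝ) * δ ^ (Eᶜ).card < ∏ j ∈ Eᶜ, x j) :
    ∃ S' : Multiset ℝ, CutsL (fun j : {j // j ∈ E} => x j) S' ∧ (∀ s ∈ S', s ∈ S) ∧
      ∀ s ∈ S', δ ≤ s := by
  classical
  obtain ⟨S', hS', hsub, hsum⟩ := h.slice E (fun s => if s < δ then 1 else 0)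
  refine ⟨S', hS', hsub, fun s hs => ?_⟩
  by_contra hcon
  push Not at hcon
  have h1 : (1 : ℝ) ≤ (S'.map (fun s => if s < δ then (1 : ℝ) else 0)).sum := by
    have h2 := Multiset.single_le_sum (s := S'.map (fun s => if s < δ then (1 : ℝ) else 0))
      (fun y hy => by
        obtain ⟨z, -, rfl⟩ := Multiset.mem_map.mp hy
        split_ifs <;> norm_num) (if s < δ then (1 : ℝ) else 0) (Multiset.mem_map_of_mem _ hs)
    rwa [if_pos hcon] at h2
  have hbound : (S.map (fun s => (if s < δ then (1 : ℝ) else 0) * s ^ (Eᶜ).card)).sum ≤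
      (Multiset.card S : ℝ) * δ ^ (Eᶜ).card := by
    have h3 := Multiset.sum_le_card_nsmul
      (S.map (fun s => (if s < δ then (1 : ℝ) else 0) * s ^ (Eᶜ).card)) (δ ^ (Eᶜ).card) (by
        intro y hy
        obtain ⟨z, hz, rfl⟩ := Multiset.mem_map.mp hy
        have hz0 := h.pos.2 z hz
        split_ifs with hzδ
        · rw [one_mul]
          exact pow_le_pow_left₀ hz0.le hzδ.le _
        · rw [zero_mul]
          positivity)
    rwa [Multiset.card_map, nsmul_eq_mul] at h3
  have hprod : 0 < ∏ j ∈ Eᶜ, x j := Finset.prod_pos fun j _ => h.pos.1 j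
  have : 1 * ∏ j ∈ Eᶜ, x j ≤ (S'.map (fun s => if s < δ then (1 : ℝ) else 0)).sum *
      ∏ j ∈ Eᶜ, x j := mul_le_mul_of_nonneg_right h1 hprod.le
  linarith

end slices

section classes

lemma multiset_sum_comm {κ : Type*} [Fintype κ] (S : Multiset ℝ) (f : κ → ℝ → ℝ) :
    (S.map (fun s => ∑ c, f c s)).sum = ∑ c, (S.map (f c)).sum := by
  induction S using Multiset.induction with
  | empty => simp
  | cons a S ih => simp [Finset.sum_add_distrib, ih]

variable {ι : Type} [DecidableEq ι] [Fintype ι]

/-- A box some of whose sides lie in the kernel of `H` and some of whose sides do not, cut into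
cubes of side at least `δ`. -/
lemma CutsL.class_bound {p : ℕ} (hp : p.Prime) {x : ι → ℝ} {S : Multiset ℝ} (h : CutsL x S)
    (Γ : ℝ → Prop) (hΓ : ∀ a b, Γ a → Γ b → Γ (a + b)) (H : ℝ → ZMod p)
    (hH : ∀ a b, Γ a → Γ b → H (a + b) = H a + H b) {δ X : ℝ} (hδ : 0 < δ)
    (hS : ∀ s ∈ S, Γ s ∧ δ ≤ s) (hX : ∀ j, x j ≤ X) (hXp : X < p * δ) {m : ℕ}
    {R P : Finset ι} (hR : ∀ j ∈ R, H (x j) = 0) (hP : ∀ j ∈ P, H (x j) ≠ 0)
    (hRm : m ≤ R.card) (hPm : m ≤ P.card) (hne : Nonempty ι) :
    (1 : ℝ) ≤ p * (1 - δ / X) ^ m := by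
  classical
  have : Fact p.Prime := ⟨hp⟩
  set Q : ℝ → Prop := fun a => Γ a ∧ δ ≤ a with hQ
  have hQadd : ∀ a b, Q a → Q b → Q (a + b) := fun a b ha hb =>
    ⟨hΓ a b ha.1 hb.1, by linarith [ha.2, hb.2]⟩
  set pure : ZMod p → ℝ → Prop := fun c a => ∃ r : ℕ, 1 ≤ r ∧ (r : ℝ) * δ ≤ a ∧ H a = r * c
    with hpure
  set Φ : ZMod p → ℝ → ℝ := fun c a => if pure c a then a else a - δ with hΦ
  have hΦle : ∀ c a, Φ c a ≤ a := by
    intro c a
    simp only [hΦ]
    split_ifs <;> linarith
  have hΦge : ∀ c a, a - δ ≤ Φ c a := by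
    intro c a
    simp only [hΦ]
    split_ifs <;> linarith
  have hΦ0 : ∀ c a, Q a → 0 ≤ Φ c a := fun c a ha => by
    have := hΦge c a
    linarith [ha.2]
  have hsuper : ∀ c a b, Q a → Q b → Φ c a + Φ c b ≤ Φ c (a + b) := by
    intro c a b ha hb
    by_cases h1 : pure c a
    · by_cases h2 : pure c b
      · have h3 : pure c (a + b) := by
          obtain ⟨r, hr1, hr2, hr3⟩ := h1
          obtain ⟨r', hr1', hr2', hr3'⟩ := h2
          refine ⟨r + r', by omega, by push_cast; linarith, ?_⟩
          rw [hH a b ha.1 hb.1, hr3, hr3']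
          push_cast
          ring
        simp only [hΦ, if_pos h1, if_pos h2, if_pos h3]
        exact le_rfl
      · have h3 : Φ c b = b - δ := by simp only [hΦ, if_neg h2]
        have h4 := hΦle c a
        have h5 := hΦge c (a + b)
        linarith
    · have h3 : Φ c a = a - δ := by simp only [hΦ, if_neg h1]
      have h4 := hΦle c b
      have h5 := hΦge c (a + b)
      linarith
  have hside : ∀ j, Q (x j) := h.side_induct Q hQadd hS
  obtain ⟨j₀⟩ := hne
  have hXpos : 0 < X := lt_of_lt_of_le hδ ((hside j₀).2.trans (hX j₀))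
  have hδX : δ ≤ X := (hside j₀).2.trans (hX j₀)
  have hfac0 : 0 ≤ 1 - δ / X := by
    rw [sub_nonneg, div_le_one hXpos]; exact hδX
  have hfac1 : 1 - δ / X ≤ 1 := by
    have : 0 ≤ δ / X := by positivity
    linarith
  have hV : 0 < ∏ j, x j := Finset.prod_pos fun j _ => h.pos.1 j
  -- bound for each class
  have hclass : ∀ c : ZMod p, ∏ j, Φ c (x j) ≤ (∏ j, x j) * (1 - δ / X) ^ m := by
    intro c
    have key : ∀ D : Finset ι, m ≤ D.card → (∀ j ∈ D, ¬ pure c (x j)) →
        ∏ j, Φ c (x j) ≤ (∏ j, x j) * (1 - δ / X) ^ m := by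
      intro D hDm hD
      calc ∏ j, Φ c (x j) ≤ ∏ j, x j * (if j ∈ D then 1 - δ / X else 1) := by
            apply Finset.prod_le_prod
            · intro j _
              exact hΦ0 c _ (hside j)
            · intro j _
              split_ifs with hj
              · have h1 : Φ c (x j) = x j - δ := by simp only [hΦ, if_neg (hD j hj)]
                rw [h1, mul_sub, mul_one]
                have hxj := h.pos.1 j
                have h2 : x j * (δ / X) ≤ δ := by
                  rw [← mul_div_assoc, div_le_iff₀ hXpos]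
                  have := hX j
                  nlinarith
                linarith
              · rw [mul_one]; exact hΦle c _
        _ = (∏ j, x j) * (1 - δ / X) ^ D.card := by
            rw [Finset.prod_mul_distrib, Finset.prod_ite]
            simp
        _ ≤ (∏ j, x j) * (1 - δ / X) ^ m :=
            mul_le_mul_of_nonneg_left (pow_le_pow_of_le_one hfac0 hfac1 hDm) hV.le
    by_cases hc : c = 0
    · refine key P hPm fun j hj hpj => ?_
      obtain ⟨r, -, -, hr⟩ := hpj
      rw [hc, mul_zero] at hr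
      exact hP j hj hr
    · refine key R hRm fun j hj hpj => ?_
      obtain ⟨r, hr1, hr2, hr3⟩ := hpj
      rw [hR j hj] at hr3
      have h1 : (r : ZMod p) = 0 := by
        rcases mul_eq_zero.mp hr3.symm with h | h
        · exact h
        · exact absurd h hc
      rw [ZMod.natCast_eq_zero_iff] at h1
      have h2 : p ≤ r := Nat.le_of_dvd (by omega) h1
      have h3 : (p : ℝ) ≤ r := by exact_mod_cast h2
      have h4 := hX j
      nlinarith
  -- sum over the classes
  have hsum : ∏ j, x j ≤ ∑ c : ZMod p, ∏ j, Φ c (x j) := by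
    calc ∏ j, x j = (S.map (fun s => s ^ Fintype.card ι)).sum := h.volume
      _ ≤ (S.map (fun s => ∑ c : ZMod p, ∏ _j : ι, Φ c s)).sum := by
          apply Multiset.sum_map_le_sum_map
          intro s hs
          have hQs := hS s hs
          have h1 : Φ (H s) s = s := by
            have : pure (H s) s := ⟨1, le_rfl, by push_cast; linarith [hQs.2], by push_cast; ring⟩
            simp only [hΦ, if_pos this]
          calc s ^ Fintype.card ι = ∏ _j : ι, Φ (H s) s := by
                rw [h1, Finset.prod_const, Finset.card_univ]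
            _ ≤ ∑ c : ZMod p, ∏ _j : ι, Φ c s :=
                Finset.single_le_sum (f := fun c => ∏ _j : ι, Φ c s)
                  (fun c _ => Finset.prod_nonneg fun _ _ => hΦ0 c s hQs) (Finset.mem_univ _)
      _ = ∑ c : ZMod p, (S.map (fun s => ∏ _j : ι, Φ c s)).sum := by
          exact multiset_sum_comm S fun c s => ∏ _j : ι, Φ c s
      _ ≤ ∑ c : ZMod p, ∏ j, Φ c (x j) := by
          apply Finset.sum_le_sum
          intro c _
          exact h.superadd Q hQadd hS (fun _ => Φ c) (fun _ a ha => hΦ0 c a ha)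
            (fun _ a b ha hb => hsuper c a b ha hb)
  have hfin : ∏ j, x j ≤ p * ((∏ j, x j) * (1 - δ / X) ^ m) := by
    refine hsum.trans ((Finset.sum_le_sum fun c _ => hclass c).trans (le_of_eq ?_))
    rw [Finset.sum_const, Finset.card_univ, ZMod.card, nsmul_eq_mul]
  have h1 : (∏ j, x j) * 1 ≤ (∏ j, x j) * (p * (1 - δ / X) ^ m) := by
    calc (∏ j, x j) * 1 = ∏ j, x j := mul_one _
      _ ≤ _ := hfin
      _ = _ := by ring
  exact le_of_mul_le_mul_left h1 hV

end classes

end Pool.Agent.MP9df71a
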