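import Pool.Agent.Lib.MP_9df71a_co.GLower

/-!
The lower bound `n ^ (n / 32)` for hierarchical decompositions into `k ≢ 1 mod n + 1` cubes,
`n + 1` prime.
-/

open Filter

namespace Pool.Agent.MP9df71a

section path

variable {ι : Type} [DecidableEq ι] [Fintype ι]

/-- Number of sides outside the kernel of `H`. -/
def nu {p : ℕ} (H : ℝ → ZMod p) (x : ι → ℝ) : ℕ :=
  (Finset.univ.filter fun j => H (x j) ≠ 0).card

lemma nu_update_le {p : ℕ} (H : ℝ → ZMod p) (x : ι → ℝ) (i : ι) (t : ℝ) :
    nu H (Function.update x i t) ≤ nu H x + 1 := by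
  unfold nu
  refine (Finset.card_le_card (t := insert i (Finset.univ.filter fun j => H (x j) ≠ 0)) ?_).trans
    (Finset.card_insert_le _ _)
  intro j hj
  rw [Finset.mem_filter] at hj
  by_cases hji : j = i
  · rw [hji]; exact Finset.mem_insert_self _ _
  · rw [Function.update_of_ne hji] at hj
    exact Finset.mem_insert_of_mem (Finset.mem_filter.mpr hj)

lemma nu_le_update {p : ℕ} (H : ℝ → ZMod p) (x : ι → ℝ) (i : ι) (t : ℝ) :
    nu H x ≤ nu H (Function.update x i t) + 1 := by
  have h := nu_update_le H (Function.update x i t) i (x i)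
  rwa [Function.update_idem, Function.update_eq_self] at h

/-- Along the way from a box to one of its cubes, every intermediate number of sides outside the
kernel occurs. -/
lemma CutsL.exists_mid {p : ℕ} (H : ℝ → ZMod p) {x : ι → ℝ} {S : Multiset ℝ} (h : CutsL x S)
    {s₀ : ℝ} (hs₀ : s₀ ∈ S) {m : ℕ}
    (hm : (nu H x ≤ m ∧ m ≤ nu H (fun _ : ι => s₀)) ∨
      (nu H (fun _ : ι => s₀) ≤ m ∧ m ≤ nu H x)) :
    ∃ (y : ι → ℝ) (T : Multiset ℝ), CutsL y T ∧ T ≤ S ∧ nu H y = m := by
  induction h with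
  | cube s hs =>
    rw [Multiset.mem_singleton] at hs₀
    subst hs₀
    exact ⟨_, _, CutsL.cube s₀ hs, le_rfl, by omega⟩
  | cut x i t S T ht ht' h1 h2 ih1 ih2 =>
    by_cases hx : nu H x = m
    · exact ⟨x, S + T, CutsL.cut x i t S T ht ht' h1 h2, le_rfl, hx⟩
    rcases Multiset.mem_add.mp hs₀ with hs | hs
    · have e1 := nu_update_le H x i t
      have e2 := nu_le_update H x i t
      obtain ⟨y, T', hT', hle, hy⟩ := ih1 hs (by omega)
      exact ⟨y, T', hT', hle.trans (Multiset.le_add_right _ _), hy⟩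
    · have e1 := nu_update_le H x i (x i - t)
      have e2 := nu_le_update H x i (x i - t)
      obtain ⟨y, T', hT', hle, hy⟩ := ih2 hs (by omega)
      exact ⟨y, T', hT', hle.trans (Multiset.le_add_left _ _), hy⟩

end path

/-- If the number of cubes is not `1` modulo `p`, some homomorphism to `ZMod p` separates the unit
cube from one of the cubes. -/
lemma CutsL.exists_hom {n p : ℕ} (hp : p.Prime) (hn : 0 < n) (hpn : n = p - 1) {S : Multiset ℝ}
    (h : CutsL (fun _ : Fin n => (1 : ℝ)) S) (hk : ¬ Multiset.card S ≡ 1 [MOD p]) :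
    ∃ (Γ : ℝ → Prop) (H : ℝ → ZMod p), (∀ a b, Γ a → Γ b → Γ (a + b)) ∧ (∀ s ∈ S, Γ s) ∧
      (∀ a b, Γ a → Γ b → H (a + b) = H a + H b) ∧
      ∃ s₀ ∈ S, (H 1 = 0 ∧ H s₀ ≠ 0) ∨ (H 1 ≠ 0 ∧ H s₀ = 0) := by
  classical
  have : Fact p.Prime := ⟨hp⟩
  set G : AddSubgroup ℝ := AddSubgroup.closure (S.toFinset : Set ℝ) with hG
  have hSG : ∀ s ∈ S, s ∈ G := fun s hs =>
    AddSubgroup.subset_closure (by simpa using hs)
  have h1G : (1 : ℝ) ∈ G :=
    h.side_induct (fun a => a ∈ G) (fun a b ha hb => G.add_mem ha hb) hSG ⟨0, hn⟩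
  have hfg : AddGroup.FG G := by
    rw [AddGroup.fg_iff_addSubgroup_fg]
    exact ⟨S.toFinset, rfl⟩
  have hfin : Module.Finite ℤ G := Module.Finite.iff_addGroup_fg.mpr hfg
  have hfree : Module.Free ℤ G := Module.free_of_finite_type_torsion_free'
  set b := Module.Free.chooseBasis ℤ G with hb
  set Hi : Module.Free.ChooseBasisIndex ℤ G → ℝ → ZMod p := fun i a =>
    if ha : a ∈ G then ((b.repr ⟨a, ha⟩ i : ℤ) : ZMod p) else 0 with hHi
  have hHi_add : ∀ i a b, a ∈ G → b ∈ G → Hi i (a + b) = Hi i a + Hi i b := by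
    intro i a c ha hc
    simp only [hHi, dif_pos ha, dif_pos hc, dif_pos (G.add_mem ha hc)]
    have : (⟨a + c, G.add_mem ha hc⟩ : G) = ⟨a, ha⟩ + ⟨c, hc⟩ := rfl
    rw [this, map_add]
    simp
  by_cases hcase : ∃ i, Hi i 1 ≠ 0
  · obtain ⟨i, hi⟩ := hcase
    refine ⟨fun a => a ∈ G, Hi i, fun a b ha hb => G.add_mem ha hb, hSG, hHi_add i, ?_⟩
    by_contra hcon
    push Not at hcon
    apply hk
    have h1 := h.additive (fun a => a ∈ G) (fun a b ha hb => G.add_mem ha hb) hSG (Hi i)
      (hHi_add i)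
    have h2 : (S.map (fun s => Hi i s ^ Fintype.card (Fin n))) = S.map (fun _ => (1 : ZMod p)) := by
      apply Multiset.map_congr rfl
      intro s hs
      have h3 := (hcon s hs).2 hi
      rw [Fintype.card_fin, hpn]
      exact ZMod.pow_card_sub_one_eq_one h3
    rw [h2, Finset.prod_const, Finset.card_univ, Fintype.card_fin, hpn,
      ZMod.pow_card_sub_one_eq_one hi, Multiset.map_const', Multiset.sum_replicate,
      nsmul_eq_mul, mul_one] at h1
    rw [← ZMod.natCast_eq_natCast_iff]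
    push_cast
    exact h1.symm
  · push Not at hcase
    have hne : Nonempty (Module.Free.ChooseBasisIndex ℤ G) := by
      by_contra hempty
      rw [not_nonempty_iff] at hempty
      have h1 : (⟨1, h1G⟩ : G) = 0 := by
        apply b.repr.injective
        ext i
        exact hempty.elim i
      have h2 := congrArg Subtype.val h1
      simp at h2
    obtain ⟨i⟩ := hne
    refine ⟨fun a => a ∈ G, Hi i, fun a b ha hb => G.add_mem ha hb, hSG, hHi_add i, ?_⟩
    by_contra hcon
    push Not at hcon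
    have hzero : ∀ s ∈ S, Hi i s = 0 := fun s hs => (hcon s hs).1 (hcase i)
    -- the homomorphism vanishes on the closure
    let φ : G →+ ZMod p :=
      { toFun := fun g => ((b.repr g i : ℤ) : ZMod p)
        map_zero' := by simp
        map_add' := fun x y => by simp }
    have hφ : ∀ a (ha : a ∈ G), φ ⟨a, ha⟩ = 0 := by
      intro a ha
      induction ha using AddSubgroup.closure_induction with
      | mem x hx =>
        have hx' : x ∈ S := by simpa using hx
        have h1 := hzero x hx'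
        simp only [hHi, dif_pos (hSG x hx')] at h1
        exact h1
      | zero => exact φ.map_zero
      | add x y hx hy ihx ihy =>
        have : (⟨x + y, G.add_mem hx hy⟩ : G) = ⟨x, hx⟩ + ⟨y, hy⟩ := rfl
        change φ ⟨x + y, G.add_mem hx hy⟩ = 0
        rw [this, map_add]
        rw [show φ ⟨x, hx⟩ = 0 from ihx, show φ ⟨y, hy⟩ = 0 from ihy, add_zero]
      | neg x hx ihx =>
        have : (⟨-x, G.neg_mem hx⟩ : G) = -⟨x, hx⟩ := rfl
        change φ ⟨-x, G.neg_mem hx⟩ = 0
        rw [this, map_neg]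
        rw [show φ ⟨x, hx⟩ = 0 from ihx, neg_zero]
    have h1 := hφ (b i : ℝ) (b i).2
    have h2 : φ (b i) = 1 := by
      show ((b.repr (b i) i : ℤ) : ZMod p) = 1
      simp
    exact one_ne_zero (h2.symm.trans h1)

/-- A box with about half of its sides in the kernel of `H` and half of them not needs many
cubes. -/
lemma CutsL.mid_bound {n p : ℕ} (hp : p.Prime) {y : Fin n → ℝ} {T : Multiset ℝ} (h : CutsL y T)
    (Γ : ℝ → Prop) (hΓ : ∀ a b, Γ a → Γ b → Γ (a + b)) (H : ℝ → ZMod p)
    (hH : ∀ a b, Γ a → Γ b → H (a + b) = H a + H b) (hT : ∀ s ∈ T, Γ s)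
    {m : ℕ} (hm : 0 < m) {β θ : ℝ} (hβ : 1 ≤ β) (hθ : 0 < θ) (hpθ : 1 < p * θ)
    (hexp : p * Real.exp (-(θ * m)) < 1)
    (hnu1 : 2 * m ≤ nu H y) (hnu2 : 2 * m + nu H y ≤ n)
    (hcard1 : (Multiset.card T : ℝ) < β ^ m)
    (hcard2 : (Multiset.card T : ℝ) * (β * θ) ^ (n - 2 * m) < 1) : False := by
  classical
  have hn : 0 < n := by omega
  have hne : Nonempty (Fin n) := ⟨⟨0, hn⟩⟩
  have hypos := h.pos.1
  -- the shortest side
  obtain ⟨j₀, hj₀⟩ := Finite.exists_min y
  set μ := y j₀ with hμ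
  have hμpos : 0 < μ := hypos j₀
  -- few long sides
  set Z := Finset.univ.filter fun j => β * μ < y j with hZ
  have hZcard : Z.card < m := by
    by_contra hcon
    push Not at hcon
    have h1 : ∏ j, y j = (T.map (fun s => s ^ Fintype.card (Fin n))).sum := h.volume
    have h2 : (T.map (fun s => s ^ Fintype.card (Fin n))).sum ≤ (Multiset.card T : ℝ) * μ ^ n := by
      have h3 := Multiset.sum_le_card_nsmul (T.map (fun s => s ^ Fintype.card (Fin n))) (μ ^ n) (by
        intro z hz
        obtain ⟨s, hs, rfl⟩ := Multiset.mem_map.mp hz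
        rw [Fintype.card_fin]
        exact pow_le_pow_left₀ (h.pos.2 s hs).le (h.le_side s hs j₀) n)
      rwa [Multiset.card_map, nsmul_eq_mul] at h3
    have h3 : β ^ m * μ ^ n ≤ ∏ j, y j := by
      calc β ^ m * μ ^ n ≤ β ^ Z.card * μ ^ n :=
            mul_le_mul_of_nonneg_right (pow_le_pow_right₀ hβ hcon) (by positivity)
        _ = ∏ j, (if j ∈ Z then β * μ else μ) := by
            rw [Finset.prod_ite, Finset.prod_const, Finset.prod_const]
            have e1 : (Finset.univ.filter fun j => j ∈ Z) = Z := by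
              ext j; simp
            have e2 : (Finset.univ.filter fun j => j ∉ Z) = Zᶜ := by
              ext j; simp
            rw [e1, e2, mul_pow, Finset.card_compl, Fintype.card_fin, mul_assoc, ← pow_add]
            congr 2
            have := Finset.card_le_univ Z
            rw [Fintype.card_fin] at this
            omega
        _ ≤ ∏ j, y j := by
            apply Finset.prod_le_prod
            · intro j _
              split_ifs <;> positivity
            · intro j _
              split_ifs with hj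
              · rw [hZ, Finset.mem_filter] at hj
                exact hj.2.le
              · exact hj₀ j
    have h4 : β ^ m * μ ^ n ≤ (Multiset.card T : ℝ) * μ ^ n := h3.trans (h1.le.trans h2)
    have h5 := le_of_mul_le_mul_right h4 (by positivity)
    linarith
  -- choose the coordinates
  set P := Finset.univ.filter fun j => H (y j) ≠ 0 with hP
  have hPcard : P.card = nu H y := rfl
  have hPZ : m ≤ (P \ Z).card := by
    have := Finset.le_card_sdiff Z P
    omega
  have hRZ : m ≤ (Pᶜ \ Z).card := by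
    have := Finset.le_card_sdiff Z Pᶜ
    rw [Finset.card_compl, Fintype.card_fin] at this
    omega
  obtain ⟨P', hP'sub, hP'card⟩ := Finset.exists_subset_card_eq hPZ
  obtain ⟨R', hR'sub, hR'card⟩ := Finset.exists_subset_card_eq hRZ
  have hdisj : Disjoint P' R' := by
    rw [Finset.disjoint_left]
    intro j hj1 hj2
    have h1 := Finset.mem_sdiff.mp (hP'sub hj1)
    have h2 := Finset.mem_sdiff.mp (hR'sub hj2)
    exact (Finset.mem_compl.mp h2.1) h1.1
  set E := P' ∪ R' with hE
  have hEcard : E.card = 2 * m := by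
    rw [hE, Finset.card_union_of_disjoint hdisj]
    omega
  have hEc : (Eᶜ).card = n - 2 * m := by
    rw [Finset.card_compl, Fintype.card_fin, hEcard]
  have hEZ : ∀ j ∈ E, y j ≤ β * μ := by
    intro j hj
    have : j ∉ Z := by
      rcases Finset.mem_union.mp hj with h | h
      · exact (Finset.mem_sdiff.mp (hP'sub h)).2
      · exact (Finset.mem_sdiff.mp (hR'sub h)).2
    rw [hZ, Finset.mem_filter] at this
    push Not at this
    exact this (Finset.mem_univ j)
  set δ := β * μ * θ with hδ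
  have hβ0 : 0 < β := by linarith
  have hδpos : 0 < δ := by positivity
  -- the slice
  have hslice : (Multiset.card T : ℝ) * δ ^ (Eᶜ).card < ∏ j ∈ Eᶜ, y j := by
    have h1 : μ ^ (Eᶜ).card ≤ ∏ j ∈ Eᶜ, y j := by
      calc μ ^ (Eᶜ).card = ∏ _j ∈ Eᶜ, μ := by rw [Finset.prod_const]
        _ ≤ _ := Finset.prod_le_prod (fun _ _ => hμpos.le) fun j _ => hj₀ j
    refine lt_of_lt_of_le ?_ h1
    have h2 : δ = (β * θ) * μ := by rw [hδ]; ring
    rw [h2, mul_pow, ← mul_assoc, hEc]
    have h3 : 0 < μ ^ (n - 2 * m) := by positivity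
    nlinarith
  obtain ⟨S', hS', hsub, hge⟩ := h.slice_avoid E hδpos hslice
  have hneE : Nonempty {j // j ∈ E} := by
    have : 0 < E.card := by omega
    obtain ⟨j, hj⟩ := Finset.card_pos.mp this
    exact ⟨⟨j, hj⟩⟩
  have hsubtype : ∀ A : Finset (Fin n), A ⊆ E →
      (Finset.univ.filter fun j : {j // j ∈ E} => (j : Fin n) ∈ A).card = A.card := by
    intro A hA
    have : (Finset.univ.filter fun j : {j // j ∈ E} => (j : Fin n) ∈ A).map
        (Function.Embedding.subtype _) = A := by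
      ext j
      simp only [Finset.mem_map, Finset.mem_filter, Finset.mem_univ, true_and,
        Function.Embedding.coe_subtype, Subtype.exists, exists_and_left, exists_prop,
        exists_eq_right_right]
      constructor
      · rintro ⟨h1, h2⟩; exact h1
      · intro h1; exact ⟨h1, hA h1⟩
    rw [← this, Finset.card_map]
    simp [this]
  have hb := hS'.class_bound hp Γ hΓ H hH (X := β * μ) hδpos
    (fun s hs => ⟨hT s (hsub s hs), hge s hs⟩) (fun j => hEZ j j.2)
    (by rw [hδ]; nlinarith [mul_pos hβ0 hμpos]) (m := m)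
    (R := Finset.univ.filter fun j : {j // j ∈ E} => (j : Fin n) ∈ R')
    (P := Finset.univ.filter fun j : {j // j ∈ E} => (j : Fin n) ∈ P')
    (by
      intro j hj
      rw [Finset.mem_filter] at hj
      have h1 := Finset.mem_compl.mp (Finset.mem_sdiff.mp (hR'sub hj.2)).1
      rw [hP, Finset.mem_filter] at h1
      push Not at h1
      exact h1 (Finset.mem_univ _))
    (by
      intro j hj
      rw [Finset.mem_filter] at hj
      have h1 := (Finset.mem_sdiff.mp (hP'sub hj.2)).1
      rw [hP, Finset.mem_filter] at h1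
      exact h1.2)
    (by rw [hsubtype R' Finset.subset_union_right, hR'card])
    (by rw [hsubtype P' Finset.subset_union_left, hP'card]) hneE
  have hratio : δ / (β * μ) = θ := by
    rw [hδ]
    field_simp
  rw [hratio] at hb
  -- `1 - θ ≥ 0`
  have hθ1 : 0 ≤ 1 - θ := by
    obtain ⟨j⟩ := hneE
    have h1 := hS'.side_induct (fun a => δ ≤ a) (fun a b ha hb => by linarith) hge j
    have h2 := hEZ j j.2
    have h3 : δ ≤ β * μ := h1.trans h2
    rw [hδ] at h3
    have h4 : 0 < β * μ := by positivity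
    nlinarith
  have h1 : (1 - θ) ^ m ≤ Real.exp (-(θ * m)) := by
    have h2 : 1 - θ ≤ Real.exp (-θ) := by
      have := Real.add_one_le_exp (-θ)
      linarith
    calc (1 - θ) ^ m ≤ (Real.exp (-θ)) ^ m := pow_le_pow_left₀ hθ1 h2 m
      _ = Real.exp (-(θ * m)) := by rw [← Real.exp_nat_mul]; congr 1; ring
  have hp0 : (0 : ℝ) ≤ p := Nat.cast_nonneg p
  have := mul_le_mul_of_nonneg_left h1 hp0
  linarith

/-- Hierarchical decompositions of the unit cube of dimension `n = p - 1`, `p` prime, into a number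
of cubes which is not `1` modulo `p` have at least `n ^ (n / 32)` cubes. -/
theorem cut_lower : ∃ n₀ : ℕ, ∀ n : ℕ, n₀ ≤ n → (n + 1).Prime → ∀ k : ℕ, CutAdmissible n k →
    ¬ k ≡ 1 [MOD n + 1] → (n : ℝ) ^ ((n : ℝ) / 32) ≤ k := by
  have h1 : (fun x : ℝ => Real.log x) =o[atTop] fun x : ℝ => x ^ (1 / 4 : ℝ) :=
    isLittleO_log_rpow_atTop (by norm_num)
  have h2 := h1.def (c := 1 / 64) (by norm_num)
  rw [eventually_atTop] at h2
  obtain ⟨a, ha⟩ := h2
  obtain ⟨N, hN⟩ := exists_nat_ge (max a 1)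
  refine ⟨N + 100, fun n hn hp k hk hmod => ?_⟩
  by_contra hcon
  push Not at hcon
  have hn' : ((N : ℝ) + 100) ≤ n := by exact_mod_cast hn
  have hna : a ≤ n := by linarith [le_max_left a 1]
  have hn100 : (100 : ℝ) ≤ n := by
    have : (0 : ℝ) ≤ N := Nat.cast_nonneg N
    linarith
  have hn0 : (0 : ℝ) < n := by linarith
  obtain ⟨S, hS, hSc⟩ := CutsInto.exists_cutsL hk
  rw [← hSc] at hmod
  obtain ⟨Γ, H, hΓ, hSΓ, hH, s₀, hs₀, hcase⟩ := hS.exists_hom hp (by omega) (by omega) hmod
  -- the box in the middle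
  have hnu1 : nu H (fun _ : Fin n => (1 : ℝ)) = if H 1 = 0 then 0 else n := by
    unfold nu
    split_ifs with h <;> simp [h]
  have hnu2 : nu H (fun _ : Fin n => s₀) = if H s₀ = 0 then 0 else n := by
    unfold nu
    split_ifs with h <;> simp [h]
  obtain ⟨y, T, hT, hTS, hy⟩ := hS.exists_mid H hs₀ (m := n / 2) (by
    rcases hcase with ⟨h3, h4⟩ | ⟨h3, h4⟩
    · left
      rw [hnu1, hnu2, if_pos h3, if_neg h4]
      omega
    · right
      rw [hnu1, hnu2, if_neg h3, if_pos h4]
      omega)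
  have hTk : (Multiset.card T : ℝ) ≤ k := by
    have := Multiset.card_le_card hTS
    rw [hSc] at this
    exact_mod_cast this
  have hTlt : (Multiset.card T : ℝ) < (n : ℝ) ^ ((n : ℝ) / 32) := lt_of_le_of_lt hTk hcon
  set m := n / 8 with hm
  have hm16 : (n : ℝ) / 16 ≤ m := by
    have : n < 8 * (m + 1) := by omega
    have h3 : (n : ℝ) < 8 * (m + 1) := by exact_mod_cast this
    linarith
  have hm0 : (0 : ℝ) < m := by linarith
  -- logarithms
  have hlog : Real.log ((n : ℝ) + 1) ≤ (n : ℝ) ^ (1 / 4 : ℝ) / 32 := by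
    have h3 := ha (n + 1) (by linarith)
    rw [Real.norm_of_nonneg (Real.log_nonneg (by linarith)),
      Real.norm_of_nonneg (by positivity)] at h3
    have h4 : ((n : ℝ) + 1) ^ (1 / 4 : ℝ) ≤ 2 * (n : ℝ) ^ (1 / 4 : ℝ) := by
      calc ((n : ℝ) + 1) ^ (1 / 4 : ℝ) ≤ (16 * (n : ℝ)) ^ (1 / 4 : ℝ) :=
            Real.rpow_le_rpow (by positivity) (by linarith) (by norm_num)
        _ = 2 * (n : ℝ) ^ (1 / 4 : ℝ) := by
            rw [Real.mul_rpow (by norm_num) (by positivity)]
            congr 1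
            rw [show (16 : ℝ) = 2 ^ (4 : ℝ) by norm_num, ← Real.rpow_mul (by norm_num)]
            norm_num
    linarith
  have hlogpos : 0 < Real.log ((n : ℝ) + 1) := Real.log_pos (by linarith)
  have hlog1 : 1 < Real.log ((n : ℝ) + 1) := by
    rw [Real.lt_log_iff_exp_lt (by linarith)]
    have := Real.exp_one_lt_d9
    linarith
  set θ : ℝ := 2 * Real.log ((n : ℝ) + 1) / m with hθ
  have hθpos : 0 < θ := by positivity
  have hθm : θ * m = 2 * Real.log ((n : ℝ) + 1) := by
    rw [hθ]; field_simp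
  have hp1 : 1 < ((n + 1 : ℕ) : ℝ) * θ := by
    have h3 : (m : ℝ) ≤ n := by exact_mod_cast Nat.div_le_self n 8
    rw [hθ, ← mul_div_assoc, lt_div_iff₀ hm0]
    push_cast
    nlinarith
  have hexp : ((n + 1 : ℕ) : ℝ) * Real.exp (-(θ * m)) < 1 := by
    rw [hθm]
    have h3 : Real.exp (-(2 * Real.log ((n : ℝ) + 1))) = (((n : ℝ) + 1) ^ 2)⁻¹ := by
      rw [Real.exp_neg, mul_comm, Real.exp_mul, Real.exp_log (by linarith)]
      norm_num
    rw [h3]
    push_cast
    rw [mul_inv_lt_iff₀ (by positivity)]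
    nlinarith
  have hβ1 : 1 ≤ Real.sqrt n := Real.one_le_sqrt.mpr (by linarith)
  refine hT.mid_bound hp Γ hΓ H hH (fun s hs => hSΓ s (Multiset.mem_of_le hTS hs))
    (m := m) (by omega) (β := Real.sqrt n) (θ := θ) hβ1 hθpos hp1 hexp (by omega) (by omega)
    ?_ ?_
  · -- `card T < √n ^ m`
    refine lt_of_lt_of_le hTlt ?_
    rw [Real.sqrt_eq_rpow, ← Real.rpow_natCast, ← Real.rpow_mul hn0.le]
    apply Real.rpow_le_rpow_of_exponent_le (by linarith)
    linarith
  · -- `card T * (√n * θ) ^ (n - 2 * m) < 1`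
    have hr : Real.sqrt n * θ ≤ (n : ℝ) ^ (-(1 / 4) : ℝ) := by
      have h3 : θ ≤ (n : ℝ) ^ (1 / 4 : ℝ) / n := by
        rw [hθ, div_le_div_iff₀ hm0 hn0]
        have h5 : (0 : ℝ) ≤ (n : ℝ) ^ (1 / 4 : ℝ) := by positivity
        nlinarith
      calc Real.sqrt n * θ ≤ Real.sqrt n * ((n : ℝ) ^ (1 / 4 : ℝ) / n) :=
            mul_le_mul_of_nonneg_left h3 (Real.sqrt_nonneg _)
        _ = (n : ℝ) ^ (-(1 / 4) : ℝ) := by
            rw [Real.sqrt_eq_rpow, ← mul_div_assoc, ← Real.rpow_add hn0]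
            nth_rewrite 2 [← Real.rpow_one (n : ℝ)]
            rw [← Real.rpow_sub hn0]
            norm_num
    have hr0 : 0 ≤ Real.sqrt n * θ := by positivity
    have h6 : (Real.sqrt n * θ) ^ (n - 2 * m) ≤ (n : ℝ) ^ (-(1 / 4) * ((n - 2 * m : ℕ) : ℝ)) := by
      rw [Real.rpow_mul hn0.le, Real.rpow_natCast]
      exact pow_le_pow_left₀ hr0 hr _
    have h7 : (3 / 4 : ℝ) * n ≤ ((n - 2 * m : ℕ) : ℝ) := by
      have h8 : 3 * n ≤ 4 * (n - 2 * m) := by omega
      have h9 : (3 : ℝ) * n ≤ 4 * ((n - 2 * m : ℕ) : ℝ) := by exact_mod_cast h8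
      linarith
    calc (Multiset.card T : ℝ) * (Real.sqrt n * θ) ^ (n - 2 * m)
        ≤ (Multiset.card T : ℝ) * (n : ℝ) ^ (-(1 / 4) * ((n - 2 * m : ℕ) : ℝ)) :=
          mul_le_mul_of_nonneg_left h6 (Nat.cast_nonneg _)
      _ < (n : ℝ) ^ ((n : ℝ) / 32) * (n : ℝ) ^ (-(1 / 4) * ((n - 2 * m : ℕ) : ℝ)) :=
          mul_lt_mul_of_pos_right hTlt (by positivity)
      _ = (n : ℝ) ^ ((n : ℝ) / 32 + -(1 / 4) * ((n - 2 * m : ℕ) : ℝ)) := by
          rw [Real.rpow_add hn0]
      _ ≤ (n : ℝ) ^ (0 : ℝ) := by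
          apply Real.rpow_le_rpow_of_exponent_le (by linarith)
          linarith
      _ = 1 := Real.rpow_zero _

end Pool.Agent.MP9df71a
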