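import Pool.Agent.Lib.MP_9df71a_co.Tiling

/-!
Hierarchical (guillotine) decompositions: a box is cut by a hyperplane into two boxes, and so on,
until all pieces are cubes. Basic properties and constructions.
-/

open N0a8789b9

namespace Pool.Agent.MP9df71a

/-- `CutsInto x k`: the box with side lengths `x` can be decomposed into `k` cubes by successive
cuts, each of which divides one of the current boxes into two boxes by a hyperplane orthogonal to a
coordinate axis. -/
inductive CutsInto {ι : Type} [DecidableEq ι] : (ι → ℝ) → ℕ → Prop
  | cube (s : ℝ) (hs : 0 < s) : CutsInto (fun _ => s) 1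
  | cut (x : ι → ℝ) (i : ι) (t : ℝ) (k l : ℕ) (ht : 0 < t) (ht' : t < x i)
      (h1 : CutsInto (Function.update x i t) k)
      (h2 : CutsInto (Function.update x i (x i - t)) l) : CutsInto x (k + l)

/-- The unit cube of dimension `n` can be decomposed into `k` cubes by successive cuts. -/
def CutAdmissible (n k : ℕ) : Prop := CutsInto (fun _ : Fin n => (1 : ℝ)) k

/-- `c` is the least number such that every `k ≥ c` is `CutAdmissible` for `n`. -/
def IsCutCutoff (n c : ℕ) : Prop :=
  (∀ k, c ≤ k → CutAdmissible n k) ∧ (c = 0 ∨ ¬ CutAdmissible n (c - 1))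

section basic

variable {ι : Type} [DecidableEq ι]

lemma CutsInto.pos_card {x : ι → ℝ} {k : ℕ} (h : CutsInto x k) : 0 < k := by
  induction h with
  | cube s hs => exact one_pos
  | cut x i t k l ht ht' h1 h2 ih1 ih2 => omega

lemma CutsInto.scale {x : ι → ℝ} {k : ℕ} (h : CutsInto x k) {r : ℝ} (hr : 0 < r) :
    CutsInto (fun j => r * x j) k := by
  induction h with
  | cube s hs => exact CutsInto.cube (r * s) (mul_pos hr hs)
  | cut x i t k l ht ht' h1 h2 ih1 ih2 =>
    refine CutsInto.cut (fun j => r * x j) i (r * t) k l (mul_pos hr ht)
      (mul_lt_mul_of_pos_left ht' hr) ?_ ?_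
    · have : Function.update (fun j => r * x j) i (r * t) =
          fun j => r * Function.update x i t j := by
        funext j
        by_cases hj : j = i
        · subst hj; simp
        · simp [Function.update_of_ne hj]
      rw [this]
      exact ih1
    · have : Function.update (fun j => r * x j) i (r * x i - r * t) =
          fun j => r * Function.update x i (x i - t) j := by
        funext j
        by_cases hj : j = i
        · subst hj; simp; ring
        · simp [Function.update_of_ne hj]
      rw [this]
      exact ih2

/-- Replace one cube of a decomposition by a scaled decomposition of the unit cube. -/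
lemma CutsInto.replace {x : ι → ℝ} {k m : ℕ} (h : CutsInto x k)
    (h' : CutsInto (fun _ : ι => (1 : ℝ)) m) : CutsInto x (k + m - 1) := by
  have hm := h'.pos_card
  induction h with
  | cube s hs =>
    have := h'.scale hs
    simp only [mul_one] at this
    rwa [Nat.add_sub_cancel_left]
  | cut x i t k l ht ht' h1 h2 ih1 ih2 =>
    have hk := h1.pos_card
    have h3 := CutsInto.cut x i t (k + m - 1) l ht ht' ih1 h2
    have : k + l + m - 1 = k + m - 1 + l := by omega
    rw [this]
    exact h3

/-- Boxes whose sides are multiples of `s` are cut into cubes of side `s`. -/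
lemma cutsInto_grid [Fintype ι] (s : ℝ) (hs : 0 < s) : ∀ (N : ℕ) (m : ι → ℕ), (∀ j, 1 ≤ m j) →
    ∑ j, (m j - 1) ≤ N → CutsInto (fun j => (m j : ℝ) * s) (∏ j, m j) := by
  intro N
  induction N with
  | zero =>
    intro m hm hN
    have h1 : ∀ j, m j = 1 := by
      intro j
      have h2 := (Finset.sum_eq_zero_iff.mp (Nat.le_zero.mp hN)) j (Finset.mem_univ j)
      have h3 := hm j
      omega
    have h4 : (fun j => (m j : ℝ) * s) = fun _ : ι => s := by
      funext j; rw [h1 j]; simp
    have h5 : ∏ j, m j = 1 := Finset.prod_eq_one fun j _ => h1 j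
    rw [h4, h5]
    exact CutsInto.cube s hs
  | succ N ih =>
    intro m hm hN
    by_cases hle : ∑ j, (m j - 1) ≤ N
    · exact ih m hm hle
    obtain ⟨i, hi⟩ : ∃ i, 2 ≤ m i := by
      by_contra hcon
      push Not at hcon
      have : ∑ j, (m j - 1) = 0 := Finset.sum_eq_zero fun j _ => by
        have := hcon j
        omega
      omega
    have hsplit : ∀ f : ι → ℕ, ∑ j, f j = f i + ∑ j ∈ Finset.univ.erase i, f j := fun f =>
      (Finset.add_sum_erase _ f (Finset.mem_univ i)).symm
    have hrest := hsplit fun j => m j - 1
    have hsum : ∀ v : ℕ, ∑ j, (Function.update m i v j - 1) =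
        (v - 1) + ∑ j ∈ Finset.univ.erase i, (m j - 1) := by
      intro v
      rw [hsplit fun j => Function.update m i v j - 1]
      simp only [Function.update_self]
      congr 1
      apply Finset.sum_congr rfl
      intro j hj
      rw [Function.update_of_ne (Finset.ne_of_mem_erase hj)]
    have hprod : ∀ v : ℕ, ∏ j, Function.update m i v j = v * ∏ j ∈ Finset.univ.erase i, m j := by
      intro v
      rw [← Finset.mul_prod_erase _ _ (Finset.mem_univ i), Function.update_self]
      congr 1
      apply Finset.prod_congr rfl
      intro j hj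
      rw [Function.update_of_ne (Finset.ne_of_mem_erase hj)]
    have hge : ∀ v : ℕ, 1 ≤ v → ∀ j, 1 ≤ Function.update m i v j := by
      intro v hv j
      by_cases hj : j = i
      · subst hj; simpa using hv
      · rw [Function.update_of_ne hj]; exact hm j
    have h1 := ih (Function.update m i 1) (hge 1 le_rfl) (by rw [hsum]; omega)
    have h2 := ih (Function.update m i (m i - 1)) (hge (m i - 1) (by omega))
      (by rw [hsum]; omega)
    have e1 : (fun j => ((Function.update m i 1 j : ℕ) : ℝ) * s) =
        Function.update (fun j => (m j : ℝ) * s) i s := by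
      funext j
      by_cases hj : j = i
      · subst hj; simp
      · simp [Function.update_of_ne hj]
    have e2 : (fun j => ((Function.update m i (m i - 1) j : ℕ) : ℝ) * s) =
        Function.update (fun j => (m j : ℝ) * s) i ((m i : ℝ) * s - s) := by
      funext j
      by_cases hj : j = i
      · subst hj
        simp only [Function.update_self]
        rw [Nat.cast_sub (by omega)]
        push_cast
        ring
      · simp [Function.update_of_ne hj]
    rw [e1] at h1
    rw [e2] at h2
    have hlt : s < (m i : ℝ) * s := by
      have : (2 : ℝ) ≤ m i := by exact_mod_cast hi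
      nlinarith
    have h3 := CutsInto.cut (fun j => (m j : ℝ) * s) i s _ _ hs hlt h1 h2
    rw [hprod, hprod] at h3
    have h4 : 1 * ∏ j ∈ Finset.univ.erase i, m j + (m i - 1) * ∏ j ∈ Finset.univ.erase i, m j =
        ∏ j, m j := by
      rw [← Finset.mul_prod_erase _ _ (Finset.mem_univ i), ← add_mul]
      congr 1
      omega
    rwa [h4] at h3

end basic

lemma cutAdmissible_pow (n a : ℕ) (ha : 0 < a) : CutAdmissible n (a ^ n) := by
  have ha' : (0 : ℝ) < a := by exact_mod_cast ha
  have h := cutsInto_grid (ι := Fin n) (1 / a) (by positivity) (∑ _j : Fin n, (a - 1))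
    (fun _ => a) (fun _ => ha) le_rfl
  have e : (fun _ : Fin n => (a : ℝ) * (1 / a)) = fun _ => (1 : ℝ) := by
    funext j
    field_simp
  rw [e] at h
  simpa [CutAdmissible] using h

lemma cutAdmissible_add {n k a : ℕ} (ha : 0 < a) (h : CutAdmissible n k) :
    CutAdmissible n (k + (a ^ n - 1)) := by
  have h1 := CutsInto.replace h (cutAdmissible_pow n a ha)
  have h2 : 0 < a ^ n := Nat.pow_pos ha
  have h3 : k + (a ^ n - 1) = k + a ^ n - 1 := by omega
  rw [h3]
  exact h1

lemma cutAdmissible_one (n : ℕ) : CutAdmissible n 1 := CutsInto.cube 1 one_pos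

lemma not_cutAdmissible_zero (n : ℕ) : ¬ CutAdmissible n 0 := fun h =>
  absurd h.pos_card (lt_irrefl 0)

/-- A box `[a, a + x)` is partitioned into half-open cubes. -/
lemma CutsInto.exists_tiling {ι : Type} [DecidableEq ι] {x : ι → ℝ} {k : ℕ} (h : CutsInto x k) :
    (∀ j, 0 < x j) ∧ ∀ a : ι → ℝ, ∃ (lo : Fin k → ι → ℝ) (sd : Fin k → ℝ),
      (∀ r, 0 < sd r ∧ ∀ j, a j ≤ lo r j ∧ lo r j + sd r ≤ a j + x j) ∧
      ∀ y : ι → ℝ, (∀ j, a j ≤ y j ∧ y j < a j + x j) →
        ∃! r, ∀ j, lo r j ≤ y j ∧ y j < lo r j + sd r := by
  induction h with
  | cube s hs =>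
    refine ⟨fun _ => hs, fun a => ⟨fun _ => a, fun _ => s, fun _ => ⟨hs, fun j => ⟨le_rfl, le_rfl⟩⟩,
      fun y hy => ⟨0, hy, fun r _ => Subsingleton.elim _ _⟩⟩⟩
  | cut x i t k l ht ht' h1 h2 ih1 ih2 =>
    obtain ⟨hp1, ih1⟩ := ih1
    obtain ⟨hp2, ih2⟩ := ih2
    refine ⟨fun j => ?_, fun a => ?_⟩
    · by_cases hj : j = i
      · subst hj; exact ht.trans ht'
      · have := hp1 j
        rwa [Function.update_of_ne hj] at this
    obtain ⟨lo1, sd1, hin1, hu1⟩ := ih1 a
    obtain ⟨lo2, sd2, hin2, hu2⟩ := ih2 (Function.update a i (a i + t))
    refine ⟨Fin.addCases lo1 lo2, Fin.addCases sd1 sd2, fun r => ?_, fun y hy => ?_⟩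
    · refine Fin.addCases (fun r1 => ?_) (fun r2 => ?_) r
      · simp only [Fin.addCases_left]
        obtain ⟨hs, hb⟩ := hin1 r1
        refine ⟨hs, fun j => ⟨(hb j).1, (hb j).2.trans ?_⟩⟩
        by_cases hj : j = i
        · subst hj; rw [Function.update_self]; linarith
        · rw [Function.update_of_ne hj]
      · simp only [Fin.addCases_right]
        obtain ⟨hs, hb⟩ := hin2 r2
        refine ⟨hs, fun j => ?_⟩
        have := hb j
        by_cases hj : j = i
        · subst hj
          rw [Function.update_self, Function.update_self] at this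
          exact ⟨by linarith [this.1], by linarith [this.2]⟩
        · rwa [Function.update_of_ne hj, Function.update_of_ne hj] at this
    · by_cases hyi : y i < a i + t
      · have hy1 : ∀ j, a j ≤ y j ∧ y j < a j + Function.update x i t j := by
          intro j
          by_cases hj : j = i
          · subst hj; rw [Function.update_self]; exact ⟨(hy j).1, hyi⟩
          · rw [Function.update_of_ne hj]; exact hy j
        obtain ⟨r, hr, hru⟩ := hu1 y hy1
        refine ⟨Fin.castAdd l r, ?_, ?_⟩
        · simpa using hr
        · intro r'
          refine Fin.addCases (fun r1 => ?_) (fun r2 => ?_) r'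
          · intro h
            simp only [Fin.addCases_left] at h
            rw [hru r1 h]
          · intro h
            simp only [Fin.addCases_right] at h
            exfalso
            have h3 := (hin2 r2).2 i
            rw [Function.update_self, Function.update_self] at h3
            have h4 := (h i).1
            linarith [h3.1]
      · push Not at hyi
        have hy2 : ∀ j, Function.update a i (a i + t) j ≤ y j ∧
            y j < Function.update a i (a i + t) j + Function.update x i (x i - t) j := by
          intro j
          by_cases hj : j = i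
          · subst hj
            rw [Function.update_self, Function.update_self]
            exact ⟨hyi, by linarith [(hy j).2]⟩
          · rw [Function.update_of_ne hj, Function.update_of_ne hj]; exact hy j
        obtain ⟨r, hr, hru⟩ := hu2 y hy2
        refine ⟨Fin.natAdd k r, ?_, ?_⟩
        · simpa using hr
        · intro r'
          refine Fin.addCases (fun r1 => ?_) (fun r2 => ?_) r'
          · intro h
            simp only [Fin.addCases_left] at h
            exfalso
            have h3 := (hin1 r1).2 i
            rw [Function.update_self] at h3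
            have h4 := (h i).2
            linarith [h3.2]
          · intro h
            simp only [Fin.addCases_right] at h
            rw [hru r2 h]

/-- Every hierarchical decomposition of the unit cube is a decomposition. -/
theorem CutAdmissible.admissible {n k : ℕ} (h : CutAdmissible n k) : Admissible n k := by
  obtain ⟨-, h⟩ := CutsInto.exists_tiling h
  obtain ⟨lo, sd, hin, hu⟩ := h (fun _ => 0)
  refine ⟨fun r => ⟨lo r, sd r⟩, fun r => ⟨(hin r).1, fun j => ?_⟩, fun x hx => ?_⟩
  · have := (hin r).2 j
    exact ⟨this.1, by linarith [this.2]⟩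
  · exact hu x fun j => ⟨(hx j).1, by linarith [(hx j).2]⟩

end Pool.Agent.MP9df71a
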