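import Pool.Agent.Lib.MP_9df71a_co.Semigroup
import Pool.Agent.Lib.MP_9df71a_co.Arith
import Pool.Agent.Lib.MP_9df71a_co.Guillotine

/-!
Upper bounds for the threshold of hierarchical decompositions.
-/

open Filter Topology

namespace Pool.Agent.MP9df71a

lemma cutAdmissible_list {n A : ℕ} (l : List ℕ)
    (hl : ∀ y ∈ l, ∃ a, 2 ≤ a ∧ a ≤ A ∧ y = a ^ n - 1) : CutAdmissible n (1 + l.sum) := by
  induction l with
  | nil => simpa using cutAdmissible_one n
  | cons y l ih =>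
    obtain ⟨a, ha, -, rfl⟩ := hl y List.mem_cons_self
    have h1 := ih fun z hz => hl z (List.mem_cons_of_mem _ hz)
    have h2 := cutAdmissible_add (by omega : 0 < a) h1
    rw [List.sum_cons, add_comm (a ^ n - 1), ← add_assoc]
    exact h2

lemma cutAdmissible_mul {n k a : ℕ} (ha : 0 < a) (h : CutAdmissible n k) (j : ℕ) :
    CutAdmissible n (k + j * (a ^ n - 1)) := by
  induction j with
  | zero => simpa using h
  | succ j ih =>
    have := cutAdmissible_add ha ih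
    rw [Nat.succ_mul, ← add_assoc]
    exact this

/-- If no prime divides all the numbers `a ^ n - 1`, `2 ≤ a ≤ A`, then every
`k ≥ (2 * A) ^ n` is admissible. -/
theorem cutAdmissible_of_gcd {n A : ℕ} (hn : 0 < n) (hA : 2 ≤ A)
    (h : ∀ q : ℕ, q.Prime → ∃ a, 2 ≤ a ∧ a ≤ A ∧ ¬ q ∣ a ^ n - 1) {k : ℕ}
    (hk : (2 * A) ^ n ≤ k) : CutAdmissible n k := by
  set s : Set ℕ := {y | ∃ a, 2 ≤ a ∧ a ≤ A ∧ y = a ^ n - 1} with hs
  have hgcd : Nat.setGcd s = 1 := by
    by_contra hne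
    obtain ⟨q, hq, hqd⟩ := Nat.exists_prime_and_dvd hne
    obtain ⟨a, ha2, haA, hna⟩ := h q hq
    exact hna (hqd.trans (Nat.setGcd_dvd_of_mem ⟨a, ha2, haA, rfl⟩))
  have h2n : 2 ≤ 2 ^ n := by
    calc 2 = 2 ^ 1 := by norm_num
      _ ≤ 2 ^ n := Nat.pow_le_pow_right (by norm_num) hn
  have hAn : 1 ≤ A ^ n := Nat.pow_pos (by omega)
  have hk1 : 1 ≤ k := le_trans (Nat.pow_pos (by omega)) hk
  obtain ⟨l, hl, hsum, hlen⟩ := exists_short_list s hgcd (2 ^ n - 1) (by omega) (k - 1)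
  have hbound : l.sum ≤ l.length * (A ^ n - 1) := by
    have := List.sum_le_card_nsmul l (A ^ n - 1) (by
      intro y hy
      obtain ⟨a, -, ha, rfl⟩ := hl y hy
      exact Nat.sub_le_sub_right (Nat.pow_le_pow_left ha n) 1)
    simpa using this
  have hle : l.sum ≤ k - 1 := by
    have h1 : l.length * (A ^ n - 1) ≤ (2 ^ n - 1) * (A ^ n - 1) :=
      Nat.mul_le_mul_right _ (by omega)
    have h2 : (2 ^ n - 1) * (A ^ n - 1) ≤ 2 ^ n * A ^ n - 1 := by
      obtain ⟨u, hu⟩ : ∃ u, 2 ^ n = u + 1 := ⟨2 ^ n - 1, by omega⟩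
      obtain ⟨v, hv⟩ : ∃ v, A ^ n = v + 1 := ⟨A ^ n - 1, by omega⟩
      rw [hu, hv]
      have : (u + 1) * (v + 1) = u * v + u + v + 1 := by ring
      rw [this]
      simp only [Nat.add_sub_cancel]
      omega
    rw [mul_pow] at hk
    omega
  have hdiv : (2 ^ n - 1) ∣ (k - 1) - l.sum := (Nat.modEq_iff_dvd' hle).mp hsum
  obtain ⟨j, hj⟩ := hdiv
  have h3 := cutAdmissible_mul (a := 2) (by norm_num) (cutAdmissible_list l hl) j
  have h4 : 1 + l.sum + j * (2 ^ n - 1) = k := by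
    rw [mul_comm j]
    omega
  rw [h4] at h3
  exact h3

/-- The upper bound for the threshold. -/
theorem cutCutoff_le {n A c : ℕ} (hn : 0 < n) (hA : 2 ≤ A)
    (h : ∀ q : ℕ, q.Prime → ∃ a, 2 ≤ a ∧ a ≤ A ∧ ¬ q ∣ a ^ n - 1) (hc : IsCutCutoff n c) :
    c ≤ (2 * A) ^ n := by
  by_contra hcon
  push Not at hcon
  rcases hc.2 with h0 | h0
  · omega
  · exact h0 (cutAdmissible_of_gcd hn hA h (by omega))

/-- The threshold exists for every `n ≥ 1`. -/
theorem exists_cutCutoff (n : ℕ) (hn : 0 < n) : ∃ c, IsCutCutoff n c := by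
  classical
  have hex : ∃ c, ∀ k, c ≤ k → CutAdmissible n k := by
    refine ⟨(2 * 2 ^ n) ^ n, fun k hk => ?_⟩
    have h2 : 2 ≤ 2 ^ n := by
      calc 2 = 2 ^ 1 := (pow_one 2).symm
        _ ≤ 2 ^ n := Nat.pow_le_pow_right (by norm_num) hn
    refine cutAdmissible_of_gcd hn h2 (fun q hq => ?_) hk
    by_contra hcon
    push Not at hcon
    have h3 := lt_of_forall_dvd hq hn hcon
    have h4 := Nat.le_of_dvd (by omega) (hcon 2 le_rfl h2)
    omega
  refine ⟨Nat.find hex, Nat.find_spec hex, ?_⟩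
  by_contra hcon
  push Not at hcon
  obtain ⟨h0, h1⟩ := hcon
  refine Nat.find_min hex (Nat.sub_lt (Nat.pos_of_ne_zero h0) one_pos) fun k hk => ?_
  rcases eq_or_lt_of_le hk with h | h
  · rw [← h]; exact h1
  · exact Nat.find_spec hex k (by omega)

/-- For every `ε > 0` there are arbitrarily large `n` with threshold at most `n ^ (ε n)`. -/
theorem exists_small_cutCutoff {ε : ℝ} (hε : 0 < ε) (N : ℕ) : ∃ n : ℕ, N < n ∧ ∀ c : ℕ,
    IsCutCutoff n c → Real.log c ≤ ε * (n * Real.log n) := by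
  obtain ⟨J, n₀, hexc⟩ := exceptional (half_pos hε)
  obtain ⟨n₁, hn₁⟩ : ∃ n₁ : ℕ, ∀ n : ℕ, n₁ ≤ n → (J : ℝ) + 2 ≤ (n : ℝ) ^ (ε / 2) := by
    have h1 : Tendsto (fun n : ℕ => (n : ℝ) ^ (ε / 2)) atTop atTop :=
      (tendsto_rpow_atTop (half_pos hε)).comp tendsto_natCast_atTop_atTop
    exact eventually_atTop.mp (h1.eventually_ge_atTop _)
  obtain ⟨n, hn, hnp, hcomp⟩ := exists_prime_gt_composite J (N + n₀ + n₁ + 1)
  refine ⟨n, by omega, fun c hc => ?_⟩
  have hn0 : 0 < n := hnp.pos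
  have hn0' : (0 : ℝ) < n := by exact_mod_cast hn0
  have hn1 : (1 : ℝ) ≤ n := by exact_mod_cast hn0
  have hbig := hn₁ n (by omega)
  set A := ⌊(n : ℝ) ^ (ε / 2)⌋₊ with hA
  have hAJ : J + 2 ≤ A := by
    rw [hA]
    apply Nat.le_floor
    push_cast
    exact hbig
  have hAle : (A : ℝ) ≤ (n : ℝ) ^ (ε / 2) := Nat.floor_le (by positivity)
  have hkey : ∀ q : ℕ, q.Prime → ∃ a, 2 ≤ a ∧ a ≤ A ∧ ¬ q ∣ a ^ n - 1 := by
    intro q hq
    by_contra hcon
    push Not at hcon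
    obtain ⟨d, j, hdn, hj1, hjJ, hqe⟩ := hexc n (by omega) q hq hcon
    have hAq := lt_of_forall_dvd hq hn0 hcon
    rcases (Nat.dvd_prime hnp).mp hdn with h | h
    · rw [h] at hqe
      omega
    · rw [h] at hqe
      exact hcomp j hj1 hjJ (hqe ▸ hq)
  have hcle := cutCutoff_le hn0 (by omega) hkey hc
  have hc0 : 0 < c := by
    by_contra h0
    have h1 : c = 0 := by omega
    rw [h1] at hc
    exact not_cutAdmissible_zero n (hc.1 0 le_rfl)
  have h2 : (2 : ℝ) ≤ (n : ℝ) ^ (ε / 2) := by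
    have : (0 : ℝ) ≤ J := Nat.cast_nonneg J
    linarith
  have hcr : (c : ℝ) ≤ (n : ℝ) ^ (ε * n) := by
    calc (c : ℝ) ≤ ((2 * A) ^ n : ℕ) := by exact_mod_cast hcle
      _ = (2 * (A : ℝ)) ^ n := by push_cast; ring
      _ ≤ ((n : ℝ) ^ ε) ^ n := by
          apply pow_le_pow_left₀ (by positivity)
          calc 2 * (A : ℝ) ≤ (n : ℝ) ^ (ε / 2) * (n : ℝ) ^ (ε / 2) :=
                mul_le_mul h2 hAle (by positivity) (by positivity)
            _ = (n : ℝ) ^ ε := by rw [← Real.rpow_add hn0']; congr 1; ring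
      _ = (n : ℝ) ^ (ε * n) := by rw [← Real.rpow_natCast, ← Real.rpow_mul hn0'.le]
  calc Real.log c ≤ Real.log ((n : ℝ) ^ (ε * n)) :=
        Real.log_le_log (by exact_mod_cast hc0) hcr
    _ = ε * (n * Real.log n) := by rw [Real.log_rpow hn0']; ring

end Pool.Agent.MP9df71a
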