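import Pool.Agent.Lib.MP_9df71a_co.Semigroup
import Pool.Agent.Lib.MP_9df71a_co.Arith

/-!
For every `ε > 0` there are infinitely many `n` whose cube-tiling threshold is at most `n ^ (ε n)`.
-/

open Filter Topology N0a8789b9

namespace Pool.Agent.MP9df71a

/-- The threshold exists for every `n ≥ 1`. -/
theorem exists_cutoff (n : ℕ) (hn : 0 < n) : ∃ c, IsCutoff n c := by
  classical
  have hex : ∃ c, ∀ k, c ≤ k → Admissible n k := by
    refine ⟨(2 * 2 ^ n) ^ n, fun k hk => ?_⟩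
    have h2 : 2 ≤ 2 ^ n := by
      calc 2 = 2 ^ 1 := (pow_one 2).symm
        _ ≤ 2 ^ n := Nat.pow_le_pow_right (by norm_num) hn
    refine admissible_of_gcd hn h2 (fun q hq => ?_) hk
    by_contra hcon
    push Not at hcon
    have h3 := lt_of_forall_dvd hq hn hcon
    have h4 := Nat.le_of_dvd (by omega) (hcon 2 le_rfl h2)
    omega
  refine ⟨Nat.find hex, Nat.find_spec hex, ?_⟩
  by_contra hcon
  push Not at hcon
  obtain ⟨h0, h1⟩ := hcon
  refine Nat.find_min hex (Nat.sub_lt (Nat.pos_of_ne_zero h0) one_pos) fun k hk => ?_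
  rcases eq_or_lt_of_le hk with h | h
  · rw [← h]; exact h1
  · exact Nat.find_spec hex k (by omega)

/-- For every `ε > 0` there are arbitrarily large `n` with threshold at most `n ^ (ε n)`. -/
theorem exists_small_cutoff {ε : ℝ} (hε : 0 < ε) (N : ℕ) : ∃ n : ℕ, N < n ∧ ∀ c : ℕ,
    IsCutoff n c → Real.log c ≤ ε * (n * Real.log n) := by
  obtain ⟨J, n₀, hexc⟩ := exceptional (half_pos hε)
  obtain ⟨n₁, hn₁⟩ : ∃ n₁ : ℕ, ∀ n : ℕ, n₁ ≤ n → (J : ℝ) + 2 ≤ (n : ℝ) ^ (ε / 2) := by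
    have h1 : Tendsto (fun n : ℕ => (n : ℝ) ^ (ε / 2)) atTop atTop :=
      (tendsto_rpow_atTop (half_pos hε)).comp tendsto_natCast_atTop_atTop
    exact eventually_atTop.mp (h1.eventually_ge_atTop _)
  obtain ⟨n, hn, hnp, hcomp⟩ := exists_prime_gt_composite J (N + n₀ + n₁ + 1)
  refine ⟨n, by omega, fun c hc => ?_⟩
  have hn0 : 0 < n := hnp.pos
  have hn0' : (0 : ℝ) < n := by exact_mod_cast hn0
  have hn1 : (1 : ℝ) ≤ n := by exact_mod_cast hn0
  have hbig := hn₁ n (by omega)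
  set A := ⌊(n : ℝ) ^ (ε / 2)⌋₊ with hA
  have hAJ : J + 2 ≤ A := by
    rw [hA]
    apply Nat.le_floor
    push_cast
    exact hbig
  have hAle : (A : ℝ) ≤ (n : ℝ) ^ (ε / 2) := Nat.floor_le (by positivity)
  have hkey : ∀ q : ℕ, q.Prime → ∃ a, 2 ≤ a ∧ a ≤ A ∧ ¬ q ∣ a ^ n - 1 := by
    intro q hq
    by_contra hcon
    push Not at hcon
    obtain ⟨d, j, hdn, hj1, hjJ, hqe⟩ := hexc n (by omega) q hq hcon
    have hAq := lt_of_forall_dvd hq hn0 hcon
    rcases (Nat.dvd_prime hnp).mp hdn with h | h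
    · rw [h] at hqe
      omega
    · rw [h] at hqe
      exact hcomp j hj1 hjJ (hqe ▸ hq)
  have hcle := cutoff_le hn0 (by omega) hkey hc
  have hc0 : 0 < c := by
    by_contra h0
    have h1 : c = 0 := by omega
    rw [h1] at hc
    exact not_admissible_zero n (hc.1 0 le_rfl)
  have h2 : (2 : ℝ) ≤ (n : ℝ) ^ (ε / 2) := by
    have : (0 : ℝ) ≤ J := Nat.cast_nonneg J
    linarith
  have hcr : (c : ℝ) ≤ (n : ℝ) ^ (ε * n) := by
    calc (c : ℝ) ≤ ((2 * A) ^ n : ℕ) := by exact_mod_cast hcle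
      _ = (2 * (A : ℝ)) ^ n := by push_cast; ring
      _ ≤ ((n : ℝ) ^ ε) ^ n := by
          apply pow_le_pow_left₀ (by positivity)
          calc 2 * (A : ℝ) ≤ (n : ℝ) ^ (ε / 2) * (n : ℝ) ^ (ε / 2) :=
                mul_le_mul h2 hAle (by positivity) (by positivity)
            _ = (n : ℝ) ^ ε := by rw [← Real.rpow_add hn0']; congr 1; ring
      _ = (n : ℝ) ^ (ε * n) := by rw [← Real.rpow_natCast, ← Real.rpow_mul hn0'.le]
  calc Real.log c ≤ Real.log ((n : ℝ) ^ (ε * n)) :=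
        Real.log_le_log (by exact_mod_cast hc0) hcr
    _ = ε * (n * Real.log n) := by rw [Real.log_rpow hn0']; ring

end Pool.Agent.MP9df71a
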