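import Pool.Agent.Lib.MP_9df71a_co.Tiling

/-!
The numerical semigroup generated by the numbers `a ^ n - 1`, and the resulting upper bound for the
cube-tiling threshold.
-/

open N0a8789b9

namespace Pool.Agent.MP9df71a

/-- Every residue class modulo `M` is represented by a sum of fewer than `M` elements of a set of
natural numbers with greatest common divisor one. -/
lemma exists_short_list (s : Set ℕ) (hs : Nat.setGcd s = 1) (M : ℕ) (hM : 0 < M) (r : ℕ) :
    ∃ l : List ℕ, (∀ y ∈ l, y ∈ s) ∧ l.sum ≡ r [MOD M] ∧ l.length < M := by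
  classical
  have hex : ∃ t : ℕ, ∃ l : List ℕ, (∀ y ∈ l, y ∈ s) ∧ l.sum ≡ r [MOD M] ∧ l.length = t := by
    obtain ⟨N, hN⟩ := Nat.exists_mem_closure_of_ge (s := s)
    have h1 := hN (r + N * M) (by nlinarith) (by rw [hs]; exact one_dvd _)
    obtain ⟨l, hl, hsum⟩ := AddSubmonoid.exists_list_of_mem_closure h1
    refine ⟨l.length, l, hl, ?_, rfl⟩
    rw [hsum]
    simp [Nat.ModEq]
  obtain ⟨l, hl, hsum, hlen⟩ := Nat.find_spec hex
  refine ⟨l, hl, hsum, ?_⟩
  by_contra hcon
  push Not at hcon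
  -- two prefix sums agree modulo `M`
  have hpig : ∃ i ∈ Finset.range (M + 1), ∃ j ∈ Finset.range (M + 1), i ≠ j ∧
      (l.take i).sum % M = (l.take j).sum % M := by
    apply Finset.exists_ne_map_eq_of_card_lt_of_maps_to (t := Finset.range M)
    · simp
    · intro i _
      simp only [Finset.coe_range, Set.mem_Iio]
      exact Nat.mod_lt _ hM
  obtain ⟨i, hi, j, hj, hij, hmod⟩ := hpig
  wlog hlt : i < j generalizing i j with H
  · exact H j hj i hi hij.symm hmod.symm (by omega)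
  rw [Finset.mem_range] at hj hi
  have hjl : j ≤ l.length := by omega
  set l' := l.take i ++ l.drop j with hl'
  have hlen' : l'.length < Nat.find hex := by
    rw [← hlen, hl', List.length_append, List.length_take, List.length_drop]
    omega
  refine Nat.find_min hex hlen' ⟨l', ?_, ?_, rfl⟩
  · intro y hy
    rw [hl', List.mem_append] at hy
    rcases hy with hy | hy
    · exact hl y (List.mem_of_mem_take hy)
    · exact hl y (List.mem_of_mem_drop hy)
  · refine Nat.ModEq.trans ?_ hsum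
    rw [hl', List.sum_append]
    conv_rhs => rw [← List.take_append_drop j l, List.sum_append]
    exact Nat.ModEq.add_right _ hmod

/-- Sums of numbers `a ^ n - 1` can be added. -/
lemma admissible_list {n A : ℕ} (l : List ℕ)
    (hl : ∀ y ∈ l, ∃ a, 2 ≤ a ∧ a ≤ A ∧ y = a ^ n - 1) : Admissible n (1 + l.sum) := by
  induction l with
  | nil => simpa using admissible_one n
  | cons y l ih =>
    obtain ⟨a, ha, -, rfl⟩ := hl y List.mem_cons_self
    have h1 := ih fun z hz => hl z (List.mem_cons_of_mem _ hz)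
    have h2 := admissible_add (by omega : 0 < a) h1
    rw [List.sum_cons, add_comm (a ^ n - 1), ← add_assoc]
    exact h2

lemma admissible_mul {n k a : ℕ} (ha : 0 < a) (h : Admissible n k) (j : ℕ) :
    Admissible n (k + j * (a ^ n - 1)) := by
  induction j with
  | zero => simpa using h
  | succ j ih =>
    have := admissible_add ha ih
    rw [Nat.succ_mul, ← add_assoc]
    exact this

/-- If no prime divides all the numbers `a ^ n - 1`, `2 ≤ a ≤ A`, then every
`k ≥ (2 * A) ^ n` is admissible. -/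
theorem admissible_of_gcd {n A : ℕ} (hn : 0 < n) (hA : 2 ≤ A)
    (h : ∀ q : ℕ, q.Prime → ∃ a, 2 ≤ a ∧ a ≤ A ∧ ¬ q ∣ a ^ n - 1) {k : ℕ}
    (hk : (2 * A) ^ n ≤ k) : Admissible n k := by
  set s : Set ℕ := {y | ∃ a, 2 ≤ a ∧ a ≤ A ∧ y = a ^ n - 1} with hs
  have hgcd : Nat.setGcd s = 1 := by
    by_contra hne
    obtain ⟨q, hq, hqd⟩ := Nat.exists_prime_and_dvd hne
    obtain ⟨a, ha2, haA, hna⟩ := h q hq
    exact hna (hqd.trans (Nat.setGcd_dvd_of_mem ⟨a, ha2, haA, rfl⟩))
  have h2n : 2 ≤ 2 ^ n := by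
    calc 2 = 2 ^ 1 := by norm_num
      _ ≤ 2 ^ n := Nat.pow_le_pow_right (by norm_num) hn
  have hAn : 1 ≤ A ^ n := Nat.pow_pos (by omega)
  have hk1 : 1 ≤ k := le_trans (Nat.pow_pos (by omega)) hk
  obtain ⟨l, hl, hsum, hlen⟩ := exists_short_list s hgcd (2 ^ n - 1) (by omega) (k - 1)
  have hbound : l.sum ≤ l.length * (A ^ n - 1) := by
    have := List.sum_le_card_nsmul l (A ^ n - 1) (by
      intro y hy
      obtain ⟨a, -, ha, rfl⟩ := hl y hy
      exact Nat.sub_le_sub_right (Nat.pow_le_pow_left ha n) 1)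
    simpa using this
  have hle : l.sum ≤ k - 1 := by
    have h1 : l.length * (A ^ n - 1) ≤ (2 ^ n - 1) * (A ^ n - 1) :=
      Nat.mul_le_mul_right _ (by omega)
    have h2 : (2 ^ n - 1) * (A ^ n - 1) ≤ 2 ^ n * A ^ n - 1 := by
      obtain ⟨u, hu⟩ : ∃ u, 2 ^ n = u + 1 := ⟨2 ^ n - 1, by omega⟩
      obtain ⟨v, hv⟩ : ∃ v, A ^ n = v + 1 := ⟨A ^ n - 1, by omega⟩
      rw [hu, hv]
      have : (u + 1) * (v + 1) = u * v + u + v + 1 := by ring
      rw [this]
      simp only [Nat.add_sub_cancel]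
      omega
    rw [mul_pow] at hk
    omega
  have hdiv : (2 ^ n - 1) ∣ (k - 1) - l.sum := (Nat.modEq_iff_dvd' hle).mp hsum
  obtain ⟨j, hj⟩ := hdiv
  have h3 := admissible_mul (a := 2) (by norm_num) (admissible_list l hl) j
  have h4 : 1 + l.sum + j * (2 ^ n - 1) = k := by
    rw [mul_comm j]
    omega
  rw [h4] at h3
  exact h3

/-- The upper bound for the threshold. -/
theorem cutoff_le {n A c : ℕ} (hn : 0 < n) (hA : 2 ≤ A)
    (h : ∀ q : ℕ, q.Prime → ∃ a, 2 ≤ a ∧ a ≤ A ∧ ¬ q ∣ a ^ n - 1) (hc : IsCutoff n c) :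
    c ≤ (2 * A) ^ n := by
  by_contra hcon
  push Not at hcon
  rcases hc.2 with h0 | h0
  · omega
  · exact h0 (admissible_of_gcd hn hA h (by omega))

end Pool.Agent.MP9df71a
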