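import Mathlib

/-!
A lower bound of the right order for the number of `x ^ (1 / k)`-smooth numbers up to `x`, from
Chebyshev's bounds.
-/

open Filter Topology

namespace Pool.Agent.MP9df71a

open Chebyshev in
lemma theta_gap : ∃ t₀ : ℕ, ∀ t : ℕ, t₀ ≤ t → (t : ℝ) ≤ theta (4 * t) - theta t := by
  have h1 : (fun x : ℝ => Real.log x) =o[atTop] fun x : ℝ => x ^ (1 / 4 : ℝ) :=
    isLittleO_log_rpow_atTop (by norm_num)
  have h2 := h1.def (c := 1 / 100) (by norm_num)
  rw [eventually_atTop] at h2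
  obtain ⟨a, ha⟩ := h2
  obtain ⟨N, hN⟩ := exists_nat_ge (max a 1)
  refine ⟨N + 10, fun t ht => ?_⟩
  have ht' : ((N : ℝ) + 10) ≤ t := by exact_mod_cast ht
  have hta : a ≤ t := by linarith [le_max_left a 1]
  have ht1 : (1 : ℝ) ≤ t := by linarith [le_max_right a 1]
  have hb : Real.log (4 * t + 1) ≤ (4 * t + 1 : ℝ) ^ (1 / 4 : ℝ) / 100 := by
    have := ha (4 * t + 1) (by linarith)
    rw [Real.norm_of_nonneg (Real.log_nonneg (by linarith)),
      Real.norm_of_nonneg (by positivity)] at this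
    linarith
  have hroot : (4 * t + 1 : ℝ) ^ (1 / 4 : ℝ) ≤ 2 * Real.sqrt t := by
    have e1 : (4 * t + 1 : ℝ) ^ (1 / 4 : ℝ) ≤ ((2 * Real.sqrt t) ^ 4 : ℝ) ^ (1 / 4 : ℝ) := by
      apply Real.rpow_le_rpow (by positivity) _ (by norm_num)
      have : Real.sqrt t ^ 4 = (t : ℝ) ^ 2 := by
        calc Real.sqrt t ^ 4 = (Real.sqrt t ^ 2) ^ 2 := by ring
          _ = (t : ℝ) ^ 2 := by rw [Real.sq_sqrt (by positivity)]
      rw [mul_pow, this]
      nlinarith
    refine e1.trans (le_of_eq ?_)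
    rw [← Real.rpow_natCast, ← Real.rpow_mul (by positivity)]
    norm_num
  have hroot2 : (4 * t + 1 : ℝ) ^ (1 / 4 : ℝ) ≤ 2 * Real.sqrt (Real.sqrt t) := by
    have e1 : (4 * t + 1 : ℝ) ^ (1 / 4 : ℝ) ≤
        ((2 * Real.sqrt (Real.sqrt t)) ^ 4 : ℝ) ^ (1 / 4 : ℝ) := by
      apply Real.rpow_le_rpow (by positivity) _ (by norm_num)
      have : Real.sqrt (Real.sqrt t) ^ 4 = (t : ℝ) := by
        calc Real.sqrt (Real.sqrt t) ^ 4 = (Real.sqrt (Real.sqrt t) ^ 2) ^ 2 := by ring
          _ = (t : ℝ) := by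
            rw [Real.sq_sqrt (by positivity), Real.sq_sqrt (by positivity)]
      rw [mul_pow, this]
      linarith
    refine e1.trans (le_of_eq ?_)
    rw [← Real.rpow_natCast, ← Real.rpow_mul (by positivity)]
    norm_num
  have hs0 : 0 ≤ Real.sqrt (Real.sqrt t) := Real.sqrt_nonneg _
  have hs1 : Real.sqrt (Real.sqrt t) ^ 2 = Real.sqrt t := Real.sq_sqrt (Real.sqrt_nonneg _)
  have hs2 : Real.sqrt t ^ 2 = t := Real.sq_sqrt (by positivity)
  have hst1 : 1 ≤ Real.sqrt t := Real.one_le_sqrt.mpr ht1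
  have hsst1 : 1 ≤ Real.sqrt (Real.sqrt t) := Real.one_le_sqrt.mpr hst1
  have hlow := theta_ge (4 * t)
  have hup := theta_le_log4_mul_x (x := t) (by positivity)
  push_cast at hlow
  have hsq4 : Real.sqrt (4 * t) = 2 * Real.sqrt t := by
    rw [Real.sqrt_mul (by norm_num), show (4 : ℝ) = 2 ^ 2 by norm_num,
      Real.sqrt_sq (by norm_num)]
  rw [hsq4] at hlow
  have hlog4 : Real.log (4 * t) ≤ Real.log (4 * t + 1) :=
    Real.log_le_log (by positivity) (by linarith)
  have hl4 : Real.log 4 = 2 * Real.log 2 := by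
    rw [show (4 : ℝ) = 2 ^ 2 by norm_num, Real.log_pow]
    norm_num
  rw [hl4] at hup
  have hl2 := Real.log_two_gt_d9
  -- the error terms
  have he1 : Real.log (4 * t + 1) ≤ 2 * Real.sqrt (Real.sqrt t) / 100 := by linarith
  have he2 : 2 * (2 * Real.sqrt t) * Real.log (4 * t) ≤
      2 * (2 * Real.sqrt t) * (2 * Real.sqrt (Real.sqrt t) / 100) := by
    apply mul_le_mul_of_nonneg_left _ (by positivity)
    linarith
  have he3 : Real.sqrt t * Real.sqrt (Real.sqrt t) ≤ t := by
    nlinarith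
  have he4 : Real.sqrt (Real.sqrt t) ≤ t := by nlinarith
  nlinarith

/-- Primes in the interval `(y, B]`. -/
def primesIoc (y B : ℕ) : Finset ℕ := (Finset.Ioc y B).filter Nat.Prime

lemma mem_primesIoc {y B p : ℕ} : p ∈ primesIoc y B ↔ y < p ∧ p ≤ B ∧ p.Prime := by
  simp [primesIoc, and_assoc]

lemma sum_log_primesIoc {y B : ℕ} (h : y ≤ B) :
    ∑ p ∈ primesIoc y B, Real.log p = Chebyshev.theta B - Chebyshev.theta y := by
  unfold Chebyshev.theta primesIoc
  rw [Nat.floor_natCast, Nat.floor_natCast, Finset.sum_filter, Finset.sum_filter,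
    Finset.sum_filter]
  rw [← Finset.sum_Ioc_consecutive _ (Nat.zero_le y) h]
  ring

lemma sum_log_div_ge : ∃ t₀ : ℕ, ∀ t : ℕ, t₀ ≤ t → ∀ N : ℕ,
    (N : ℝ) / 4 ≤ ∑ p ∈ primesIoc t (4 ^ N * t), Real.log p / p := by
  obtain ⟨t₀, ht₀⟩ := theta_gap
  refine ⟨t₀ + 1, fun t ht N => ?_⟩
  induction N with
  | zero =>
    simp only [Nat.cast_zero, zero_div]
    exact Finset.sum_nonneg fun p _ => div_nonneg (Real.log_natCast_nonneg p) (Nat.cast_nonneg p)
  | succ N ih =>
    set s := 4 ^ N * t with hs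
    have hst : t ≤ s := Nat.le_mul_of_pos_left t (by positivity)
    have hs0 : 0 < s := by omega
    have hs' : 4 ^ (N + 1) * t = 4 * s := by rw [hs]; ring
    rw [hs']
    have hsplit : ∑ p ∈ primesIoc t (4 * s), Real.log p / p =
        ∑ p ∈ primesIoc t s, Real.log p / p + ∑ p ∈ primesIoc s (4 * s), Real.log p / p := by
      unfold primesIoc
      rw [Finset.sum_filter, Finset.sum_filter, Finset.sum_filter]
      rw [Finset.sum_Ioc_consecutive _ hst (by omega)]
    rw [hsplit]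
    have hs0' : (0 : ℝ) < s := by exact_mod_cast hs0
    have h1 : (1 : ℝ) / 4 ≤ ∑ p ∈ primesIoc s (4 * s), Real.log p / p := by
      have h2 := ht₀ s (by omega)
      have h3 : ∑ p ∈ primesIoc s (4 * s), Real.log p / (4 * s) ≤
          ∑ p ∈ primesIoc s (4 * s), Real.log p / p := by
        apply Finset.sum_le_sum
        intro p hp
        rw [mem_primesIoc] at hp
        have hp0 : (0 : ℝ) < p := by exact_mod_cast hp.2.2.pos
        have hp4 : (p : ℝ) ≤ 4 * s := by exact_mod_cast hp.2.1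
        exact div_le_div_of_nonneg_left (Real.log_natCast_nonneg p) hp0 hp4
      refine le_trans ?_ h3
      rw [← Finset.sum_div, sum_log_primesIoc (by omega)]
      push_cast
      rw [div_le_div_iff₀ (by norm_num) (by positivity)]
      linarith
    push_cast
    linarith

/-- The count of `B`-smooth numbers up to `X ≍ B ^ k` is at least a constant times `X`. -/
theorem smooth_lower (k : ℕ) (hk : 2 ≤ k) : ∃ c : ℝ, 0 < c ∧ ∃ B₀ : ℕ, ∀ B : ℕ, B₀ ≤ B →
    ∀ X : ℕ, B ^ k ≤ X → X < (B + 1) ^ k →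
      ∃ S : Finset ℕ, (∀ m ∈ S, 1 ≤ m ∧ m ≤ X ∧ ∀ p : ℕ, p.Prime → p ∣ m → p ≤ B) ∧
        c * X ≤ S.card := by
  classical
  obtain ⟨t₀, ht₀⟩ := sum_log_div_ge
  obtain ⟨M, hM⟩ := exists_nat_ge (Real.exp (3 * k * Real.log 4))
  have hk0 : (0 : ℝ) < k := by exact_mod_cast (by omega : 0 < k)
  refine ⟨(1 / 2) * (1 / (16 * k)) ^ k / (2 * k) ^ k, by positivity, M + t₀ ^ 2 + 2 ^ k + 2,
    fun B hB X hX1 hX2 => ?_⟩
  obtain ⟨hBM, hBt, hB2, hBpos⟩ : M ≤ B ∧ t₀ ^ 2 ≤ B ∧ 2 ^ k ≤ B ∧ 0 < B := by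
    generalize 2 ^ k = z at hB ⊢
    omega
  have hBpos' : (0 : ℝ) < B := by exact_mod_cast hBpos
  -- the number of scales
  set N := Nat.log (4 ^ k) (B / 2 ^ k) with hN
  have hb4 : 1 < 4 ^ k := Nat.one_lt_pow (by omega) (by norm_num)
  have hne : B / 2 ^ k ≠ 0 := by
    rw [Nat.div_ne_zero_iff]
    exact ⟨by positivity, hB2⟩
  have hN1 : (2 * 4 ^ N) ^ k ≤ B := by
    have h1 : (4 ^ k) ^ N ≤ B / 2 ^ k := Nat.pow_log_le_self _ hne
    have h2 : (4 ^ k) ^ N * 2 ^ k ≤ B := (Nat.mul_le_mul_right _ h1).trans (Nat.div_mul_le_self _ _)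
    calc (2 * 4 ^ N) ^ k = (4 ^ k) ^ N * 2 ^ k := by
          rw [mul_pow, ← pow_mul, ← pow_mul, mul_comm N k, mul_comm]
      _ ≤ B := h2
  have hN2 : B < 2 ^ k * (4 ^ k) ^ (N + 1) := by
    have h1 : B / 2 ^ k < (4 ^ k) ^ (N + 1) := Nat.lt_pow_succ_log_self hb4 _
    rw [Nat.div_lt_iff_lt_mul (by positivity)] at h1
    linarith
  -- the interval of primes
  set y := B / 4 ^ N with hy
  have h4N : 4 ^ N * 2 ≤ B := by
    calc 4 ^ N * 2 = (2 * 4 ^ N) ^ 1 := by ring
      _ ≤ (2 * 4 ^ N) ^ k := Nat.pow_le_pow_right (by positivity) (by omega)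
      _ ≤ B := hN1
  have hy1 : 1 ≤ y := by
    rw [hy, Nat.one_le_div_iff (by positivity)]
    omega
  have hyB : 4 ^ N * y ≤ B := by rw [mul_comm]; exact Nat.div_mul_le_self _ _
  have hyB' : B + 1 ≤ 2 * 4 ^ N * y := by
    have h1 : B < 4 ^ N * (y + 1) := by
      rw [hy]
      exact Nat.lt_mul_div_succ B (by positivity)
    have h2 : 4 ^ N * (y + 1) ≤ 4 ^ N * (2 * y) := Nat.mul_le_mul_left _ (by omega)
    have h3 : 4 ^ N * (2 * y) = 2 * 4 ^ N * y := by ring
    omega
  have hii : (B + 1) ^ k ≤ B * y ^ k := by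
    calc (B + 1) ^ k ≤ (2 * 4 ^ N * y) ^ k := Nat.pow_le_pow_left hyB' k
      _ = (2 * 4 ^ N) ^ k * y ^ k := by rw [mul_pow]
      _ ≤ B * y ^ k := Nat.mul_le_mul_right _ hN1
  have hiii : B + 1 ≤ y ^ 2 := by
    have h1 : (2 * 4 ^ N) ^ 2 ≤ B :=
      (Nat.pow_le_pow_right (by positivity) hk).trans hN1
    have h2 : (B + 1) ^ 2 ≤ B * y ^ 2 := by
      calc (B + 1) ^ 2 ≤ (2 * 4 ^ N * y) ^ 2 := Nat.pow_le_pow_left hyB' 2
        _ = (2 * 4 ^ N) ^ 2 * y ^ 2 := by rw [mul_pow]
        _ ≤ B * y ^ 2 := Nat.mul_le_mul_right _ h1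
    by_contra hcon
    push Not at hcon
    have h3 : B * y ^ 2 ≤ B * B := Nat.mul_le_mul_left _ (by omega)
    nlinarith
  have hyt : t₀ ≤ y := by
    by_contra hcon
    push Not at hcon
    have : y ^ 2 < t₀ ^ 2 := Nat.pow_lt_pow_left hcon (by norm_num)
    exact absurd (hBt.trans (Nat.le_succ B)) (not_le.mpr (lt_of_le_of_lt hiii this))
  -- the reciprocal sum over the primes of the interval
  set P := primesIoc y B with hP
  have hlogB : 3 * k * Real.log 4 ≤ Real.log B := by
    rw [← Real.log_exp (3 * k * Real.log 4)]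
    apply Real.log_le_log (Real.exp_pos _)
    refine hM.trans ?_
    exact_mod_cast hBM
  have hlog4 : Real.log 4 = 2 * Real.log 2 := by
    rw [show (4 : ℝ) = 2 ^ 2 by norm_num, Real.log_pow]
    norm_num
  have hlog2 := Real.log_two_gt_d9
  have hlog2' := Real.log_two_lt_d9
  have hlogBpos : 0 < Real.log B := by
    refine lt_of_lt_of_le ?_ hlogB
    have : 0 < Real.log 4 := by linarith
    positivity
  have hNlow : Real.log B / (2 * k * Real.log 4) ≤ N := by
    have h1 : (B : ℝ) < 2 ^ k * (4 ^ k) ^ (N + 1) := by exact_mod_cast hN2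
    have h2 : Real.log B < k * Real.log 2 + (N + 1) * (k * Real.log 4) := by
      calc Real.log B < Real.log (2 ^ k * (4 ^ k) ^ (N + 1)) := Real.log_lt_log hBpos' h1
        _ = k * Real.log 2 + (N + 1) * (k * Real.log 4) := by
          rw [Real.log_mul (by positivity) (by positivity), Real.log_pow, Real.log_pow,
            Real.log_pow]
          push_cast
          ring
    have h4pos : 0 < Real.log 4 := by linarith
    rw [div_le_iff₀ (by positivity)]
    have h3 : (N : ℝ) * (2 * k * Real.log 4) = 2 * (N * (k * Real.log 4)) := by ring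
    rw [h3]
    have h4 : (k : ℝ) * Real.log 2 = k * Real.log 4 / 2 := by rw [hlog4]; ring
    nlinarith
  have hS : 1 / (16 * k : ℝ) ≤ ∑ p ∈ P, (1 : ℝ) / p := by
    have h1 := ht₀ y hyt N
    have h2 : ∑ p ∈ primesIoc y (4 ^ N * y), Real.log p / p ≤ ∑ p ∈ P, Real.log p / p := by
      apply Finset.sum_le_sum_of_subset_of_nonneg
      · intro p hp
        rw [hP, mem_primesIoc]
        rw [mem_primesIoc] at hp
        exact ⟨hp.1, hp.2.1.trans hyB, hp.2.2⟩
      · intro p _ _
        exact div_nonneg (Real.log_natCast_nonneg p) (Nat.cast_nonneg p)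
    have h3 : ∑ p ∈ P, Real.log p / p ≤ Real.log B * ∑ p ∈ P, (1 : ℝ) / p := by
      rw [Finset.mul_sum]
      apply Finset.sum_le_sum
      intro p hp
      rw [hP, mem_primesIoc] at hp
      have hp0 : (0 : ℝ) < p := by exact_mod_cast hp.2.2.pos
      rw [mul_one_div]
      apply div_le_div_of_nonneg_right _ hp0.le
      exact Real.log_le_log hp0 (by exact_mod_cast hp.2.1)
    have h4pos : 0 < Real.log 4 := by linarith
    have h4 : Real.log B / (2 * k * Real.log 4) / 4 ≤ Real.log B * ∑ p ∈ P, (1 : ℝ) / p := by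
      linarith
    have h5 : Real.log B / (2 * k * Real.log 4) / 4 = Real.log B * (1 / (8 * k * Real.log 4)) := by
      field_simp
      norm_num
    rw [h5] at h4
    have h6 := le_of_mul_le_mul_left h4 hlogBpos
    refine le_trans ?_ h6
    apply one_div_le_one_div_of_le (by positivity)
    have : Real.log 4 ≤ 2 := by linarith
    nlinarith
  -- the counting
  set S := (Finset.Icc 1 X).filter (fun m => ∀ p : ℕ, p.Prime → p ∣ m → p ≤ B) with hSdef
  set F := Fintype.piFinset (fun _ : Fin k => P) with hF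
  set T : Finset ((_ : Fin k → ℕ) × ℕ) := F.sigma (fun f => Finset.Icc 1 (X / ∏ i, f i)) with hT
  have hFmem : ∀ f ∈ F, ∀ i, y < f i ∧ f i ≤ B ∧ (f i).Prime := by
    intro f hf i
    rw [hF, Fintype.mem_piFinset] at hf
    exact mem_primesIoc.mp (hf i)
  have hprodle : ∀ f ∈ F, ∏ i, f i ≤ X := by
    intro f hf
    refine le_trans ?_ hX1
    calc ∏ i, f i ≤ ∏ _i : Fin k, B := Finset.prod_le_prod' fun i _ => (hFmem f hf i).2.1
      _ = B ^ k := by simp
  have hprodpos : ∀ f ∈ F, 0 < ∏ i, f i := fun f hf =>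
    Finset.prod_pos fun i _ => (hFmem f hf i).2.2.pos
  have hprodge : ∀ f ∈ F, y ^ k ≤ ∏ i, f i := by
    intro f hf
    calc y ^ k = ∏ _i : Fin k, y := by simp
      _ ≤ _ := Finset.prod_le_prod' fun i _ => (hFmem f hf i).1.le
  have hmaps : ∀ a ∈ T, a.2 * ∏ i, a.1 i ∈ S := by
    rintro ⟨f, m⟩ ha
    rw [hT, Finset.mem_sigma, Finset.mem_Icc] at ha
    obtain ⟨hf, hm1, hm2⟩ := ha
    dsimp only at hf hm1 hm2 ⊢
    rw [hSdef, Finset.mem_filter, Finset.mem_Icc]
    have hpp := hprodpos f hf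
    refine ⟨⟨Nat.mul_pos (by omega) hpp, ?_⟩, ?_⟩
    · exact (Nat.mul_le_mul_right _ hm2).trans (Nat.div_mul_le_self _ _)
    · intro p hp hpd
      rcases (Nat.Prime.dvd_mul hp).mp hpd with h | h
      · have h1 : p ≤ m := Nat.le_of_dvd (by omega) h
        have h2 : X / ∏ i, f i ≤ B := by
          apply Nat.le_of_lt_succ
          rw [Nat.div_lt_iff_lt_mul hpp]
          calc X < (B + 1) ^ k := hX2
            _ ≤ B * y ^ k := hii
            _ ≤ B * ∏ i, f i := Nat.mul_le_mul_left _ (hprodge f hf)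
            _ ≤ (B + 1) * ∏ i, f i := Nat.mul_le_mul_right _ (by omega)
        omega
      · obtain ⟨i, -, hi⟩ := (Prime.dvd_finset_prod_iff (Nat.Prime.prime hp) _).mp h
        have := (Nat.prime_dvd_prime_iff_eq hp (hFmem f hf i).2.2).mp hi
        rw [this]
        exact (hFmem f hf i).2.1
  have hfib : ∀ b ∈ S, (T.filter (fun a => a.2 * ∏ i, a.1 i = b)).card ≤ (2 * k) ^ k := by
    intro b hb
    rw [hSdef, Finset.mem_filter, Finset.mem_Icc] at hb
    set D := P.filter (fun p => p ∣ b) with hD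
    have hDcard : D.card ≤ 2 * k := by
      have h1 : ∏ p ∈ D, p ∣ b := by
        apply Finset.prod_primes_dvd
        · intro p hp
          rw [hD, Finset.mem_filter, hP, mem_primesIoc] at hp
          exact hp.1.2.2.prime
        · intro p hp
          rw [hD, Finset.mem_filter] at hp
          exact hp.2
      have h2 : y ^ D.card ≤ ∏ p ∈ D, p := by
        calc y ^ D.card = ∏ _p ∈ D, y := by simp
          _ ≤ _ := Finset.prod_le_prod' fun p hp => by
            rw [hD, Finset.mem_filter, hP, mem_primesIoc] at hp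
            exact hp.1.1.le
      have h3 : y ^ D.card < y ^ (2 * k) := by
        calc y ^ D.card ≤ ∏ p ∈ D, p := h2
          _ ≤ b := Nat.le_of_dvd (by omega) h1
          _ ≤ X := hb.1.2
          _ < (B + 1) ^ k := hX2
          _ ≤ (y ^ 2) ^ k := Nat.pow_le_pow_left hiii k
          _ = y ^ (2 * k) := by rw [← pow_mul]
      by_contra hcon
      push Not at hcon
      exact absurd h3 (not_lt.mpr (Nat.pow_le_pow_right hy1 hcon.le))
    calc (T.filter (fun a => a.2 * ∏ i, a.1 i = b)).card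
        ≤ (Fintype.piFinset (fun _ : Fin k => D)).card := by
          apply Finset.card_le_card_of_injOn (fun a => a.1)
          · rintro ⟨f, m⟩ ha
            simp only [Finset.coe_filter, hT, Finset.mem_sigma, Finset.mem_Icc,
              Set.mem_setOf_eq] at ha
            simp only [Finset.mem_coe, Fintype.mem_piFinset]
            intro i
            rw [hD, Finset.mem_filter]
            refine ⟨?_, ?_⟩
            · have := ha.1.1
              rw [hF, Fintype.mem_piFinset] at this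
              exact this i
            · rw [← ha.2]
              exact (Finset.dvd_prod_of_mem _ (Finset.mem_univ i)).mul_left _
          · rintro ⟨f, m⟩ ha ⟨g, m'⟩ ha' hfg
            simp only [Finset.coe_filter, hT, Finset.mem_sigma, Finset.mem_Icc,
              Set.mem_setOf_eq] at ha ha' hfg
            subst hfg
            have hpp := hprodpos f ha.1.1
            have : m = m' := by
              have := ha.2.trans ha'.2.symm
              exact Nat.eq_of_mul_eq_mul_right hpp this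
            rw [this]
      _ = D.card ^ k := by simp
      _ ≤ (2 * k) ^ k := Nat.pow_le_pow_left hDcard k
  have hcard : T.card ≤ (2 * k) ^ k * S.card :=
    Finset.card_le_mul_card_image_of_maps_to hmaps _ hfib
  have hTcard : (X : ℝ) / 2 * (∑ p ∈ P, (1 : ℝ) / p) ^ k ≤ T.card := by
    rw [hT, Finset.card_sigma]
    push_cast
    have h1 : (∑ p ∈ P, (1 : ℝ) / p) ^ k = ∑ f ∈ F, ∏ i, (1 : ℝ) / (f i : ℝ) := by
      have := Finset.prod_univ_sum (fun _ : Fin k => P) (fun _ p => (1 : ℝ) / (p : ℝ))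
      rw [Finset.prod_const, Finset.card_univ, Fintype.card_fin] at this
      exact this
    rw [h1, Finset.mul_sum]
    apply Finset.sum_le_sum
    intro f hf
    have hpp := hprodpos f hf
    have hle := hprodle f hf
    have h2 : ∏ i, (1 : ℝ) / (f i : ℝ) = 1 / ((∏ i, f i : ℕ) : ℝ) := by
      push_cast
      rw [Finset.prod_div_distrib, Finset.prod_const_one]
    rw [h2, Nat.card_Icc, Nat.add_sub_cancel]
    set Q := ∏ i, f i with hQ
    have hQ' : (0 : ℝ) < Q := by exact_mod_cast hpp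
    have h3 : 1 ≤ X / Q := (Nat.one_le_div_iff hpp).mpr hle
    have h4 : X < Q * (X / Q + 1) := Nat.lt_mul_div_succ X hpp
    have h5 : (X : ℝ) < Q * ((X / Q : ℕ) + 1) := by exact_mod_cast h4
    have h6 : (1 : ℝ) ≤ (X / Q : ℕ) := by exact_mod_cast h3
    rw [mul_one_div, div_div, div_le_iff₀ (by positivity)]
    nlinarith
  have hfin : (X : ℝ) / 2 * (1 / (16 * k)) ^ k ≤ (2 * k) ^ k * S.card := by
    calc (X : ℝ) / 2 * (1 / (16 * k)) ^ k ≤ (X : ℝ) / 2 * (∑ p ∈ P, (1 : ℝ) / p) ^ k := by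
          apply mul_le_mul_of_nonneg_left _ (by positivity)
          exact pow_le_pow_left₀ (by positivity) hS k
      _ ≤ T.card := hTcard
      _ ≤ (2 * k) ^ k * S.card := by exact_mod_cast hcard
  refine ⟨S, fun m hm => ?_, ?_⟩
  · rw [hSdef, Finset.mem_filter, Finset.mem_Icc] at hm
    exact ⟨hm.1.1, hm.1.2, hm.2⟩
  rw [div_mul_eq_mul_div, div_le_iff₀ (by positivity)]
  calc (1 : ℝ) / 2 * (1 / (16 * k)) ^ k * X = (X : ℝ) / 2 * (1 / (16 * k)) ^ k := by ring
    _ ≤ (2 * k) ^ k * S.card := hfin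
    _ = _ := by ring

end Pool.Agent.MP9df71a
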