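import Pool.Agent.Lib.MP_9df71a_co.Semigroup
import Pool.Agent.Lib.MP_9df71a_co.Arith

/-!
The upper bound `c(n) ≤ (5 max (P, √n)) ^ n`, where `P` is at least every prime `p` with
`p - 1 ∣ n`.
-/

open Filter Topology N0a8789b9

namespace Pool.Agent.MP9df71a

/-- The coprime pairs in `[1, A] ^ 2`. -/
def copPairs (A : ℕ) : Finset (ℕ × ℕ) :=
  (Finset.Icc 1 A ×ˢ Finset.Icc 1 A).filter fun x => Nat.Coprime x.1 x.2

lemma tele (N : ℕ) : ∑ j ∈ Finset.Icc 1 N, (1 : ℝ) / (2 * j + 1) ^ 2 ≤ 1 / 4 := by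
  have h : ∀ N : ℕ, ∑ j ∈ Finset.Icc 1 N, (1 : ℝ) / (2 * j + 1) ^ 2 ≤
      (1 / 4 : ℝ) * ((1 : ℝ) - (1 : ℝ) / ((N : ℝ) + 1)) := by
    intro N
    induction N with
    | zero => simp
    | succ N ih =>
      rw [Finset.sum_Icc_succ_top (by omega)]
      push_cast
      have hN : (0 : ℝ) ≤ N := Nat.cast_nonneg N
      have h1 : (1 : ℝ) / (2 * (N + 1) + 1) ^ 2 ≤
          1 / 4 * (1 / ((N : ℝ) + 1) - 1 / ((N : ℝ) + 1 + 1)) := by
        rw [div_sub_div _ _ (by positivity) (by positivity), ← mul_div_assoc,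
          div_le_div_iff₀ (by positivity) (by positivity)]
        nlinarith
      linarith
  refine (h N).trans ?_
  have : (0 : ℝ) ≤ 1 / ((N : ℝ) + 1) := by positivity
  linarith

lemma copPairs_card (A : ℕ) : A ^ 2 ≤ 2 * (copPairs A).card := by
  classical
  set U := Finset.Icc 1 A ×ˢ Finset.Icc 1 A with hU
  have hUcard : U.card = A ^ 2 := by
    rw [hU, Finset.card_product, Nat.card_Icc, Nat.add_sub_cancel, sq]
  set D : ℕ → Finset (ℕ × ℕ) := fun m =>
    ((Finset.Icc 1 A).filter (fun a => m ∣ a)) ×ˢ ((Finset.Icc 1 A).filter (fun a => m ∣ a))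
    with hD
  have hDcard : ∀ m, (D m).card = (A / m) ^ 2 := by
    intro m
    have h1 : ((Finset.Icc 1 A).filter (fun a => m ∣ a)).card = A / m := by
      have := Nat.Ioc_filter_dvd_card_eq_div A m
      exact this
    rw [hD, Finset.card_product, h1, sq]
  have hcov : U \ copPairs A ⊆ D 2 ∪ (Finset.Icc 1 A).biUnion (fun j => D (2 * j + 1)) := by
    rintro ⟨a, b⟩ hab
    rw [Finset.mem_sdiff] at hab
    obtain ⟨h1, h2⟩ := hab
    have h1' := h1
    rw [hU, Finset.mem_product, Finset.mem_Icc, Finset.mem_Icc] at h1'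
    have h3 : ¬ Nat.Coprime a b := fun hc => h2 (by
      rw [copPairs, Finset.mem_filter]
      exact ⟨h1, hc⟩)
    obtain ⟨p, hp, hpa, hpb⟩ := Nat.Prime.not_coprime_iff_dvd.mp h3
    have hpA : p ≤ A := (Nat.le_of_dvd (by omega) hpa).trans h1'.1.2
    have hmem : (a, b) ∈ D p := by
      rw [hD, Finset.mem_product, Finset.mem_filter, Finset.mem_filter, Finset.mem_Icc,
        Finset.mem_Icc]
      exact ⟨⟨h1'.1, hpa⟩, ⟨h1'.2, hpb⟩⟩
    rcases hp.eq_two_or_odd' with h | h
    · rw [h] at hmem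
      exact Finset.mem_union_left _ hmem
    · obtain ⟨j, hj⟩ := h
      have hj1 : 1 ≤ j := by
        have := hp.one_lt
        omega
      apply Finset.mem_union_right
      rw [Finset.mem_biUnion]
      exact ⟨j, Finset.mem_Icc.mpr ⟨hj1, by omega⟩, hj ▸ hmem⟩
  have hcompl : ((U \ copPairs A).card : ℝ) ≤ (A : ℝ) ^ 2 / 2 := by
    have h1 : ((U \ copPairs A).card : ℝ) ≤
        (D 2).card + ∑ j ∈ Finset.Icc 1 A, ((D (2 * j + 1)).card : ℝ) := by
      have h2 := (Finset.card_le_card hcov).trans (Finset.card_union_le _ _)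
      have h3 := Finset.card_biUnion_le (s := Finset.Icc 1 A) (t := fun j => D (2 * j + 1))
      exact_mod_cast h2.trans (Nat.add_le_add_left h3 _)
    have h2 : ∀ m : ℕ, 0 < m → ((D m).card : ℝ) ≤ (A : ℝ) ^ 2 * (1 / (m : ℝ) ^ 2) := by
      intro m hm
      rw [hDcard]
      push_cast
      have h3 : ((A / m : ℕ) : ℝ) ≤ A / m := Nat.cast_div_le
      have h4 : ((A / m : ℕ) : ℝ) ^ 2 ≤ ((A : ℝ) / m) ^ 2 :=
        pow_le_pow_left₀ (Nat.cast_nonneg _) h3 2
      rw [mul_one_div, ← div_pow]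
      exact h4
    have h3 : ∑ j ∈ Finset.Icc 1 A, ((D (2 * j + 1)).card : ℝ) ≤ (A : ℝ) ^ 2 * (1 / 4) := by
      calc ∑ j ∈ Finset.Icc 1 A, ((D (2 * j + 1)).card : ℝ)
          ≤ ∑ j ∈ Finset.Icc 1 A, (A : ℝ) ^ 2 * (1 / (2 * (j : ℝ) + 1) ^ 2) := by
            apply Finset.sum_le_sum
            intro j _
            have := h2 (2 * j + 1) (by omega)
            push_cast at this
            exact this
        _ = (A : ℝ) ^ 2 * ∑ j ∈ Finset.Icc 1 A, (1 / (2 * (j : ℝ) + 1) ^ 2) := by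
            rw [Finset.mul_sum]
        _ ≤ (A : ℝ) ^ 2 * (1 / 4) := mul_le_mul_of_nonneg_left (tele A) (by positivity)
    have h4 := h2 2 (by norm_num)
    push_cast at h4
    linarith
  have hsub : copPairs A ⊆ U := Finset.filter_subset _ _
  have hsum : (U \ copPairs A).card + (copPairs A).card = A ^ 2 := by
    rw [Finset.card_sdiff_add_card_eq_card hsub, hUcard]
  have hsum' : ((U \ copPairs A).card : ℝ) + (copPairs A).card = (A : ℝ) ^ 2 := by
    exact_mod_cast hsum
  have : (A : ℝ) ^ 2 ≤ 2 * (copPairs A).card := by linarith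
  exact_mod_cast this

/-- If `q` divides all `a ^ n - 1` with `2 ≤ a ≤ A`, and `q - 1 ∤ n`, then `A ^ 2 ≤ 2 n`. -/
theorem sq_le_of_forall_dvd {q n A : ℕ} (hq : q.Prime) (hn : 0 < n)
    (hdvd : ∀ a, 2 ≤ a → a ≤ A → q ∣ a ^ n - 1) (hqn : ¬ (q - 1) ∣ n) : A ^ 2 ≤ 2 * n := by
  classical
  have : Fact q.Prime := ⟨hq⟩
  -- the least positive integer which is not an `n`-th root of unity
  have hex : ∃ a : ℕ, 1 ≤ a ∧ (a : ZMod q) ^ n ≠ 1 := by
    refine ⟨q, hq.one_lt.le, ?_⟩
    simp [hn.ne']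
  set a₀ := Nat.find hex with ha₀
  obtain ⟨ha1, hane⟩ := Nat.find_spec hex
  have hmin : ∀ a : ℕ, 1 ≤ a → a < a₀ → (a : ZMod q) ^ n = 1 := by
    intro a h1 h2
    by_contra h3
    exact Nat.find_min hex h2 ⟨h1, h3⟩
  -- `a₀ < q`
  have ha₀q : a₀ < q := by
    by_contra hcon
    push Not at hcon
    apply hqn
    have hall : ∀ x : (ZMod q)ˣ, x ^ n = 1 := by
      intro x
      apply Units.ext
      rw [Units.val_pow_eq_pow_val, Units.val_one]
      have h1 : ((x : ZMod q).val : ZMod q) = (x : ZMod q) := ZMod.natCast_zmod_val _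
      rw [← h1]
      apply hmin
      · by_contra h0
        have h2 : (x : ZMod q).val = 0 := by omega
        rw [ZMod.val_eq_zero] at h2
        exact x.ne_zero h2
      · exact lt_of_lt_of_le (ZMod.val_lt _) hcon
    obtain ⟨g, hg⟩ := IsCyclic.exists_generator (α := (ZMod q)ˣ)
    have h1 : orderOf g = q - 1 := by
      rw [orderOf_eq_card_of_forall_mem_zpowers hg, Nat.card_eq_fintype_card,
        ZMod.card_units_eq_totient, Nat.totient_prime hq]
    rw [← h1]
    exact orderOf_dvd_of_pow_eq_one (hall g)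
  have ha₀pos : 0 < a₀ := ha1
  -- `A < a₀`
  have hAa₀ : A < a₀ := by
    by_contra hcon
    push Not at hcon
    apply hane
    rcases Nat.lt_or_ge a₀ 2 with h | h
    · have : a₀ = 1 := by omega
      change ((a₀ : ℕ) : ZMod q) ^ n = 1
      rw [this]; simp
    · exact pow_eq_one_of_dvd (by omega) (hdvd a₀ h hcon)
  -- `(a₀ - 1) a₀ < q`
  have hlt : (a₀ - 1) * a₀ < q := by
    by_contra hcon
    push Not at hcon
    set b := q / a₀ + 1 with hb
    have hr : q < a₀ * b := Nat.lt_mul_div_succ q ha₀pos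
    have hr2 : a₀ * (q / a₀) ≤ q := Nat.mul_div_le q a₀
    have hndvd : ¬ a₀ ∣ q := by
      intro hd
      rcases (Nat.dvd_prime hq).mp hd with h | h
      · apply hane
        change ((a₀ : ℕ) : ZMod q) ^ n = 1
        rw [h]; simp
      · omega
    have hne : a₀ * (q / a₀) ≠ q := fun h => hndvd ⟨_, h.symm⟩
    have hbe : a₀ * b = a₀ * (q / a₀) + a₀ := by rw [hb]; ring
    -- `r = a₀ b - q ∈ [1, a₀)`
    have hr1 : 1 ≤ a₀ * b - q := by omega
    have hr3 : a₀ * b - q < a₀ := by omega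
    have hba : b < a₀ ∨ b = a₀ := by
      have : q / a₀ ≤ a₀ - 1 := by
        rw [Nat.div_le_iff_le_mul_add_pred ha₀pos]
        nlinarith
      omega
    rcases hba with hba | hba
    · have h1 := hmin b (Nat.succ_pos _) hba
      have h2 := hmin (a₀ * b - q) hr1 hr3
      rw [Nat.cast_sub hr.le] at h2
      push_cast at h2
      rw [ZMod.natCast_self, sub_zero, mul_pow, h1, mul_one] at h2
      exact hane h2
    · -- then `q / a₀ = a₀ - 1`, so `q ≤ (a₀ - 1) a₀` gives `q = (a₀ - 1) a₀`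
      have h1 : q / a₀ = a₀ - 1 := by omega
      rw [h1, mul_comm] at hr2 hne
      omega
  -- fractions
  have hcount : (copPairs A).card ≤ n := by
    have h1 : (copPairs A).card ≤ ((Polynomial.nthRoots n (1 : ZMod q)).toFinset).card := by
      apply Finset.card_le_card_of_injOn
        (fun x : ℕ × ℕ => (x.1 : ZMod q) * ((x.2 : ZMod q))⁻¹)
      · rintro ⟨a, b⟩ hab
        simp only [Finset.mem_coe, copPairs, Finset.mem_filter, Finset.mem_product,
          Finset.mem_Icc] at hab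
        simp only [Finset.mem_coe, Multiset.mem_toFinset]
        rw [Polynomial.mem_nthRoots hn, mul_pow, inv_pow, hmin a hab.1.1.1 (by omega),
          hmin b hab.1.2.1 (by omega)]
        simp
      · rintro ⟨a, b⟩ hab ⟨a', b'⟩ hab' heq
        simp only [Finset.mem_coe, copPairs, Finset.mem_filter, Finset.mem_product,
          Finset.mem_Icc] at hab hab' heq
        have hb : (b : ZMod q) ≠ 0 := by
          intro h0
          rw [ZMod.natCast_eq_zero_iff] at h0
          have := Nat.le_of_dvd (by omega) h0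
          omega
        have hb' : (b' : ZMod q) ≠ 0 := by
          intro h0
          rw [ZMod.natCast_eq_zero_iff] at h0
          have := Nat.le_of_dvd (by omega) h0
          omega
        have h2 : ((a * b' : ℕ) : ZMod q) = ((a' * b : ℕ) : ZMod q) := by
          push_cast
          field_simp at heq
          linear_combination heq
        have hle : ∀ u v : ℕ, u ≤ A → v ≤ A → u * v < q := by
          intro u v hu hv
          calc u * v ≤ (a₀ - 1) * a₀ := Nat.mul_le_mul (by omega) (by omega)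
            _ < q := hlt
        rw [ZMod.natCast_eq_natCast_iff', Nat.mod_eq_of_lt (hle a b' (by omega) (by omega)),
          Nat.mod_eq_of_lt (hle a' b (by omega) (by omega))] at h2
        have h3 : a ∣ a' := by
          have : a ∣ a' * b := ⟨b', h2.symm⟩
          exact (hab.2).dvd_of_dvd_mul_right this
        have h4 : a' ∣ a := by
          have : a' ∣ a * b' := ⟨b, h2⟩
          exact (hab'.2).dvd_of_dvd_mul_right this
        have h5 : a = a' := Nat.dvd_antisymm h3 h4
        subst h5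
        have h6 : b' = b := Nat.eq_of_mul_eq_mul_left (by omega) h2
        rw [h6]
    refine h1.trans ((Multiset.toFinset_card_le _).trans ?_)
    exact Polynomial.card_nthRoots n 1
  have := copPairs_card A
  omega

/-- The upper bound for the threshold. -/
theorem cutoff_le_max {n P c : ℕ} (hn : 0 < n)
    (hP : ∀ p : ℕ, p.Prime → (p - 1) ∣ n → p ≤ P) (hc : IsCutoff n c) :
    (c : ℝ) ≤ (5 * max (P : ℝ) (Real.sqrt n)) ^ n := by
  set B := Nat.sqrt (2 * n) + 1 with hB
  have hB2 : 2 ≤ B := by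
    have h1 : 1 ≤ Nat.sqrt (2 * n) := Nat.le_sqrt'.mpr (by omega)
    omega
  have hBsq : 2 * n < B ^ 2 := Nat.lt_succ_sqrt' (2 * n)
  have hn1 : (1 : ℝ) ≤ n := by exact_mod_cast hn
  have hs1 : 1 ≤ Real.sqrt n := Real.one_le_sqrt.mpr hn1
  have hBle : (B : ℝ) ≤ 5 / 2 * Real.sqrt n := by
    have h1 : ((Nat.sqrt (2 * n) : ℕ) : ℝ) ≤ 3 / 2 * Real.sqrt n := by
      have h2 : ((Nat.sqrt (2 * n) : ℕ) : ℝ) ^ 2 ≤ 2 * n := by
        have := Nat.sqrt_le' (2 * n)
        exact_mod_cast this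
      have h3 : Real.sqrt n ^ 2 = n := Real.sq_sqrt (by positivity)
      rw [← pow_le_pow_iff_left₀ (Nat.cast_nonneg _) (by positivity) (two_ne_zero)]
      nlinarith
    rw [hB]
    push_cast
    linarith
  set A := max P B with hA
  have hkey : ∀ q : ℕ, q.Prime → ∃ a, 2 ≤ a ∧ a ≤ A ∧ ¬ q ∣ a ^ n - 1 := by
    intro q hq
    by_contra hcon
    push Not at hcon
    have h1 := lt_of_forall_dvd hq hn hcon
    have h2 : ¬ (q - 1) ∣ n := by
      intro hd
      have := hP q hq hd
      have := le_max_left P B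
      omega
    have h3 := sq_le_of_forall_dvd hq hn hcon h2
    have h4 : B ^ 2 ≤ A ^ 2 := Nat.pow_le_pow_left (le_max_right P B) 2
    omega
  have h1 := cutoff_le hn (hB2.trans (le_max_right P B)) hkey hc
  calc (c : ℝ) ≤ ((2 * A) ^ n : ℕ) := by exact_mod_cast h1
    _ = (2 * (A : ℝ)) ^ n := by push_cast; ring
    _ ≤ (5 * max (P : ℝ) (Real.sqrt n)) ^ n := by
        apply pow_le_pow_left₀ (by positivity)
        rw [hA]
        push_cast
        have h2 : (P : ℝ) ≤ max (P : ℝ) (Real.sqrt n) := le_max_left _ _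
        have h3 : Real.sqrt n ≤ max (P : ℝ) (Real.sqrt n) := le_max_right _ _
        have h4 : (0 : ℝ) ≤ P := Nat.cast_nonneg P
        rcases max_cases (P : ℝ) (B : ℝ) with ⟨h5, _⟩ | ⟨h5, _⟩ <;> rw [h5] <;> linarith

end Pool.Agent.MP9df71a
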