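import Mathlib
import Pool.Prelude.Def_F_cef2bd1b

/-!
Elementary facts on decompositions of the unit cube into homothetic cubes: the trivial one, grids,
and replacing one cube of a decomposition by a scaled copy of another decomposition.
-/

open N0a8789b9

namespace Pool.Agent.MP9df71a

/-- Admissibility with an arbitrary finite index type. -/
lemma admissible_of_card {n k : ℕ} {ι : Type*} [Fintype ι] (hk : Fintype.card ι = k)
    (tiles : ι → Cube n) (h1 : ∀ i, (tiles i).InsideUnit)
    (h2 : ∀ x, InUnit x → ∃! i, (tiles i).Mem x) : Admissible n k := by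
  classical
  obtain e : ι ≃ Fin k := Fintype.equivFinOfCardEq hk
  refine ⟨fun i => tiles (e.symm i), fun i => h1 _, fun x hx => ?_⟩
  obtain ⟨i, hi, hu⟩ := h2 x hx
  refine ⟨e i, by simpa using hi, fun j hj => ?_⟩
  have := hu _ hj
  rw [← this, Equiv.apply_symm_apply]

/-- The grid of `a ^ n` equal cubes. -/
lemma admissible_pow (n a : ℕ) (ha : 0 < a) : Admissible n (a ^ n) := by
  have ha' : (0 : ℝ) < a := by exact_mod_cast ha
  refine admissible_of_card (ι := Fin n → Fin a) (by simp)
    (fun f => ⟨fun j => (f j : ℝ) / a, 1 / a⟩) (fun f => ⟨by positivity, fun j => ⟨by positivity, ?_⟩⟩)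
    (fun x hx => ?_)
  · show ((f j : ℕ) : ℝ) / a + 1 / a ≤ 1
    rw [← add_div, div_le_one ha']
    have : (f j : ℕ) + 1 ≤ a := (f j).2
    exact_mod_cast this
  · have hfl : ∀ j, ⌊x j * a⌋₊ < a := fun j => by
      rw [Nat.floor_lt (mul_nonneg (hx j).1 ha'.le)]
      have := (hx j).2
      nlinarith
    refine ⟨fun j => ⟨⌊x j * a⌋₊, hfl j⟩, fun j => ?_, fun g hg => ?_⟩
    · show ((⌊x j * a⌋₊ : ℕ) : ℝ) / a ≤ x j ∧ x j < ((⌊x j * a⌋₊ : ℕ) : ℝ) / a + 1 / a
      rw [← add_div, div_le_iff₀ ha', lt_div_iff₀ ha']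
      exact ⟨Nat.floor_le (mul_nonneg (hx j).1 ha'.le), Nat.lt_floor_add_one _⟩
    · funext j
      obtain ⟨h1, h2⟩ := hg j
      change ((g j : ℕ) : ℝ) / a ≤ x j at h1
      change x j < ((g j : ℕ) : ℝ) / a + 1 / a at h2
      rw [div_le_iff₀ ha'] at h1
      rw [← add_div, lt_div_iff₀ ha'] at h2
      apply Fin.ext
      symm
      show ⌊x j * a⌋₊ = (g j : ℕ)
      rw [Nat.floor_eq_iff (mul_nonneg (hx j).1 ha'.le)]
      exact ⟨h1, h2⟩

/-- Replace the last cube of a decomposition into `k + 1` cubes by a scaled copy of a decomposition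
into `m` cubes. -/
lemma admissible_comp {n k m : ℕ} (h : Admissible n (k + 1)) (h' : Admissible n m) :
    Admissible n (k + m) := by
  obtain ⟨s, hs1, hs2⟩ := h
  obtain ⟨t, ht1, ht2⟩ := h'
  set Q := s (Fin.last k) with hQ
  have hQ0 : 0 < Q.side := (hs1 _).1
  set T : Fin m → Cube n := fun j =>
    ⟨fun l => Q.lower l + Q.side * (t j).lower l, Q.side * (t j).side⟩ with hT
  have hTmem : ∀ j x, (T j).Mem x ↔ (t j).Mem (fun l => (x l - Q.lower l) / Q.side) := by
    intro j x
    unfold Cube.Mem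
    refine forall_congr' fun l => ?_
    rw [hT]
    simp only
    rw [le_div_iff₀ hQ0, div_lt_iff₀ hQ0]
    constructor
    · rintro ⟨h1, h2⟩
      exact ⟨by linarith, by nlinarith⟩
    · rintro ⟨h1, h2⟩
      exact ⟨by linarith, by nlinarith⟩
  have hunit : ∀ x, Q.Mem x ↔ InUnit (fun l => (x l - Q.lower l) / Q.side) := by
    intro x
    unfold Cube.Mem InUnit
    refine forall_congr' fun l => ?_
    rw [le_div_iff₀ hQ0, div_lt_iff₀ hQ0]
    constructor
    · rintro ⟨h1, h2⟩
      exact ⟨by linarith, by linarith⟩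
    · rintro ⟨h1, h2⟩
      exact ⟨by linarith, by linarith⟩
  have hTin : ∀ j x, (T j).Mem x → Q.Mem x := by
    intro j x hx
    rw [hTmem] at hx
    rw [hunit]
    intro l
    have h1 := hx l
    have h2 := (ht1 j).2 l
    exact ⟨by linarith [h1.1, h2.1], by linarith [h1.2, h2.2]⟩
  refine admissible_of_card (ι := Fin k ⊕ Fin m) (by simp)
    (Sum.elim (fun i => s i.castSucc) T) ?_ ?_
  · rintro (i | j)
    · exact hs1 _
    · refine ⟨mul_pos hQ0 (ht1 j).1, fun l => ⟨?_, ?_⟩⟩
      · have h1 := ((hs1 (Fin.last k)).2 l).1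
        have h2 := ((ht1 j).2 l).1
        show 0 ≤ Q.lower l + Q.side * (t j).lower l
        have := mul_nonneg hQ0.le h2
        linarith
      · have h1 := ((hs1 (Fin.last k)).2 l).2
        have h2 := ((ht1 j).2 l).2
        show Q.lower l + Q.side * (t j).lower l + Q.side * (t j).side ≤ 1
        have := mul_le_mul_of_nonneg_left h2 hQ0.le
        linarith
  · intro x hx
    obtain ⟨i, hi, hu⟩ := hs2 x hx
    by_cases hxQ : Q.Mem x
    · obtain ⟨j, hj, hju⟩ := ht2 _ ((hunit x).mp hxQ)
      refine ⟨Sum.inr j, (hTmem j x).mpr hj, ?_⟩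
      rintro (i' | j') hij
      · exfalso
        have h1 := hu _ hij
        have h2 := hu _ hxQ
        rw [← h2] at h1
        exact (Fin.castSucc_lt_last i').ne h1
      · have := hju j' ((hTmem j' x).mp hij)
        rw [this]
    · have hine : i ≠ Fin.last k := by
        rintro rfl
        exact hxQ hi
      obtain ⟨i', rfl⟩ := Fin.exists_castSucc_eq.mpr hine
      refine ⟨Sum.inl i', hi, ?_⟩
      rintro (i'' | j') hij
      · have := hu _ hij
        rw [Fin.castSucc_inj] at this
        rw [this]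
      · exact absurd (hTin j' x hij) hxQ

lemma admissible_one (n : ℕ) : Admissible n 1 := by
  simpa using admissible_pow n 1 one_pos

/-- No decomposition into zero cubes. -/
lemma not_admissible_zero (n : ℕ) : ¬ Admissible n 0 := by
  rintro ⟨t, -, h⟩
  obtain ⟨i, -, -⟩ := h (fun _ => 0) (fun _ => ⟨le_rfl, one_pos⟩)
  exact i.elim0

/-- Adding `a ^ n - 1` cubes. -/
lemma admissible_add {n k a : ℕ} (ha : 0 < a) (h : Admissible n k) :
    Admissible n (k + (a ^ n - 1)) := by
  have hk : 0 < k := by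
    rcases Nat.eq_zero_or_pos k with rfl | h0
    · exact absurd h (not_admissible_zero n)
    · exact h0
  obtain ⟨k', rfl⟩ : ∃ k', k = k' + 1 := ⟨k - 1, by omega⟩
  have h1 := admissible_comp h (admissible_pow n a ha)
  have h2 : 0 < a ^ n := Nat.pow_pos ha
  have h3 : k' + 1 + (a ^ n - 1) = k' + a ^ n := by omega
  rw [h3]
  exact h1

end Pool.Agent.MP9df71a
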