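import Pool.Agent.Lib.MP_9df71a_co.Sqrt

open Filter Topology N0a8789b9

/-- If every prime `p` with `p - 1 ∣ n` is at most `P`, then `c(n) ≤ (5 max (P, √n)) ^ n`. In
particular `c(n) ≤ (5 √n) ^ n` for every odd `n ≥ 5`. -/
theorem Pool.Agent.MP9df71a.upperBound_result :
    (∀ n P c : ℕ, 0 < n → (∀ p : ℕ, p.Prime → (p - 1) ∣ n → p ≤ P) → IsCutoff n c →
      (c : ℝ) ≤ (5 * max (P : ℝ) (Real.sqrt n)) ^ n) ∧
    (∀ n c : ℕ, 5 ≤ n → Odd n → IsCutoff n c → (c : ℝ) ≤ (5 * Real.sqrt n) ^ n) := by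
  have key : ∀ n P c : ℕ, 0 < n → (∀ p : ℕ, p.Prime → (p - 1) ∣ n → p ≤ P) → IsCutoff n c →
      (c : ℝ) ≤ (5 * max (P : ℝ) (Real.sqrt n)) ^ n := fun n P c hn hP hc =>
    Pool.Agent.MP9df71a.cutoff_le_max hn hP hc
  refine ⟨key, fun n c hn hodd hc => ?_⟩
  have h := key n 2 c (by omega) (fun p hp hd => ?_) hc
  · have h2 : ((2 : ℕ) : ℝ) ≤ Real.sqrt n := by
      apply Real.le_sqrt_of_sq_le
      have : (5 : ℝ) ≤ n := by exact_mod_cast hn
      norm_num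
      linarith
    rwa [max_eq_right h2] at h
  · rcases hp.eq_two_or_odd' with h | h
    · omega
    · exfalso
      have h1 : 2 ∣ p - 1 := by
        obtain ⟨j, hj⟩ := h
        exact ⟨j, by omega⟩
      have h2 : 2 ∣ n := h1.trans hd
      rw [Nat.odd_iff] at hodd
      omega
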